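import Pool.Agent.H2.ZS.Df

/-!
ROW Av (averaging over Frobenius powers, general modulus; about 110 lines).  ADAPT row TB (`Pool/Agent/H46/TS/TB.lean`, theorem `av1`, private lemmas `z1_geom`, `z1_val`, `z1_inj`, copied).  PROOF.
If `y ^ q = y` then `y ^ (q^j) = y` for all `j` by induction. Otherwise `y ≠ 0` (as `y^((q-1)*J) = 1`, exponent not zero), `η = y ^ (q - 1) ≠ 1`, `η ^ J = 1`. `g j = ∑_{t<j} q^t`: `q^j = (q - 1) g j + 1` (`z1_geom` with `Q = q - 1`), so
`y ^ (q^j) = y * η ^ (g j % J)`. `j ↦ g j % J` is injective on `range J`: for `i < j < J` with `J ∣ g j - g i = q^i * ∑_{t < j - i} q^t` (see `z1_inj`), put `d = j - i`, `0 < d < J`; `J` is prime to `q` (a prime `r ∣ J` divides `q - 1`), so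
`J ∣ S := ∑_{t<d} q^t`, `S ≠ 0`; for every prime `r ∣ J`: `padicValNat r S = padicValNat r d` (`z1_val`, uses `r ≠ 2`, `r ∣ q - 1`), so `padicValNat r J ≤ padicValNat r d`; hence `J ∣ d` (`Nat.dvd_of_factors...`: use
`(Nat.factorization_le_iff_dvd hJ hd).1` with `Nat.factorization_def`, or `padicValNat_dvd...`), contradiction with `d < J`. So the sum is `y * ∑_{t<J} η^t = 0` (`geom_sum_mul`), as at the end of `av1`.
-/

set_option autoImplicit false

namespace H2ZS

open Finset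

private lemma Av_geom (Q j : ℕ) : (Q + 1) ^ j = Q * (∑ i ∈ range j, (Q + 1) ^ i) + 1 := by
  induction j with
  | zero => simp
  | succ j ih =>
    rw [sum_range_succ]
    have h1 : (Q + 1) ^ (j + 1) = Q * (Q + 1) ^ j + (Q + 1) ^ j := by ring
    have h2 : Q * ((∑ x ∈ range j, (Q + 1) ^ x) + (Q + 1) ^ j) =
        Q * (∑ x ∈ range j, (Q + 1) ^ x) + Q * (Q + 1) ^ j := by ring
    rw [h1, h2]
    linarith

private lemma Av_val {p q l : ℕ} [Fact p.Prime] (hp2 : p ≠ 2) (hq : 1 < q) (hd : p ∣ q - 1)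
    (hl : l ≠ 0) : padicValNat p (∑ i ∈ range l, q ^ i) = padicValNat p l := by
  have hp : p.Prime := Fact.out
  have hodd : Odd p := hp.odd_of_ne_two hp2
  have hnd : ¬ p ∣ q := by
    intro h
    have h1 : p ∣ q - (q - 1) := Nat.dvd_sub h hd
    have h2 : q - (q - 1) = 1 := by omega
    rw [h2] at h1
    exact hp.one_lt.ne' (Nat.dvd_one.1 h1)
  have h1 := padicValNat.pow_sub_pow (p := p) (x := q) (y := 1) hodd hq hd hnd hl
  rw [one_pow] at h1
  obtain ⟨Q, rfl⟩ : ∃ Q, q = Q + 1 := ⟨q - 1, by omega⟩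
  have h2 := Av_geom Q l
  have h3 : (Q + 1) ^ l - 1 = Q * (∑ i ∈ range l, (Q + 1) ^ i) := by omega
  have h4 : Q + 1 - 1 = Q := by omega
  have hQ0 : Q ≠ 0 := by omega
  have hS0 : (∑ i ∈ range l, (Q + 1) ^ i) ≠ 0 := by
    intro h0
    rw [h0] at h2
    have h5 : 1 < (Q + 1) ^ l := Nat.one_lt_pow hl hq
    omega
  rw [h3, h4, padicValNat.mul hQ0 hS0] at h1
  omega

private lemma Av_inj {q J : ℕ} (hq : 1 < q) (hJ : 0 < J)
    (hJq : ∀ r : ℕ, r.Prime → r ∣ J → r ∣ q - 1 ∧ r ≠ 2) {i j : ℕ} (hij : i < j)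
    (hj : j < J) (h : (∑ t ∈ range i, q ^ t) % J = (∑ t ∈ range j, q ^ t) % J) : False := by
  obtain ⟨l, rfl⟩ : ∃ l, j = i + l := ⟨j - i, by omega⟩
  have hl : l ≠ 0 := by omega
  have e1 : (∑ t ∈ range (i + l), q ^ t) =
      (∑ t ∈ range i, q ^ t) + q ^ i * ∑ t ∈ range l, q ^ t := by
    rw [sum_range_add, mul_sum]
    congr 1
    refine sum_congr rfl fun t _ => ?_
    rw [pow_add]
  have h1 : J ∣ q ^ i * ∑ t ∈ range l, q ^ t := by
    have h2 : J ∣ (∑ t ∈ range (i + l), q ^ t) - (∑ t ∈ range i, q ^ t) :=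
      (Nat.modEq_iff_dvd' (by rw [e1]; exact Nat.le_add_right _ _)).1 h
    rw [e1, Nat.add_sub_cancel_left] at h2
    exact h2
  have hcop : Nat.Coprime J q := by
    refine Nat.Coprime.symm (Nat.Coprime.symm (Nat.coprime_of_dvd ?_))
    intro r hr h3 h4
    have h5 : r ∣ q - (q - 1) := Nat.dvd_sub h4 (hJq r hr h3).1
    have h6 : q - (q - 1) = 1 := by omega
    rw [h6] at h5
    exact hr.one_lt.ne' (Nat.dvd_one.1 h5)
  have h2 : J ∣ ∑ t ∈ range l, q ^ t :=
    Nat.Coprime.dvd_of_dvd_mul_left (Nat.Coprime.pow_right _ hcop) h1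
  have hS0 : (∑ t ∈ range l, q ^ t) ≠ 0 := by
    intro h0
    have := Finset.sum_eq_zero_iff.1 h0 0 (mem_range.2 (by omega))
    simp at this
  have h3 : J ∣ l := by
    rw [← Nat.factorization_le_iff_dvd hJ.ne' hl]
    intro r
    by_cases hr : r.Prime ∧ r ∣ J
    · have hf : Fact r.Prime := ⟨hr.1⟩
      have h4 := (Nat.factorization_le_iff_dvd hJ.ne' hS0).2 h2 r
      rw [Nat.factorization_def _ hr.1, Nat.factorization_def _ hr.1] at h4 ⊢
      rw [Av_val (hJq r hr.1 hr.2).2 hq (hJq r hr.1 hr.2).1 hl] at h4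
      exact h4
    · have h4 : J.factorization r = 0 := by
        by_cases h5 : r.Prime
        · exact Nat.factorization_eq_zero_of_not_dvd fun h6 => hr ⟨h5, h6⟩
        · exact Nat.factorization_eq_zero_of_not_prime _ h5
      rw [h4]
      exact Nat.zero_le _
  have := Nat.le_of_dvd (Nat.pos_of_ne_zero hl) h3
  omega

open Classical in
theorem avg {Ω : Type*} [Field Ω] {q J : ℕ} (hq : 1 < q) (hJ : 0 < J)
    (hJq : ∀ r : ℕ, r.Prime → r ∣ J → r ∣ q - 1 ∧ r ≠ 2) {y : Ω} (hy : y ^ ((q - 1) * J) = 1) :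
    ∑ j ∈ range J, y ^ (q ^ j) = if y ^ q = y then (J : Ω) * y else 0 := by
  split_ifs with h
  · have h1 : ∀ j : ℕ, y ^ (q ^ j) = y := by
      intro j
      induction j with
      | zero => simp
      | succ j ih => rw [pow_succ, pow_mul, ih, h]
    rw [sum_congr rfl fun j _ => h1 j, sum_const, card_range, nsmul_eq_mul]
  · have hy0 : y ≠ 0 := by
      rintro rfl
      have h1 : (q - 1) * J ≠ 0 := Nat.mul_ne_zero (by omega) hJ.ne'
      rw [zero_pow h1] at hy
      exact zero_ne_one hy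
    obtain ⟨η, hη⟩ : ∃ η : Ω, η = y ^ (q - 1) := ⟨_, rfl⟩
    have hη1 : η ≠ 1 := by
      intro h1
      apply h
      have h2 : q = (q - 1) + 1 := by omega
      rw [h2, pow_succ, ← hη, h1, one_mul]
    have hηJ : η ^ J = 1 := by
      rw [hη, ← pow_mul, hy]
    obtain ⟨g, hg⟩ : ∃ g : ℕ → ℕ, g = fun j => (∑ t ∈ range j, q ^ t) % J := ⟨_, rfl⟩
    have h1 : ∀ j : ℕ, y ^ (q ^ j) = y * η ^ g j := by
      intro j
      obtain ⟨Q, hQ'⟩ : ∃ Q, q = Q + 1 := ⟨q - 1, by omega⟩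
      have e1 := Av_geom Q j
      have e2 : q - 1 = Q := by omega
      have e3 : η ^ g j = η ^ (∑ t ∈ range j, q ^ t) := by
        rw [hg]
        conv_rhs => rw [← Nat.mod_add_div (∑ t ∈ range j, q ^ t) J]
        rw [pow_add, pow_mul, hηJ, one_pow, mul_one]
      rw [e3, hη, e2, hQ', ← pow_mul y Q]
      conv_lhs => rw [e1]
      rw [pow_succ, mul_comm]
    rw [sum_congr rfl fun j _ => h1 j, ← mul_sum]
    have hinj : Set.InjOn g (range J : Set ℕ) := by
      intro i hi j hj hij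
      rw [mem_coe, mem_range] at hi hj
      rw [hg] at hij
      rcases lt_trichotomy i j with h2 | h2 | h2
      · exact (Av_inj hq hJ hJq h2 hj hij).elim
      · exact h2
      · exact (Av_inj hq hJ hJq h2 hi hij.symm).elim
    have himg : image g (range J) = range J := by
      apply eq_of_subset_of_card_le
      · intro t ht
        obtain ⟨j, -, rfl⟩ := mem_image.1 ht
        rw [mem_range, hg]
        exact Nat.mod_lt _ hJ
      · rw [card_image_of_injOn hinj]
    have hs : ∑ j ∈ range J, η ^ g j = ∑ t ∈ range J, η ^ t := by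
      conv_rhs => rw [← himg]
      rw [sum_image hinj]
    have hz : (∑ t ∈ range J, η ^ t) * (η - 1) = 0 := by
      rw [geom_sum_mul, hηJ, sub_self]
    rw [hs, (mul_eq_zero.1 hz).resolve_right (sub_ne_zero.2 hη1), mul_zero]

end H2ZS
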