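import Pool.Agent.H68.TM.Cmp

/-!
MP_78d38b: fields with a complex conjugation of `l`-type (helper2; no row). Generalisation of
`H68TM.exists_comp` to arbitrary fields `N1` with a complex conjugation which are contained in a Galois
extension of the rationals of `l`-power degree over an abelian field.
-/

set_option autoImplicit false
set_option linter.style.haveILetI false
open scoped Classical

open NumberField H68TL H68TM

namespace H2ZS

/-- `k` is contained in a Galois extension `F` of the rationals whose degree over a subfield `F₀` of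
a cyclotomic field is a power of `l`. -/
def NType (l : ℕ) (k : Type) [Field k] [NumberField k] : Prop :=
  ∃ (F : Type) (_ : Field F) (_ : NumberField F) (F₀ : IntermediateField ℚ F),
    IsGalois ℚ F ∧ (∃ m : ℕ, m ≠ 0 ∧ Nonempty (F₀ →+* CyclotomicField m ℚ)) ∧
    (∃ r : ℕ, Module.finrank F₀ F = l ^ r) ∧ Nonempty (k →+* F)

/-- a subfield which contains a primitive root of unity -/
private theorem CmpN_cyc {M : ℕ} [NeZero M] {k B : Type} [Field k] [Field B] [Algebra k B]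
    [IsCyclotomicExtension {M} k B] {N : Subfield B} (hk : ∀ x : k, algebraMap k B x ∈ N) {z : B}
    (hz : IsPrimitiveRoot z M) (h : z ∈ N) (x : B) : x ∈ N := by
  have h1 : x ∈ Algebra.adjoin k ({z} : Set B) := by
    rw [IsCyclotomicExtension.adjoin_primitive_root_eq_top hz]
    exact Algebra.mem_top
  induction h1 using Algebra.adjoin_induction with
  | mem y hy => rw [Set.mem_singleton_iff.1 hy]; exact h
  | algebraMap r => exact hk r
  | add y y' _ _ hy hy' => exact N.add_mem hy hy'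
  | mul y y' _ _ hy hy' => exact N.mul_mem hy hy'

theorem exists_cc_fieldN (F' : Type) [Field F'] [NumberField F'] [IsGalois ℚ F'] :
    ∃ (N : IntermediateField ℚ F') (J : N ≃+* N), IsGalois ℚ N ∧ IsCC J ∧
      (∀ (k : Type) [Field k] [NumberField k] (J1 : k ≃+* k), IsCC J1 → ∀ (e : k →+* F') (x : k),
        e x ∈ N) ∧
      ∀ (z : F') (n : ℕ), n ≠ 0 → z ^ n = 1 → z ∈ N := by
  obtain ⟨φ₀⟩ := H68TL.cc_emb F'
  obtain ⟨c, hc⟩ := Cr_emb φ₀ ((starRingEnd ℂ).comp φ₀)
  have hc' : ∀ x, φ₀ (c x) = starRingEnd ℂ (φ₀ x) := fun x => (hc x).symm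
  have hcc : ∀ x, c (c x) = x := by
    intro x
    apply φ₀.injective
    rw [hc', hc']
    exact Complex.conj_conj _
  have hst : ∀ x : CrN c, ∃ y : CrN c,
      (c : F' ≃+* F') (algebraMap (CrN c) F' x) = algebraMap (CrN c) F' y := fun x =>
    ⟨⟨c x, CrN_stab x.2 c⟩, rfl⟩
  obtain ⟨J, hJ⟩ := H68TL.stab_of (J := (c : F' ≃+* F')) (algebraMap (CrN c) F') hcc hst
  refine ⟨CrN c, J, CrN_gal c, ?_, ?_, ?_⟩
  · intro φ x
    obtain ⟨ψ, hψ⟩ := H68TL.emb_ext (algebraMap (CrN c) F') φ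
    obtain ⟨g, hg⟩ := Cr_emb φ₀ ψ
    rw [← hψ, ← hψ, ← hJ, hg, hg]
    have h1 : g (c (algebraMap (CrN c) F' x)) = c (g (algebraMap (CrN c) F' x)) := (x.2 g).symm
    have h2 : g ((c : F' ≃+* F') (algebraMap (CrN c) F' x))
        = c (g (algebraMap (CrN c) F' x)) := h1
    rw [h2, hc']
  · intro k _ _ J1 hJ1 e x
    rw [mem_CrN]
    have h1 : ∀ (g : F' ≃ₐ[ℚ] F'), c (g (e x)) = g (e (J1 x)) := by
      intro g
      apply φ₀.injective
      rw [hc']
      exact (hJ1 (φ₀.comp ((g : F' →+* F').comp e)) x).symm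
    intro g
    have h2 : c (e x) = e (J1 x) := h1 1
    rw [h1 g, h2]
  · intro z n hn hz
    rw [mem_CrN]
    have h1 : ∀ g : F' ≃ₐ[ℚ] F', c (g z) = (g z)⁻¹ := by
      intro g
      apply φ₀.injective
      rw [hc', map_inv₀]
      have h2 : ‖φ₀ (g z)‖ = 1 := by
        apply Complex.norm_eq_one_of_pow_eq_one _ hn
        rw [← map_pow, ← map_pow, hz, map_one, map_one]
      rw [Complex.inv_eq_conj h2]
    intro g
    have h2 : c z = z⁻¹ := h1 1
    rw [h1 g, h2, map_inv₀]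

/-- A field `N1` of `l`-type with a complex conjugation `J1` is contained in a Galois field of type
`LT l M` with a complex conjugation, `m ∣ M`. -/
theorem exists_compN {l : ℕ} [Fact l.Prime] {N1 : Type} [Field N1] [NumberField N1]
    (hN : NType l N1) {J1 : N1 ≃+* N1} (hJ1 : IsCC J1) {m : ℕ} (hm : m ≠ 0) :
    ∃ (M : ℕ) (N : Type) (_ : Field N) (_ : NumberField N) (ν : N1 →+* N) (J : N ≃+* N),
      m ∣ M ∧ M ≠ 0 ∧ IsGalois ℚ N ∧ LT l M N ∧ IsCC J ∧ ∀ x, J (ν x) = ν (J1 x) := by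
  obtain ⟨F, _, _, F₀, hFG, ⟨m₀, hm₀, ⟨i⟩⟩, ⟨r, hr⟩, ⟨j⟩⟩ := hN
  obtain ⟨M, hM⟩ : ∃ M, M = m * m₀ := ⟨_, rfl⟩
  have hM0 : M ≠ 0 := by
    rw [hM]
    exact mul_ne_zero hm hm₀
  haveI : NeZero M := ⟨hM0⟩
  have hmM : m ∣ M := ⟨m₀, hM⟩
  obtain ⟨F', _, _, e, C', hG, hcyc, s, hs⟩ :=
    exists_cyc_up (l := l) (m := m₀) (M := M) ⟨m, by rw [hM, mul_comm]⟩ hM0 F₀ i hr
  obtain ⟨N, J, hNG, hJ, hreal', hroot⟩ := exists_cc_fieldN F'
  haveI := hNG
  -- the roots of unity
  have hz := IsCyclotomicExtension.zeta_spec M ℚ C'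
  set z := IsCyclotomicExtension.zeta M ℚ C' with hzz
  have hz' : IsPrimitiveRoot (algebraMap C' F' z) M :=
    hz.map_of_injective (f := algebraMap C' F') (algebraMap C' F').injective
  have hzN : algebraMap C' F' z ∈ N := hroot _ M hM0 hz'.pow_eq_one
  have hCN : C' ≤ N := by
    intro x hx
    exact CmpN_cyc (M := M) (k := ℚ) (N := N.toSubfield.comap (algebraMap C' F')) (fun q => by
      rw [Subfield.mem_comap, eq_ratCast, map_ratCast]
      exact SubfieldClass.ratCast_mem N.toSubfield q) hz hzN ⟨x, hx⟩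
  obtain ⟨C, hC⟩ : ∃ C : IntermediateField ℚ N, C = IntermediateField.restrict hCN := ⟨_, rfl⟩
  have e1 : C' ≃ₐ[ℚ] C := hC ▸ IntermediateField.restrictAlgEquiv hCN
  haveI hcycC : IsCyclotomicExtension {M} ℚ C := IsCyclotomicExtension.equiv {M} ℚ C' e1
  have hdeg : ∃ r' : ℕ, Module.finrank C N = l ^ r' := by
    have h1 := Module.finrank_mul_finrank ℚ C' F'
    have h2 := Module.finrank_mul_finrank ℚ N F'
    have h3 := Module.finrank_mul_finrank ℚ C N
    have h4 : Module.finrank ℚ C' = Module.finrank ℚ C := e1.toLinearEquiv.finrank_eq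
    have h5 : 0 < Module.finrank ℚ C := Module.finrank_pos
    have h6 : Module.finrank C N * Module.finrank N F' = l ^ s := by
      apply Nat.eq_of_mul_eq_mul_left h5
      rw [← mul_assoc, h3, h2, ← h1, h4, hs]
    obtain ⟨r', -, hr'⟩ := (Nat.dvd_prime_pow (Fact.out : l.Prime)).1 ⟨_, h6.symm⟩
    exact ⟨r', hr'⟩
  have hLT : LT l M N := ⟨N, inferInstance, inferInstance, C, RingHom.id N, hNG, hcycC,
    fun x _ => ⟨x, rfl⟩, hdeg, J, hJ⟩
  have hφN : ∀ x : N1, (e.comp j) x ∈ N := fun x => hreal' N1 J1 hJ1 (e.comp j) x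
  refine ⟨M, N, inferInstance, inferInstance, (e.comp j).codRestrict N hφN, J, hmM, hM0, hNG,
    hLT, hJ, ?_⟩
  intro x
  obtain ⟨φ⟩ := cc_emb N
  apply φ.injective
  rw [hJ]
  exact (hJ1 (φ.comp ((e.comp j).codRestrict N hφN)) x).symm

/-- The field `k(ζ_f)` is of `l`-type if `k` is. -/
theorem ntype_cyc {l : ℕ} [Fact l.Prime] {k : Type} [Field k] [NumberField k] (hk : NType l k)
    {f : ℕ} (hf : f ≠ 0) (N1 : Type) [Field N1] [NumberField N1] [Algebra k N1]
    [IsCyclotomicExtension {f} k N1] : NType l N1 := by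
  obtain ⟨F, _, _, F₀, hFG, ⟨m₀, hm₀, ⟨i⟩⟩, ⟨r, hr⟩, ⟨j⟩⟩ := hk
  obtain ⟨M, hM⟩ : ∃ M, M = f * m₀ := ⟨_, rfl⟩
  have hM0 : M ≠ 0 := by
    rw [hM]
    exact mul_ne_zero hf hm₀
  haveI : NeZero M := ⟨hM0⟩
  haveI : NeZero f := ⟨hf⟩
  obtain ⟨F', _, _, e, C', hG, hcyc, s, hs⟩ :=
    exists_cyc_up (l := l) (m := m₀) (M := M) ⟨f, by rw [hM, mul_comm]⟩ hM0 F₀ i hr
  have hz := IsCyclotomicExtension.zeta_spec M ℚ C'
  have hz' : IsPrimitiveRoot (algebraMap C' F' (IsCyclotomicExtension.zeta M ℚ C')) M :=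
    hz.map_of_injective (f := algebraMap C' F') (algebraMap C' F').injective
  letI : Algebra k F' := (e.comp j).toAlgebra
  have hζ := IsCyclotomicExtension.zeta_spec f k N1
  set ζ := IsCyclotomicExtension.zeta f k N1 with hζζ
  obtain ⟨w, hw⟩ : ∃ w : F', IsPrimitiveRoot w f :=
    ⟨_, hz'.pow (Nat.pos_of_ne_zero hM0) (a := m₀) (b := f) (by rw [hM, mul_comm])⟩
  haveI : IsScalarTower ℚ k N1 := IsScalarTower.of_algebraMap_eq fun q => by
    rw [eq_ratCast, eq_ratCast, map_ratCast]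
  haveI : FiniteDimensional k N1 := Module.Finite.of_restrictScalars_finite ℚ k N1
  have hadj : IntermediateField.adjoin k ({ζ} : Set N1) = ⊤ := by
    rw [eq_top_iff]
    intro x _
    exact CmpN_cyc (M := f) (k := k) (N := (IntermediateField.adjoin k ({ζ} : Set N1)).toSubfield)
      (fun y => (IntermediateField.adjoin k ({ζ} : Set N1)).algebraMap_mem y) hζ
      (IntermediateField.mem_adjoin_simple_self k ζ) x
  have hdvd : minpoly k ζ ∣ Polynomial.X ^ f - Polynomial.C 1 := by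
    refine minpoly.dvd _ _ ?_
    rw [map_sub, map_pow, Polynomial.aeval_X, Polynomial.aeval_C, map_one, hζ.pow_eq_one, sub_self]
  have hne : (Polynomial.X ^ f - Polynomial.C (1 : F')) ≠ 0 :=
    Polynomial.X_pow_sub_C_ne_zero (NeZero.pos f) 1
  obtain ⟨φ⟩ := IntermediateField.nonempty_algHom_of_adjoin_splits (F := k) (E := N1) (K := F')
    (S := {ζ}) (fun s hs => by
      rw [Set.mem_singleton_iff.1 hs]
      refine ⟨IsIntegral.of_finite k _, ?_⟩
      have h1 := Polynomial.X_pow_sub_one_splits hw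
      refine h1.of_dvd hne ?_
      have h2 := Polynomial.map_dvd (algebraMap k F') hdvd
      rwa [Polynomial.map_sub, Polynomial.map_pow, Polynomial.map_X, Polynomial.map_C, map_one] at h2)
    hadj
  haveI : IsCyclotomicExtension {M} ℚ (CyclotomicField M ℚ) :=
    CyclotomicField.isCyclotomicExtension M ℚ
  exact ⟨F', inferInstance, inferInstance, C', hG,
    ⟨M, hM0, ⟨(IsCyclotomicExtension.algEquiv {M} ℚ C' (CyclotomicField M ℚ)).toRingEquiv.toRingHom⟩⟩,
    ⟨s, hs⟩, ⟨(φ : N1 →+* F')⟩⟩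

end H2ZS
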