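import Pool.Agent.H2.ZS.St

/-!
ROW Co (the restricted sum as a sum over roots of unity; about 110 lines).  ADAPT `cosets` in `Pool/Agent/H46/TS/TE.lean`; here no half systems.  PROOF.
The map `(x, t) ↦ fun i => a i * red (k i + 1) (x i) * u1 i ^ t i` from `VV ×ˢ TT` (`VV = Fintype.piFinset V`, `TT = Fintype.piFinset fun i => range (p i ^ e i)`) to the filtered set: `Finset.sum_product'` / `Finset.sum_product` and `Finset.sum_nbij'` or `Finset.sum_image`
(as in `hsum` of `cosets`). Injective: at each `i`, `key` of `cosets` (copy it for one prime: `teich_unique`, `S3_r_red`, `S3_u1r`) gives `x i = y i`, then `S3_u1inj` gives `t i = t' i`. It maps into the set by `chi_in` (with `(a * w) * a⁻¹ = w`), and it is onto by `struct2` applied to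
`v = u * a⁻¹`. Membership: `Fintype.mem_piFinset`.
-/

set_option autoImplicit false

namespace H2ZS

open Finset H5SW H46TS

open Classical in
theorem cosetsM {I : Type} [Fintype I] [DecidableEq I] {p k e : I → ℕ} [∀ i, Fact (p i).Prime]
    {Ω : Type*} [Field Ω] {l s : ℕ} [Fact l.Prime] [CharP Ω l] (hp2 : ∀ i, p i ≠ 2)
    (hinj : Function.Injective p) (hQ : ∀ i, QD l (p i) (e i) s) (hek : ∀ i, 2 * e i ≤ k i + 1)
    {V : ∀ i, Finset ℤ_[p i]ˣ} (hV : ∀ i x, x ∈ V i ↔ x ^ (p i - 1) = 1)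
    (χ : (∀ i, (ZMod (p i ^ (k i + 1)))ˣ) →* Ωˣ) (hχ : ∀ i, Prim (cmp χ i))
    (a u1 : ∀ i, (ZMod (p i ^ (k i + 1)))ˣ)
    (hu1 : ∀ i, (u1 i : ZMod (p i ^ (k i + 1))) =
      1 + (p i : ZMod (p i ^ (k i + 1))) ^ (k i + 1 - e i))
    (h : (∀ i, (ZMod (p i ^ (k i + 1)))ˣ) → Ω) :
    ∑ u ∈ univ.filter (fun u => χ (u * a⁻¹) ^ (l ^ s) = χ (u * a⁻¹)), h u =
      ∑ x ∈ Fintype.piFinset V, ∑ t ∈ Fintype.piFinset (fun i => range (p i ^ e i)),
        h (fun i => a i * red (k i + 1) (x i) * u1 i ^ t i) := by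
  have key : ∀ i, ∀ x y : ℤ_[p i]ˣ, x ^ (p i - 1) = 1 → y ^ (p i - 1) = 1 → ∀ t t' : ℕ,
      red (k i + 1) x * u1 i ^ t = red (k i + 1) y * u1 i ^ t' → x = y := by
    intro i x y hx hy t t' hxy
    apply teich_unique hx hy
    rw [← S3_r_red (k i) x, ← S3_r_red (k i) y]
    have h2 := congrArg (S3_r (p i) (k i)) hxy
    rw [map_mul, map_mul, map_pow, map_pow, S3_u1r (hQ i).e1 (hek i) (u1 i) (hu1 i), one_pow, one_pow,
      mul_one, mul_one] at h2
    rw [h2]
  obtain ⟨f, hf⟩ : ∃ f : (∀ i, ℤ_[p i]ˣ) × (I → ℕ) → (∀ i, (ZMod (p i ^ (k i + 1)))ˣ),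
      ∀ q, f q = fun i => a i * red (k i + 1) (q.1 i) * u1 i ^ q.2 i := ⟨_, fun _ => rfl⟩
  have hL : ∑ x ∈ Fintype.piFinset V, ∑ t ∈ Fintype.piFinset (fun i => range (p i ^ e i)),
        h (fun i => a i * red (k i + 1) (x i) * u1 i ^ t i) =
      ∑ q ∈ Fintype.piFinset V ×ˢ Fintype.piFinset (fun i => range (p i ^ e i)), h (f q) := by
    rw [Finset.sum_product]
    refine Finset.sum_congr rfl fun x _ => Finset.sum_congr rfl fun t _ => ?_
    rw [hf]
  have hI : ∑ q ∈ Fintype.piFinset V ×ˢ Fintype.piFinset (fun i => range (p i ^ e i)), h (f q) =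
      ∑ u ∈ (Fintype.piFinset V ×ˢ Fintype.piFinset (fun i => range (p i ^ e i))).image f, h u := by
    rw [Finset.sum_image]
    rintro ⟨x, t⟩ hx ⟨y, t'⟩ hy hxy
    rw [mem_coe, mem_product, Fintype.mem_piFinset, Fintype.mem_piFinset] at hx hy
    rw [hf, hf] at hxy
    have hxi : ∀ i, x i = y i ∧ t i = t' i := by
      intro i
      have h1 := congrFun hxy i
      simp only at h1
      rw [mul_assoc, mul_assoc, mul_right_inj] at h1
      have h2 := key i (x i) (y i) ((hV i _).1 (hx.1 i)) ((hV i _).1 (hy.1 i)) _ _ h1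
      refine ⟨h2, ?_⟩
      rw [h2, mul_right_inj] at h1
      exact S3_u1inj (hek i) (u1 i) (hu1 i) (mem_range.1 (hx.2 i)) (mem_range.1 (hy.2 i)) h1
    rw [Prod.mk.injEq]
    exact ⟨funext fun i => (hxi i).1, funext fun i => (hxi i).2⟩
  have hS : univ.filter (fun u => χ (u * a⁻¹) ^ (l ^ s) = χ (u * a⁻¹)) =
      (Fintype.piFinset V ×ˢ Fintype.piFinset (fun i => range (p i ^ e i))).image f := by
    ext u
    rw [mem_filter, mem_image]
    constructor
    · rintro ⟨_, hu⟩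
      obtain ⟨x, t, hx, ht, hxt⟩ := struct2 hp2 hinj hQ hek χ hχ u1 hu1 (u * a⁻¹) hu
      refine ⟨(x, t), ?_, ?_⟩
      · rw [mem_product, Fintype.mem_piFinset, Fintype.mem_piFinset]
        exact ⟨fun i => (hV i _).2 (hx i), fun i => mem_range.2 (ht i)⟩
      · rw [hf]
        funext i
        have h1 := congrFun hxt i
        simp only [Pi.mul_apply, Pi.inv_apply] at h1
        show a i * red (k i + 1) (x i) * u1 i ^ t i = u i
        rw [mul_assoc, ← h1, mul_comm (u i), mul_inv_cancel_left]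
    · rintro ⟨⟨x, t⟩, hxt, rfl⟩
      rw [mem_product, Fintype.mem_piFinset, Fintype.mem_piFinset] at hxt
      refine ⟨mem_univ _, ?_⟩
      have h1 : f (x, t) * a⁻¹ = fun i => red (k i + 1) (x i) * u1 i ^ t i := by
        rw [hf]
        funext i
        rw [Pi.mul_apply, Pi.inv_apply]
        show a i * red (k i + 1) (x i) * u1 i ^ t i * (a i)⁻¹ = _
        rw [mul_comm _ (a i)⁻¹, mul_assoc (a i), inv_mul_cancel_left]
      rw [h1]
      exact chi_in hQ hek χ u1 hu1 x (fun i => (hV i _).1 (hxt.1 i)) t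
  rw [hL, hI, ← hS]

end H2ZS
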