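import Pool.Agent.H2.ZS.Dfb

/-!
ROW Dc (decomposition of a character modulo `M = M0 * ∏ q_j^(k_j+1)`; about 170 lines).  PROOF.
`n j = q j ^ (kk j + 1)`. The ring homomorphism `Φ : ZMod M →+* ZMod M0 × ∀ j, ZMod (n j)` given by the `ZMod.castHom`s is bijective: injective, since an element `x` with all components zero has `M0 ∣ x.val`, `n j ∣ x.val`, so `M ∣ x.val` (`Nat.Coprime.mul_dvd_of_dvd_of_dvd`, `Finset.prod_dvd_of_coprime`), and both sides have
`M` elements (`Fintype.card_prod`, `Fintype.card_pi`, `ZMod.card`, `Fintype.bijective_iff_injective_and_card`) (or use `ZMod.chineseRemainder` and `ZMod.prodEquivPi`). It induces an isomorphism of the groups of units `Φu : (ZMod M)ˣ ≃* (ZMod M0)ˣ × ∀ j, (ZMod (n j))ˣ` (`Units.mapEquiv`, `MulEquiv.prodUnits`, `MulEquiv.piUnits`).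
`ψ0 x = ψ (Φu.symm (x, 1))`, `θ v = ψ (Φu.symm (1, v))`; `ψ u = ψ0 (Φu u).1 * θ (Φu u).2`. `(Φu u).1 = ZMod.unitsMap _ u`, `(Φu u).2 j = ZMod.unitsMap _ u` by definition.
`ψ0 (-1) * θ (-1) = ψ (-1)` as `Φu (-1) = (-1, -1)`.
Primitivity: let `u` be as in `PrA ψ (q j)`: `u = 1 + (M / q j) * t`. Modulo `M0` and modulo `n i`, `i ≠ j`, `u = 1` (`M0 ∣ M / q j`, `n i ∣ M / q j`, as `M / q j = M0 * q j ^ kk j * ∏_{i ≠ j} n i`); so `Φu u = (1, Pi.mulSingle j u')`, `cmp θ j u' = ψ u ≠ 1`, and `u' = 1 + q j ^ kk j * (c * t)` with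
`c = (M / q j) / q j ^ kk j`.
The formula for `cf`: if `a` is a unit modulo `M`, `a = u`, then it is a unit modulo `M0` and modulo `n j`, `(Φu u).1` has the value `a`, `(Φu u).2 j = w j` (same value `a`), and `cf_unit`. If `a` is not a unit modulo `M` but modulo all `n j`, then it is not a unit modulo `M0` (`ZMod.isUnit_iff_coprime`,
`Nat.Coprime.mul_right`, `Nat.Coprime.prod_right`), both sides are `0` (`cf_nonunit`). If it is not a unit modulo some `n j` it is not a unit modulo `M`.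
-/

set_option autoImplicit false

namespace H2ZS

open Finset H5SW H46TS H78H H78M

section

variable {J : Type} [Fintype J] [DecidableEq J] {M M0 : ℕ} [NeZero M0] [NeZero M] {n : J → ℕ}
  [∀ j, NeZero (n j)]

/-- the reduction modulo the factors -/
def Dc_Phi (h0 : M0 ∣ M) (hn : ∀ j, n j ∣ M) : ZMod M →+* ZMod M0 × ∀ j, ZMod (n j) :=
  RingHom.prod (ZMod.castHom h0 (ZMod M0)) (RingHom.pi fun j => ZMod.castHom (hn j) (ZMod (n j)))

theorem Dc_bij (h0 : M0 ∣ M) (hn : ∀ j, n j ∣ M) (hM : M = M0 * ∏ j, n j)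
    (hc0 : ∀ j, (n j).Coprime M0) (hc : ∀ i j, i ≠ j → (n i).Coprime (n j)) :
    Function.Bijective (Dc_Phi h0 hn) := by
  rw [Fintype.bijective_iff_injective_and_card]
  constructor
  · rw [injective_iff_map_eq_zero]
    intro x hx
    have hx0 : ((x.val : ℕ) : ZMod M) = x := ZMod.natCast_zmod_val x
    rw [← hx0] at hx ⊢
    rw [map_natCast] at hx
    have h1 : M0 ∣ x.val := by
      rw [← ZMod.natCast_eq_zero_iff]
      exact congrArg Prod.fst hx
    have h2 : ∀ j, n j ∣ x.val := by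
      intro j
      rw [← ZMod.natCast_eq_zero_iff]
      exact congrArg (fun y : ZMod M0 × ∀ j, ZMod (n j) => y.2 j) hx
    have key : ∀ v : ℕ, M0 ∣ v → (∀ j, n j ∣ v) → M ∣ v := by
      intro v h1 h2
      rw [hM]
      refine Nat.Coprime.mul_dvd_of_dvd_of_dvd ?_ h1 ?_
      · exact (Nat.Coprime.prod_left fun j _ => hc0 j).symm
      · have h3 : ∀ s : Finset J, ∏ j ∈ s, n j ∣ v := by
          intro s
          induction s using Finset.induction_on with
          | empty => simp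
          | insert i s hi ih =>
            rw [Finset.prod_insert hi]
            refine Nat.Coprime.mul_dvd_of_dvd_of_dvd ?_ (h2 i) ih
            refine Nat.Coprime.prod_right fun j hj => hc i j ?_
            rintro rfl
            exact hi hj
        exact h3 _
    rw [ZMod.natCast_eq_zero_iff]
    exact key _ h1 h2
  · rw [ZMod.card, Fintype.card_prod, ZMod.card, Fintype.card_pi, hM]
    congr 1
    exact Finset.prod_congr rfl fun j _ => (ZMod.card (n j)).symm

/-- the isomorphism of the groups of units -/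
noncomputable def Dc_u {h0 : M0 ∣ M} {hn : ∀ j, n j ∣ M}
    (hb : Function.Bijective (Dc_Phi h0 hn)) : (ZMod M)ˣ ≃* (ZMod M0)ˣ × ∀ j, (ZMod (n j))ˣ :=
  (Units.mapEquiv (RingEquiv.ofBijective (Dc_Phi h0 hn) hb).toMulEquiv).trans
    (MulEquiv.prodUnits.trans (MulEquiv.prodCongr (MulEquiv.refl _) MulEquiv.piUnits))

theorem Dc_u1 {h0 : M0 ∣ M} {hn : ∀ j, n j ∣ M} (hb : Function.Bijective (Dc_Phi h0 hn))
    (u : (ZMod M)ˣ) : (((Dc_u hb u).1 : (ZMod M0)ˣ) : ZMod M0) =
      ZMod.castHom h0 (ZMod M0) (u : ZMod M) := rfl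

theorem Dc_u2 {h0 : M0 ∣ M} {hn : ∀ j, n j ∣ M} (hb : Function.Bijective (Dc_Phi h0 hn))
    (u : (ZMod M)ˣ) (j : J) : (((Dc_u hb u).2 j : (ZMod (n j))ˣ) : ZMod (n j)) =
      ZMod.castHom (hn j) (ZMod (n j)) (u : ZMod M) := rfl

end

theorem exists_decM {J : Type} [Fintype J] [DecidableEq J] {q kk : J → ℕ}
    [∀ j, Fact (q j).Prime] (hinj : Function.Injective q) {M M0 : ℕ} [NeZero M0] [NeZero M]
    (hM : M = M0 * ∏ j, q j ^ (kk j + 1)) (hqM : ∀ j, (q j).Coprime M0) {Ω : Type*} [Field Ω]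
    (ψ : (ZMod M)ˣ →* Ωˣ) :
    ∃ (ψ0 : (ZMod M0)ˣ →* Ωˣ) (θ : (∀ j, (ZMod (q j ^ (kk j + 1)))ˣ) →* Ωˣ),
      ψ0 (-1) * θ (-1) = ψ (-1) ∧ (∀ j, PrA ψ (q j) → Prim (cmp θ j)) ∧ ∀ a : ℕ,
        (∀ w : ∀ j, (ZMod (q j ^ (kk j + 1)))ˣ, (∀ j, (w j : ZMod (q j ^ (kk j + 1))) =
            ((a : ℕ) : ZMod (q j ^ (kk j + 1)))) →
          cf ψ ((a : ℕ) : ZMod M) = cf ψ0 ((a : ℕ) : ZMod M0) * (((θ w)⁻¹ : Ωˣ) : Ω)) ∧
        ((∃ j, ¬ IsUnit ((a : ℕ) : ZMod (q j ^ (kk j + 1)))) → cf ψ ((a : ℕ) : ZMod M) = 0) := by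
  have hq : ∀ j, (q j).Prime := fun j => Fact.out
  have hne : ∀ j, NeZero (q j ^ (kk j + 1)) := fun j => ⟨pow_ne_zero _ (hq j).ne_zero⟩
  have h0 : M0 ∣ M := by rw [hM]; exact dvd_mul_right _ _
  have hn : ∀ j, q j ^ (kk j + 1) ∣ M := fun j => by
    rw [hM]
    exact Dvd.dvd.mul_left (Finset.dvd_prod_of_mem (fun j => q j ^ (kk j + 1)) (Finset.mem_univ j)) _
  have hc : ∀ i j, i ≠ j → (q i ^ (kk i + 1)).Coprime (q j ^ (kk j + 1)) := fun i j hij =>
    Nat.Coprime.pow _ _ ((Nat.coprime_primes (hq i) (hq j)).2 fun h => hij (hinj h))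
  have hb : Function.Bijective (Dc_Phi (n := fun j => q j ^ (kk j + 1)) h0 hn) :=
    Dc_bij h0 hn hM (fun j => Nat.Coprime.pow_left _ (hqM j)) hc
  set E := Dc_u hb with hE
  set ψ0 : (ZMod M0)ˣ →* Ωˣ := ψ.comp (E.symm.toMonoidHom.comp (MonoidHom.inl _ _)) with hψ0
  set θ : (∀ j, (ZMod (q j ^ (kk j + 1)))ˣ) →* Ωˣ :=
    ψ.comp (E.symm.toMonoidHom.comp (MonoidHom.inr _ _)) with hθ
  have hdec : ∀ u : (ZMod M)ˣ, ψ u = ψ0 (E u).1 * θ (E u).2 := by
    intro u
    have h1 : ψ0 (E u).1 = ψ (E.symm ((E u).1, 1)) := rfl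
    have h2 : θ (E u).2 = ψ (E.symm (1, (E u).2)) := rfl
    rw [h1, h2, ← map_mul, ← map_mul, Prod.mk_mul_mk, mul_one, one_mul, Prod.mk.eta,
      MulEquiv.symm_apply_apply]
  refine ⟨ψ0, θ, ?_, ?_, ?_⟩
  · rw [hdec (-1)]
    have h1 : (E (-1)).1 = -1 := by
      apply Units.ext
      rw [hE, Dc_u1, Units.val_neg, Units.val_one, map_neg, map_one, Units.val_neg, Units.val_one]
    have h2 : (E (-1)).2 = -1 := by
      funext j
      apply Units.ext
      rw [hE, Dc_u2, Units.val_neg, Units.val_one, map_neg, map_one, Pi.neg_apply, Pi.one_apply,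
        Units.val_neg, Units.val_one]
    rw [h1, h2]
  · rintro j ⟨u, ⟨t, ht⟩, hu⟩
    set R := M0 * ∏ i ∈ Finset.univ.erase j, q i ^ (kk i + 1) with hR
    have hMR : M = R * q j ^ (kk j + 1) := by
      rw [hM, hR, mul_assoc, Finset.prod_erase_mul _ _ (Finset.mem_univ j)]
    have hMq : M / q j = R * q j ^ kk j := by
      rw [hMR, pow_succ, ← mul_assoc]
      exact Nat.mul_div_cancel _ (hq j).pos
    rw [hMq] at ht
    have e1 : (E u).1 = 1 := by
      apply Units.ext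
      rw [hE, Dc_u1, ht]
      have h3 : ((R * q j ^ kk j : ℕ) : ZMod M0) = 0 := by
        rw [ZMod.natCast_eq_zero_iff, hR, mul_assoc]
        exact dvd_mul_right _ _
      rw [map_add, map_mul, map_one, map_natCast, h3, zero_mul, add_zero, Units.val_one]
    have e2 : ∀ i, i ≠ j → (E u).2 i = 1 := by
      intro i hi
      apply Units.ext
      rw [hE, Dc_u2, ht]
      have h3 : ((R * q j ^ kk j : ℕ) : ZMod (q i ^ (kk i + 1))) = 0 := by
        rw [ZMod.natCast_eq_zero_iff, hR]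
        refine Dvd.dvd.mul_right (Dvd.dvd.mul_left ?_ _) _
        exact Finset.dvd_prod_of_mem (fun i => q i ^ (kk i + 1))
          (Finset.mem_erase.2 ⟨hi, Finset.mem_univ i⟩)
      rw [map_add, map_mul, map_one, map_natCast, h3, zero_mul, add_zero, Units.val_one]
    have e3 : (E u).2 = Pi.mulSingle j ((E u).2 j) := by
      funext i
      by_cases hi : i = j
      · subst hi
        rw [Pi.mulSingle_eq_same]
      · rw [e2 i hi, Pi.mulSingle_eq_of_ne hi]
    refine ⟨(E u).2 j, ⟨R * t, ?_⟩, ?_⟩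
    · rw [hE, Dc_u2, ht]
      rw [map_add, map_mul, map_one, map_natCast, map_natCast]
      push_cast
      ring
    · have h4 : ψ u = cmp θ j ((E u).2 j) := by
        rw [hdec u, e1, map_one, one_mul]
        conv_lhs => rw [e3]
        rfl
      rw [← h4]
      exact hu
  · intro a
    have hcast : Dc_Phi (n := fun j => q j ^ (kk j + 1)) h0 hn ((a : ℕ) : ZMod M) =
        (((a : ℕ) : ZMod M0), fun j => ((a : ℕ) : ZMod (q j ^ (kk j + 1)))) := by
      rw [map_natCast]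
      rfl
    constructor
    · intro w hw
      by_cases h : IsUnit ((a : ℕ) : ZMod M)
      · obtain ⟨u, hu⟩ := h
        have e1 : (((E u).1 : (ZMod M0)ˣ) : ZMod M0) = ((a : ℕ) : ZMod M0) := by
          rw [hE, Dc_u1, hu, map_natCast]
        have e2 : (E u).2 = w := by
          funext j
          apply Units.ext
          rw [hE, Dc_u2, hu, map_natCast, hw j]
        rw [← hu, cf_unit, ← e1, cf_unit, hdec u, e2, mul_inv, Units.val_mul]
      · have h2 : ¬ IsUnit ((a : ℕ) : ZMod M0) := by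
          intro h3
          apply h
          have h4 : IsUnit (Dc_Phi (n := fun j => q j ^ (kk j + 1)) h0 hn ((a : ℕ) : ZMod M)) := by
            rw [hcast, Prod.isUnit_iff]
            refine ⟨h3, ?_⟩
            rw [Pi.isUnit_iff]
            intro j
            show IsUnit ((a : ℕ) : ZMod (q j ^ (kk j + 1)))
            rw [← hw j]
            exact (w j).isUnit
          have h5 := h4.map (RingEquiv.ofBijective _ hb).symm
          have h6 : (RingEquiv.ofBijective _ hb).symm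
              (Dc_Phi (n := fun j => q j ^ (kk j + 1)) h0 hn ((a : ℕ) : ZMod M)) =
              ((a : ℕ) : ZMod M) := (RingEquiv.ofBijective _ hb).symm_apply_apply _
          rwa [h6] at h5
        rw [cf_nonunit ψ h, cf_nonunit ψ0 h2, zero_mul]
    · rintro ⟨j, hj⟩
      apply cf_nonunit
      intro h
      apply hj
      have h1 := h.map (ZMod.castHom (hn j) (ZMod (q j ^ (kk j + 1))))
      rwa [map_natCast] at h1

end H2ZS
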