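import Pool.Agent.H78.MH.Sn

/-!
Sinnott's non vanishing theorem for several primes at once (helper2; definitions, no row).
-/

set_option autoImplicit false

namespace H2ZS

open Finset H5SW H46TS H78H

/-- the product of the `z_i ^ u_i` -/
def EV {I : Type} [Fintype I] {n : I → ℕ} {Ω : Type*} [Field Ω] (z : I → Ω) (u : ∀ i, ZMod (n i)) :
    Ω :=
  ∏ i, z i ^ (u i).val

/-- the component of a character of a product -/
def cmp {I : Type} [DecidableEq I] {n : I → ℕ} {Ω : Type*} [Field Ω]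
    (χ : (∀ i, (ZMod (n i))ˣ) →* Ωˣ) (i : I) : (ZMod (n i))ˣ →* Ωˣ :=
  χ.comp (MonoidHom.mulSingle (fun i => (ZMod (n i))ˣ) i)

/-- the reductions of a family of units -/
noncomputable def redM {I : Type} {p : I → ℕ} [∀ i, Fact (p i).Prime] (k : I → ℕ)
    (x : ∀ i, ℤ_[p i]ˣ) : ∀ i, (ZMod (p i ^ (k i + 1)))ˣ :=
  fun i => red (k i + 1) (x i)

/-- the reduction of a family of `p_i`-adic integers -/
noncomputable def rdM {I : Type} {p : I → ℕ} [∀ i, Fact (p i).Prime] (k : I → ℕ)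
    (x : ∀ i, ℤ_[p i]) : ∀ i, ZMod (p i ^ (k i + 1)) :=
  fun i => PadicInt.toZModPow (k i + 1) (x i)

end H2ZS
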