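import Pool.Agent.H2.ZS.Df
import Pool.Agent.H78.MG.Df

/-!
Sinnott's non vanishing theorem for several primes at once (helper2; more definitions, no row).
-/

set_option autoImplicit false

namespace H2ZS

open Finset H5SW H46TS H78H H78M

/-- joint non vanishing for the primes `p i` from level `K` on, period `M` -/
def JTP (l M s0 K : ℕ) {I : Type} [Fintype I] [DecidableEq I] (p : I → ℕ)
    [∀ i, Fact (p i).Prime] : Prop :=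
  ∀ k : I → ℕ, (∀ i, K ≤ k i) → ∀ (Ω : Type) [Field Ω] [CharP Ω l] (z : I → Ω),
    (∀ i, IsPrimitiveRoot (z i) (p i ^ (k i + 1))) → ∀ ε : Ωˣ, Sgn ε → ∀ c : ZMod M → Ω,
    Goode l s0 ε c → ∀ χ : (∀ i, (ZMod (p i ^ (k i + 1)))ˣ) →* Ωˣ, χ (-1) = ε →
    (∀ i, Prim (cmp χ i)) →
    ∑ u : ∀ i, (ZMod (p i ^ (k i + 1)))ˣ,
      (χ u : Ω) * Fc c (EV z fun i => (u i : ZMod (p i ^ (k i + 1)))) ≠ 0

/-- non vanishing from level `k0` on, for all characters modulo `M` -/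
def NVU (l p M k0 : ℕ) [Fact p.Prime] : Prop :=
  ∀ k ≥ k0, ∀ (Ω : Type) [Field Ω] [CharP Ω l] (z : Ω), IsPrimitiveRoot z (p ^ (k + 1)) →
    ∀ ε : Ωˣ, Sgn ε → ∀ ψ : (ZMod M)ˣ →* Ωˣ, ψ (-1) = -ε →
      ∀ χ : (ZMod (p ^ (k + 1)))ˣ →* Ωˣ, χ (-1) = ε → Prim χ → Tc (cf ψ) χ z ≠ 0

/-- `ψ` is not trivial on the units which are `1` modulo `M / r` -/
def PrA {M : ℕ} {Ω : Type*} [Field Ω] (ψ : (ZMod M)ˣ →* Ωˣ) (r : ℕ) : Prop :=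
  ∃ u : (ZMod M)ˣ, (∃ t : ℕ, (u : ZMod M) = 1 + ((M / r : ℕ) : ZMod M) * t) ∧ ψ u ≠ 1

end H2ZS
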