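import Pool.Agent.H2.ZS.Dfb

/-!
ROW Sp (separating one prime; about 90 lines).  PROOF.
`I = Option J`, `pO o = o.elim p q`, `kO o = o.elim k kk`, `zO : Option J → Ω`, `zO o = o.elim z zz`; `H kO _ Ω zO _ ε hε c hc X _ _` with the character `X w = χ (w none) * θ (fun j => w (some j))` of `∀ o, (ZMod (pO o ^ (kO o + 1)))ˣ` (the types at `none` and `some j` reduce definitionally;
`MonoidHom.mk'` or the product of `χ.comp (Pi.evalMonoidHom _ none)` and `θ.comp (MonoidHom.pi ..)`). `X (-1) = χ (-1) * θ (-1) = ε`. `cmp X none = χ` and `cmp X (some j) = cmp θ j` (`Pi.mulSingle` at `none`, `some j`; `ext`). The sum: `Equiv.piOptionEquivProd`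
(`Fintype.sum_equiv`, `Fintype.sum_prod_type`), and `EV zO w = z ^ (w none).val * EV zz (fun j => w (some j))` by `Fintype.prod_option`.
-/

set_option autoImplicit false

namespace H2ZS

open Finset H5SW H46TS H78H

/-- a family of primes and one more prime -/
def pO {J : Type} (p : ℕ) (q : J → ℕ) (o : Option J) : ℕ := o.elim p q

instance pO_fact {J : Type} (p : ℕ) (q : J → ℕ) [hp : Fact p.Prime] [hq : ∀ j, Fact (q j).Prime]
    (o : Option J) : Fact (pO p q o).Prime := by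
  cases o with
  | none => exact hp
  | some j => exact hq j

theorem split_opt {l M s0 K p : ℕ} {J : Type} [Fintype J] [DecidableEq J] {q : J → ℕ}
    [Fact p.Prime] [∀ j, Fact (q j).Prime] (H : JTP l M s0 K (pO p q)) {k : ℕ} {kk : J → ℕ}
    (hk : K ≤ k) (hkk : ∀ j, K ≤ kk j) {Ω : Type} [Field Ω] [CharP Ω l] {z : Ω} {zz : J → Ω}
    (hz : IsPrimitiveRoot z (p ^ (k + 1))) (hzz : ∀ j, IsPrimitiveRoot (zz j) (q j ^ (kk j + 1)))
    {ε : Ωˣ} (hε : Sgn ε) {c : ZMod M → Ω} (hc : Goode l s0 ε c)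
    (χ : (ZMod (p ^ (k + 1)))ˣ →* Ωˣ) (θ : (∀ j, (ZMod (q j ^ (kk j + 1)))ˣ) →* Ωˣ)
    (h1 : χ (-1) * θ (-1) = ε) (hχ : Prim χ) (hθ : ∀ j, Prim (cmp θ j)) :
    ∑ u : (ZMod (p ^ (k + 1)))ˣ, ∑ v : ∀ j, (ZMod (q j ^ (kk j + 1)))ˣ,
      (χ u : Ω) * (θ v : Ω) * Fc c (z ^ (u : ZMod (p ^ (k + 1))).val *
        EV zz fun j => (v j : ZMod (q j ^ (kk j + 1)))) ≠ 0 := by
  let kO : Option J → ℕ := fun o => o.elim k kk
  let zO : Option J → Ω := fun o => o.elim z zz
  let X : (∀ o : Option J, (ZMod (pO p q o ^ (kO o + 1)))ˣ) →* Ωˣ :=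
    { toFun := fun w => χ (w none) * θ (fun j => w (some j))
      map_one' := by
        show χ 1 * θ 1 = 1
        rw [map_one, map_one, one_mul]
      map_mul' := fun a b => by
        have e1 : ∀ a0 b0 : (ZMod (p ^ (k + 1)))ˣ, χ (a0 * b0) = χ a0 * χ b0 :=
          fun a0 b0 => map_mul χ a0 b0
        have e2 : ∀ a1 b1 : (∀ j, (ZMod (q j ^ (kk j + 1)))ˣ), θ (a1 * b1) = θ a1 * θ b1 :=
          fun a1 b1 => map_mul θ a1 b1
        have e3 : ∀ (a0 b0 : (ZMod (p ^ (k + 1)))ˣ) (a1 b1 : ∀ j, (ZMod (q j ^ (kk j + 1)))ˣ),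
            χ (a0 * b0) * θ (a1 * b1) = (χ a0 * θ a1) * (χ b0 * θ b1) := by
          intro a0 b0 a1 b1
          rw [e1, e2]
          exact mul_mul_mul_comm _ _ _ _
        exact e3 (a none) (b none) (fun j => a (some j)) (fun j => b (some j)) }
  have hX : ∀ w, X w = χ (w none) * θ (fun j => w (some j)) := fun w => rfl
  have hK : ∀ o, K ≤ kO o := by
    intro o
    cases o with
    | none => exact hk
    | some j => exact hkk j
  have hzO : ∀ o, IsPrimitiveRoot (zO o) (pO p q o ^ (kO o + 1)) := by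
    intro o
    cases o with
    | none => exact hz
    | some j => exact hzz j
  have hX1 : X (-1) = ε := by
    rw [hX]
    exact h1
  have hcmp : ∀ o, Prim (cmp X o) := by
    intro o
    cases o with
    | none =>
      have e : (cmp X none : (ZMod (p ^ (k + 1)))ˣ →* Ωˣ) = χ := by
        ext u
        show ((X (Pi.mulSingle none u) : Ωˣ) : Ω) = _
        rw [hX, Pi.mulSingle_eq_same]
        have e2 : (fun j => (Pi.mulSingle (M := fun o : Option J => (ZMod (pO p q o ^ (kO o + 1)))ˣ)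
            none u (some j) : (ZMod (q j ^ (kk j + 1)))ˣ)) = 1 := by
          funext j
          exact Pi.mulSingle_eq_of_ne (Option.some_ne_none j) u
        have e3 : ∀ (u0 : (ZMod (p ^ (k + 1)))ˣ), ((χ u0 * θ 1 : Ωˣ) : Ω) = (χ u0 : Ω) := by
          intro u0
          rw [map_one, mul_one]
        rw [e2]
        exact e3 u
      exact (congrArg Prim e).mpr hχ
    | some j =>
      have e : (cmp X (some j) : (ZMod (q j ^ (kk j + 1)))ˣ →* Ωˣ) = cmp θ j := by
        ext u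
        show ((X (Pi.mulSingle (some j) u) : Ωˣ) : Ω) = ((θ (Pi.mulSingle j u) : Ωˣ) : Ω)
        rw [hX]
        have e1 : (Pi.mulSingle (M := fun o : Option J => (ZMod (pO p q o ^ (kO o + 1)))ˣ)
            (some j) u none : (ZMod (p ^ (k + 1)))ˣ) = 1 :=
          Pi.mulSingle_eq_of_ne (Option.some_ne_none j).symm u
        have e2 : (fun i => (Pi.mulSingle (M := fun o : Option J => (ZMod (pO p q o ^ (kO o + 1)))ˣ)
            (some j) u (some i) : (ZMod (q i ^ (kk i + 1)))ˣ)) = Pi.mulSingle j u := by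
          funext i
          by_cases hij : i = j
          · subst hij
            rw [Pi.mulSingle_eq_same]
            exact (Pi.mulSingle_eq_same (M := fun j => (ZMod (q j ^ (kk j + 1)))ˣ) i u).symm
          · rw [Pi.mulSingle_eq_of_ne hij]
            exact Pi.mulSingle_eq_of_ne (M := fun o : Option J => (ZMod (pO p q o ^ (kO o + 1)))ˣ)
              (fun h => hij (Option.some.inj h)) u
        have e3 : ∀ (v0 : ∀ j, (ZMod (q j ^ (kk j + 1)))ˣ), ((χ 1 * θ v0 : Ωˣ) : Ω) = (θ v0 : Ω) := by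
          intro v0
          rw [map_one, one_mul]
        rw [e1, e2]
        exact e3 _
      exact (congrArg Prim e).mpr (hθ j)
  have hmain := H kO hK Ω zO hzO ε hε c hc X hX1 hcmp
  have hsum : ∑ u : (ZMod (p ^ (k + 1)))ˣ, ∑ v : ∀ j, (ZMod (q j ^ (kk j + 1)))ˣ,
      (χ u : Ω) * (θ v : Ω) * Fc c (z ^ (u : ZMod (p ^ (k + 1))).val *
        EV zz fun j => (v j : ZMod (q j ^ (kk j + 1)))) =
      ∑ u : ∀ o : Option J, (ZMod (pO p q o ^ (kO o + 1)))ˣ,
        (X u : Ω) * Fc c (EV zO fun o => (u o : ZMod (pO p q o ^ (kO o + 1)))) := by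
    rw [← Fintype.sum_prod_type' (f := fun (u : (ZMod (p ^ (k + 1)))ˣ)
      (v : ∀ j, (ZMod (q j ^ (kk j + 1)))ˣ) => (χ u : Ω) * (θ v : Ω) *
        Fc c (z ^ (u : ZMod (p ^ (k + 1))).val * EV zz fun j => (v j : ZMod (q j ^ (kk j + 1)))))]
    refine (Fintype.sum_equiv (Equiv.piOptionEquivProd
      (β := fun o : Option J => (ZMod (pO p q o ^ (kO o + 1)))ˣ)) _ _ ?_).symm
    intro w
    let w0 : (ZMod (p ^ (k + 1)))ˣ := w none
    let w1 : ∀ j, (ZMod (q j ^ (kk j + 1)))ˣ := fun j => w (some j)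
    have e3 : EV zO (fun o => (w o : ZMod (pO p q o ^ (kO o + 1)))) =
        z ^ (w0 : ZMod (p ^ (k + 1))).val *
          EV zz fun j => (w1 j : ZMod (q j ^ (kk j + 1))) := by
      unfold EV
      rw [Fintype.prod_option]
      rfl
    rw [e3, hX, Units.val_mul]
    rfl
  rw [hsum]
  exact hmain

end H2ZS
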