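import Pool.Agent.H2.ZS.Gs
import Pool.Agent.H2.ZS.Dc
import Pool.Agent.H2.ZS.Sp
import Pool.Agent.H46.TS.TG
import Pool.Agent.H78.MH.Mg

/-!
ROW Dp (non vanishing when all the levels are high; about 150 lines).  PROOF.  `n j = q j ^ (kk j + 1)`, `R = ∏ j, n j`.
Roots of unity `zz j` of order `n j`: `Ω` need not contain them, so first replace `Ω` by an algebraic closure: it is enough to prove `Tc (cf ψ) χ z ≠ 0` after the embedding `i : Ω →+* AlgebraicClosure Ω` (all the data can be mapped: `ψ' = (Units.map i).comp ψ`, `χ'` the same; `i (Tc (cf ψ) χ z) = Tc (cf ψ') χ' (i z)`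
by `map_sum`, `map_div₀`, ..: `cf ψ' a = i (cf ψ a)`; `Prim χ'`, `PrA ψ' r` by injectivity; `CharP (AlgebraicClosure Ω) l`; `Sgn`). This is `Tc_map`.
Let `Ω` be algebraically closed; `HasEnoughRootsOfUnity.exists_primitiveRoot Ω (n j)` needs `NeZero ((n j : ℕ) : Ω)` (`H46TS.cast_ne (hlq j)`), see `exists_St_ne` in `Pool/Agent/H78/MH/Mg.lean`. `exists_decM` (row Dc) gives `ψ0`, `θ`; `Prim (cmp θ j)`. `g = ∑_v θ(v) EV zz v ≠ 0` (`gs_ne`).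
(1) for every natural number `a`: `g * cf ψ a = cf ψ0 a * ∑_v θ(v) (EV zz v)^a` (`gs_unit`, `gs_zero` and the two cases of `exists_decM`).
(2) for `x` with `x^M ≠ 1`: `g * Fc (cf ψ) x = ∑_v θ(v) * Fc (cf ψ0) (x * EV zz v)`: `Fc (cf ψ) x = (∑_{a<M} cf ψ a x^a) / (1 - x^M)` by definition and `Fc (cf ψ0) (x * EV zz v) = (∑_{a<R*M0} cf ψ0 a (x EV zz v)^a) / (1 - (x EV zz v)^(R * M0))` by `Fc_big` (with `P = R`), `(EV zz v)^R = 1` (`EV_nat`, `R = 0` in `ZMod (n j)`),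
`M = R * M0`; and (1).
(3) `x = z ^ u.val`, `x^M ≠ 1` as `M` is prime to `p` (`H46TS.zpow_ne` in `Pool/Agent/H46/TS/TY.lean`, or its proof). `2 * Tc (cf ψ) χ z = ∑_{all units u} χ(u) Fc (cf ψ) (z^u.val)`: `H46TS.half_full` (TY.lean; or `H5SW.T2_half`), the symmetry `u ↦ -u` by `χ (-u) = ε χ u` and `Fc_inve` with the parity of `cf ψ`
(`H78H.good` gives `par`, `zero`), exactly as at the end of `fourier` in `Pool/Agent/H78/MH/Mg.lean`.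
(4) So `g * 2 * Tc (cf ψ) χ z = ∑_u ∑_v χ(u) θ(v) Fc (cf ψ0) (z^u.val * EV zz v)`, which is not zero by `split_opt` (row Sp) with `c = cf ψ0`: `ψ0 (-1) = - ε * θ(-1)⁻¹ = -(ε * θ (-1))`; `ε0 = χ(-1) * θ(-1) = ε θ(-1)` is a sign (`θ(-1)^2 = 1`), `ψ0 (-1) = - ε0`, so `H78H.good hM01 hε0 _ (hs0 Ω ψ0) : Goode l s0 ε0 (cf ψ0)`.
-/

set_option autoImplicit false

namespace H2ZS

open Finset H5SW H46TS H78H H78M

private theorem dp_sgn {Ω : Type*} [Field Ω] {ε : Ωˣ} (h : ε * ε = 1) : Sgn ε := by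
  have h5 : ((ε : Ω) - 1) * ((ε : Ω) + 1) = 0 := by
    have h6 := congrArg (fun u : Ωˣ => (u : Ω)) h
    simp only [Units.val_mul, Units.val_one] at h6
    linear_combination h6
  rcases mul_eq_zero.1 h5 with h6 | h6
  · left
    exact Units.ext (by rw [Units.val_one]; exact sub_eq_zero.1 h6)
  · right
    exact Units.ext (by rw [Units.val_neg, Units.val_one]; exact eq_neg_of_add_eq_zero_left h6)

private theorem dp_cf {M : ℕ} {Ω Ω' : Type*} [Field Ω] [Field Ω'] (i : Ω →+* Ω')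
    (ψ : (ZMod M)ˣ →* Ωˣ) (a : ZMod M) :
    cf ((Units.map (i : Ω →* Ω')).comp ψ) a = i (cf ψ a) := by
  by_cases h : IsUnit a
  · obtain ⟨u, rfl⟩ := h
    rw [cf_unit, cf_unit, MonoidHom.comp_apply, ← map_inv, Units.coe_map]
    rfl
  · rw [cf_nonunit _ h, cf_nonunit _ h, map_zero]

private theorem dp_map {f M : ℕ} [NeZero f] {Ω Ω' : Type*} [Field Ω] [Field Ω'] (i : Ω →+* Ω')
    (ψ : (ZMod M)ˣ →* Ωˣ) (χ : (ZMod f)ˣ →* Ωˣ) (z : Ω) :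
    H46TS.Tc (cf ((Units.map (i : Ω →* Ω')).comp ψ)) ((Units.map (i : Ω →* Ω')).comp χ) (i z) =
      i (H46TS.Tc (cf ψ) χ z) := by
  unfold H46TS.Tc Fc
  simp only [map_sum, map_mul, map_div₀, map_sub, map_one, map_pow, dp_cf]
  refine sum_congr rfl fun u _ => ?_
  rw [MonoidHom.comp_apply, Units.coe_map]
  rfl

private theorem dp_par {M : ℕ} [NeZero M] (hM : 1 < M) {Ω : Type*} [Field Ω] {ε : Ωˣ}
    (hε : Sgn ε) {ψ : (ZMod M)ˣ →* Ωˣ} (hψ : ψ (-1) = -ε) :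
    (∀ a, cf ψ (-a) = - (ε : Ω) * cf ψ a) ∧ cf ψ 0 = 0 := by
  have hinv : ε⁻¹ = ε := by
    rw [inv_eq_iff_mul_eq_one]
    exact Units.ext (by rw [Units.val_mul, Units.val_one]; exact hε.sq)
  have hneg : ∀ t : (ZMod M)ˣ, ψ (-t) = - (ε * ψ t) := by
    intro t
    rw [show -t = (-1) * t by rw [neg_one_mul], map_mul, hψ, neg_mul]
  refine ⟨?_, ?_⟩
  · intro a
    by_cases ha : IsUnit a
    · obtain ⟨u, rfl⟩ := ha
      rw [← Units.val_neg, cf_unit, cf_unit, hneg, inv_neg, Units.val_neg, mul_inv, hinv,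
        Units.val_mul, neg_mul]
    · rw [cf_nonunit ψ ha, cf_nonunit ψ (by rwa [IsUnit.neg_iff]), mul_zero]
  · apply cf_nonunit
    intro h0
    have h1 : (0 : ZMod M) = 1 := isUnit_zero_iff.1 h0
    have : Fact (1 < M) := ⟨hM⟩
    exact zero_ne_one h1

private theorem dp_zpow {p n M : ℕ} [Fact p.Prime] (hpM : p.Coprime M) {Ω : Type*} [Field Ω]
    {z : Ω} (hz : IsPrimitiveRoot z (p ^ (n + 1))) (u : (ZMod (p ^ (n + 1)))ˣ) :
    (z ^ (u : ZMod (p ^ (n + 1))).val) ^ M ≠ 1 := by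
  intro h
  rw [← pow_mul, hz.pow_eq_one_iff_dvd] at h
  have h1 : Nat.Coprime (p ^ (n + 1)) ((u : ZMod (p ^ (n + 1))).val * M) :=
    Nat.Coprime.mul_right (ZMod.val_coe_unit_coprime u).symm (Nat.Coprime.pow_left _ hpM)
  have h2 := h1.eq_one_of_dvd h
  exact (Nat.one_lt_pow (Nat.succ_ne_zero n) (Fact.out : p.Prime).one_lt).ne' h2

private theorem dp_one {J : Type} [Fintype J] [DecidableEq J] {q kk : J → ℕ}
    [∀ j, Fact (q j).Prime] {M M0 : ℕ} {Ω : Type*} [Field Ω] {zz : J → Ω}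
    (hzz : ∀ j, (zz j) ^ (q j ^ (kk j + 1)) = 1) {ψ : (ZMod M)ˣ →* Ωˣ} {ψ0 : (ZMod M0)ˣ →* Ωˣ}
    {θ : (∀ j, (ZMod (q j ^ (kk j + 1)))ˣ) →* Ωˣ} (hθ : ∀ j, Prim (cmp θ j))
    (hd : ∀ a : ℕ,
        (∀ w : ∀ j, (ZMod (q j ^ (kk j + 1)))ˣ, (∀ j, (w j : ZMod (q j ^ (kk j + 1))) =
            ((a : ℕ) : ZMod (q j ^ (kk j + 1)))) →
          cf ψ ((a : ℕ) : ZMod M) = cf ψ0 ((a : ℕ) : ZMod M0) * (((θ w)⁻¹ : Ωˣ) : Ω)) ∧
        ((∃ j, ¬ IsUnit ((a : ℕ) : ZMod (q j ^ (kk j + 1)))) → cf ψ ((a : ℕ) : ZMod M) = 0))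
    (a : ℕ) :
    (∑ v : ∀ j, (ZMod (q j ^ (kk j + 1)))ˣ,
        (θ v : Ω) * (EV zz fun j => (v j : ZMod (q j ^ (kk j + 1))))) * cf ψ (a : ZMod M) =
      cf ψ0 (a : ZMod M0) * ∑ v : ∀ j, (ZMod (q j ^ (kk j + 1)))ˣ,
        (θ v : Ω) * (EV zz fun j => (v j : ZMod (q j ^ (kk j + 1)))) ^ a := by
  by_cases h : ∃ j, ¬ IsUnit ((a : ℕ) : ZMod (q j ^ (kk j + 1)))
  · rw [(hd a).2 h, gs_zero hzz θ hθ a h, mul_zero, mul_zero]
  · push Not at h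
    rw [(hd a).1 (fun j => (h j).unit) (fun j => (h j).unit_spec),
      gs_unit hzz θ a (fun j => (h j).unit) (fun j => (h j).unit_spec)]
    ring

private theorem dp_two {J : Type} [Fintype J] [DecidableEq J] {q kk : J → ℕ}
    [∀ j, Fact (q j).Prime] {M M0 : ℕ} [NeZero M0] (hM : M = M0 * ∏ j, q j ^ (kk j + 1))
    {Ω : Type*} [Field Ω] {zz : J → Ω}
    (hzz : ∀ j, (zz j) ^ (q j ^ (kk j + 1)) = 1) {ψ : (ZMod M)ˣ →* Ωˣ} {ψ0 : (ZMod M0)ˣ →* Ωˣ}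
    {θ : (∀ j, (ZMod (q j ^ (kk j + 1)))ˣ) →* Ωˣ} (hθ : ∀ j, Prim (cmp θ j))
    (hd : ∀ a : ℕ,
        (∀ w : ∀ j, (ZMod (q j ^ (kk j + 1)))ˣ, (∀ j, (w j : ZMod (q j ^ (kk j + 1))) =
            ((a : ℕ) : ZMod (q j ^ (kk j + 1)))) →
          cf ψ ((a : ℕ) : ZMod M) = cf ψ0 ((a : ℕ) : ZMod M0) * (((θ w)⁻¹ : Ωˣ) : Ω)) ∧
        ((∃ j, ¬ IsUnit ((a : ℕ) : ZMod (q j ^ (kk j + 1)))) → cf ψ ((a : ℕ) : ZMod M) = 0))
    {x : Ω} (hx : x ^ M ≠ 1) :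
    (∑ v : ∀ j, (ZMod (q j ^ (kk j + 1)))ˣ,
        (θ v : Ω) * (EV zz fun j => (v j : ZMod (q j ^ (kk j + 1))))) * Fc (cf ψ) x =
      ∑ v : ∀ j, (ZMod (q j ^ (kk j + 1)))ˣ,
        (θ v : Ω) * Fc (cf ψ0) (x * EV zz fun j => (v j : ZMod (q j ^ (kk j + 1)))) := by
  have hMR : (∏ j, q j ^ (kk j + 1)) * M0 = M := by rw [hM, mul_comm]
  have hR : ∀ v : ∀ j, ZMod (q j ^ (kk j + 1)), (EV zz v) ^ (∏ j, q j ^ (kk j + 1)) = 1 := by
    intro v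
    rw [← EV_nat hzz]
    have h1 : (fun j => ((∏ j, q j ^ (kk j + 1) : ℕ) : ZMod (q j ^ (kk j + 1))) * v j) = 0 := by
      funext j
      have h2 : ((∏ j, q j ^ (kk j + 1) : ℕ) : ZMod (q j ^ (kk j + 1))) = 0 :=
        (ZMod.natCast_eq_zero_iff _ _).2 (Finset.dvd_prod_of_mem _ (mem_univ j))
      rw [h2, zero_mul]
      rfl
    rw [h1]
    exact Ea_zero
  have hF : ∀ v : ∀ j, ZMod (q j ^ (kk j + 1)), Fc (cf ψ0) (x * EV zz v) =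
      (∑ n ∈ range M, cf ψ0 (n : ZMod M0) * (x * EV zz v) ^ n) / (1 - x ^ M) := by
    intro v
    have h1 : (x * EV zz v) ^ ((∏ j, q j ^ (kk j + 1)) * M0) = x ^ M := by
      rw [mul_pow, hMR, ← hMR, pow_mul (EV zz v), hR, one_pow, mul_one]
    rw [Fc_big (cf ψ0) (P := ∏ j, q j ^ (kk j + 1)) (by rw [h1]; exact hx), h1, hMR]
  have hF' : ∀ v : ∀ j, (ZMod (q j ^ (kk j + 1)))ˣ,
      (θ v : Ω) * Fc (cf ψ0) (x * EV zz fun j => (v j : ZMod (q j ^ (kk j + 1)))) =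
      (∑ n ∈ range M, (θ v : Ω) * (cf ψ0 (n : ZMod M0) *
        (x * EV zz fun j => (v j : ZMod (q j ^ (kk j + 1)))) ^ n)) / (1 - x ^ M) := by
    intro v
    rw [hF, mul_div_assoc', mul_sum]
  rw [sum_congr rfl fun v _ => hF' v, ← sum_div, sum_comm]
  unfold Fc
  rw [mul_div_assoc', mul_sum]
  congr 1
  refine sum_congr rfl fun n _ => ?_
  rw [← mul_assoc, dp_one hzz hθ hd n, mul_assoc, sum_mul, mul_sum]
  refine sum_congr rfl fun v _ => ?_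
  rw [mul_pow]
  ring

private theorem dp_three {f : ℕ} [NeZero f] (hf : Odd f) (h1 : 1 < f) {Ω : Type*} [Field Ω]
    {M : ℕ} [NeZero M] {ε : Ωˣ} (hε : Sgn ε) {c : ZMod M → Ω}
    (hc : ∀ a, c (-a) = - (ε : Ω) * c a) (h0 : c 0 = 0) (χ : (ZMod f)ˣ →* Ωˣ)
    (hev : χ (-1) = ε) {z : Ω} (hz : z ^ f = 1) :
    ∑ u : (ZMod f)ˣ, (χ u : Ω) * Fc c (z ^ (u : ZMod f).val) = 2 * H46TS.Tc c χ z := by
  rw [← T2_half hf h1]
  unfold H46TS.Tc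
  rw [mul_sum]
  refine sum_congr rfl fun u _ => ?_
  have e1 : χ (-u) = ε * χ u := by rw [← neg_one_mul, map_mul, hev]
  have e2 := H78H.Z_neg (F := Fc c) hz (fun x hx => Fc_inve hc h0 hx) (u : ZMod f)
  rw [e1, Units.val_neg, e2, Units.val_mul]
  linear_combination ((χ u : Ω) * Fc c (z ^ (u : ZMod f).val)) * hε.sq

private theorem dp_main {l p M M0 s0 K : ℕ} [Fact l.Prime] [Fact p.Prime] (hp2 : p ≠ 2)
    {J : Type} [Fintype J] [DecidableEq J] {q kk : J → ℕ} [∀ j, Fact (q j).Prime]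
    (hlq : ∀ j, l ≠ q j) (hinj : Function.Injective q) [NeZero M0] [NeZero M]
    (hM : M = M0 * ∏ j, q j ^ (kk j + 1)) (hqM : ∀ j, (q j).Coprime M0) (hpM : p.Coprime M)
    (hM01 : 1 < M0) (hs0 : ∀ (Ω : Type) [Field Ω] [CharP Ω l] (ψ : (ZMod M0)ˣ →* Ωˣ)
      (t : (ZMod M0)ˣ), (ψ t : Ω) ^ (l ^ s0) = ψ t)
    (H : JTP l M0 s0 K (pO p q)) {k : ℕ} (hk : K ≤ k) (hkk : ∀ j, K ≤ kk j) {Ω : Type} [Field Ω]
    [IsAlgClosed Ω]
    [CharP Ω l] {z : Ω} (hz : IsPrimitiveRoot z (p ^ (k + 1))) {ε : Ωˣ} (hε : Sgn ε)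
    (ψ : (ZMod M)ˣ →* Ωˣ) (hψ : ψ (-1) = -ε) (hprim : ∀ j, PrA ψ (q j))
    (χ : (ZMod (p ^ (k + 1)))ˣ →* Ωˣ) (hχ : χ (-1) = ε) (hχp : Prim χ) :
    H46TS.Tc (cf ψ) χ z ≠ 0 := by
  have hpp : p.Prime := Fact.out
  have hex : ∀ j, ∃ w : Ω, IsPrimitiveRoot w (q j ^ (kk j + 1)) := by
    intro j
    have : NeZero ((q j ^ (kk j + 1) : ℕ) : Ω) := ⟨H46TS.cast_ne (hlq j) (kk j + 1) Ω⟩
    exact HasEnoughRootsOfUnity.exists_primitiveRoot Ω (q j ^ (kk j + 1))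
  choose zz hzz using hex
  obtain ⟨ψ0, θ, h1, h2, hd⟩ := exists_decM hinj hM hqM ψ
  have hθ : ∀ j, Prim (cmp θ j) := fun j => h2 j (hprim j)
  have hzz1 : ∀ j, zz j ^ (q j ^ (kk j + 1)) = 1 := fun j => (hzz j).pow_eq_one
  have hsq : θ (-1) * θ (-1) = 1 := by rw [← map_mul, neg_one_mul, neg_neg, map_one]
  have hεε : ε * ε = 1 := Units.ext (by rw [Units.val_mul, Units.val_one]; exact hε.sq)
  have hε0 : Sgn (ε * θ (-1)) := dp_sgn (by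
    rw [mul_mul_mul_comm, hεε, hsq, mul_one])
  have hψ0 : ψ0 (-1) = -(ε * θ (-1)) := by
    have h3 : ψ0 (-1) = ψ0 (-1) * θ (-1) * θ (-1) := by rw [mul_assoc, hsq, mul_one]
    rw [h3, h1, hψ, neg_mul]
  have hc0 : Goode l s0 (ε * θ (-1)) (cf ψ0) := H78H.good hM01 hε0 hψ0 (hs0 Ω ψ0)
  have hM1 : 1 < M := by
    have h3 : M0 ≤ M := by
      refine Nat.le_of_dvd (Nat.pos_of_ne_zero (NeZero.ne M)) ?_
      rw [hM]
      exact dvd_mul_right _ _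
    exact lt_of_lt_of_le hM01 h3
  obtain ⟨hpar, hzero⟩ := dp_par hM1 hε hψ
  have hodd : Odd (p ^ (k + 1)) := (hpp.odd_of_ne_two hp2).pow
  have hone : 1 < p ^ (k + 1) := Nat.one_lt_pow (Nat.succ_ne_zero k) hpp.one_lt
  have h3 := dp_three hodd hone hε hpar hzero χ hχ hz.pow_eq_one
  intro h0
  rw [h0, mul_zero] at h3
  apply split_opt H hk hkk hz hzz hε0 hc0 χ θ (by rw [hχ]) hχp hθ
  calc _ = ∑ u : (ZMod (p ^ (k + 1)))ˣ, (χ u : Ω) * ((∑ v : ∀ j, (ZMod (q j ^ (kk j + 1)))ˣ,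
        (θ v : Ω) * (EV zz fun j => (v j : ZMod (q j ^ (kk j + 1))))) *
          Fc (cf ψ) (z ^ (u : ZMod (p ^ (k + 1))).val)) := by
        refine sum_congr rfl fun u _ => ?_
        rw [dp_two hM hzz1 hθ hd (dp_zpow hpM hz u), mul_sum]
        refine sum_congr rfl fun v _ => ?_
        ring
    _ = (∑ v : ∀ j, (ZMod (q j ^ (kk j + 1)))ˣ,
        (θ v : Ω) * (EV zz fun j => (v j : ZMod (q j ^ (kk j + 1))))) *
        ∑ u : (ZMod (p ^ (k + 1)))ˣ, (χ u : Ω) * Fc (cf ψ) (z ^ (u : ZMod (p ^ (k + 1))).val) := by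
        rw [mul_sum univ (fun u : (ZMod (p ^ (k + 1)))ˣ =>
          (χ u : Ω) * Fc (cf ψ) (z ^ (u : ZMod (p ^ (k + 1))).val))]
        refine sum_congr rfl fun u _ => ?_
        ring
    _ = 0 := by rw [h3, mul_zero]

theorem deep {l p M M0 s0 K : ℕ} [Fact l.Prime] [Fact p.Prime] (hl2 : l ≠ 2) (hp2 : p ≠ 2)
    {J : Type} [Fintype J] [DecidableEq J] {q kk : J → ℕ} [∀ j, Fact (q j).Prime]
    (hlq : ∀ j, l ≠ q j) (hinj : Function.Injective q) [NeZero M0] [NeZero M]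
    (hM : M = M0 * ∏ j, q j ^ (kk j + 1)) (hqM : ∀ j, (q j).Coprime M0) (hpM : p.Coprime M)
    (hM01 : 1 < M0) (hs0 : ∀ (Ω : Type) [Field Ω] [CharP Ω l] (ψ : (ZMod M0)ˣ →* Ωˣ)
      (t : (ZMod M0)ˣ), (ψ t : Ω) ^ (l ^ s0) = ψ t)
    (H : JTP l M0 s0 K (pO p q)) {k : ℕ} (hk : K ≤ k) (hkk : ∀ j, K ≤ kk j) {Ω : Type} [Field Ω]
    [CharP Ω l] {z : Ω} (hz : IsPrimitiveRoot z (p ^ (k + 1))) {ε : Ωˣ} (hε : Sgn ε)
    (ψ : (ZMod M)ˣ →* Ωˣ) (hψ : ψ (-1) = -ε) (hprim : ∀ j, PrA ψ (q j))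
    (χ : (ZMod (p ^ (k + 1)))ˣ →* Ωˣ) (hχ : χ (-1) = ε) (hχp : Prim χ) :
    Tc (cf ψ) χ z ≠ 0 := by
  have hi : Function.Injective (algebraMap Ω (AlgebraicClosure Ω)) :=
    (algebraMap Ω (AlgebraicClosure Ω)).injective
  have hch : CharP (AlgebraicClosure Ω) l := charP_of_injective_algebraMap hi l
  have hu : Function.Injective (Units.map ((algebraMap Ω (AlgebraicClosure Ω) :
      Ω →+* AlgebraicClosure Ω) : Ω →* AlgebraicClosure Ω)) := Units.map_injective hi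
  have hnegu : ∀ e : Ωˣ, Units.map ((algebraMap Ω (AlgebraicClosure Ω) :
      Ω →+* AlgebraicClosure Ω) : Ω →* AlgebraicClosure Ω) (-e) =
      -Units.map ((algebraMap Ω (AlgebraicClosure Ω) :
        Ω →+* AlgebraicClosure Ω) : Ω →* AlgebraicClosure Ω) e := by
    intro e
    apply Units.ext
    rw [Units.coe_map, Units.val_neg, Units.val_neg, Units.coe_map]
    exact map_neg (algebraMap Ω (AlgebraicClosure Ω)) (e : Ω)
  have hε' : Sgn (Units.map ((algebraMap Ω (AlgebraicClosure Ω) :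
      Ω →+* AlgebraicClosure Ω) : Ω →* AlgebraicClosure Ω) ε) := by
    rcases hε with h | h
    · left
      rw [h, map_one]
    · right
      rw [h, hnegu, map_one]
  intro h0
  refine dp_main (Ω := AlgebraicClosure Ω) hp2 hlq hinj hM hqM hpM hM01 hs0 H hk hkk
    (hz.map_of_injective hi) hε' ((Units.map ((algebraMap Ω (AlgebraicClosure Ω) :
      Ω →+* AlgebraicClosure Ω) : Ω →* AlgebraicClosure Ω)).comp ψ) ?_ ?_
    ((Units.map ((algebraMap Ω (AlgebraicClosure Ω) :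
      Ω →+* AlgebraicClosure Ω) : Ω →* AlgebraicClosure Ω)).comp χ) ?_ ?_ ?_
  · rw [MonoidHom.comp_apply, hψ, hnegu]
  · intro j
    obtain ⟨u, h1, h2⟩ := hprim j
    refine ⟨u, h1, fun h3 => h2 (hu ?_)⟩
    rw [map_one]
    exact h3
  · rw [MonoidHom.comp_apply, hχ]
  · obtain ⟨u, h1, h2⟩ := hχp
    refine ⟨u, h1, fun h3 => h2 (hu ?_)⟩
    rw [map_one]
    exact h3
  · rw [dp_map, h0, map_zero]

end H2ZS
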