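import Pool.Agent.H2.ZS.Df

/-!
ROW Ea (the additive character `EV`; about 110 lines).  PROOF.
`EV_cast`: `ZMod.val_natCast`, `z i ^ (a % n i) = z i ^ a` as `z i ^ n i = 1` (`pow_mod_orderOf` or `H46TS.TD_Z_nat (hz i) (a i)`).
`EV_add`: each factor: write `u i = ((u i).val : ZMod (n i))` (`ZMod.natCast_zmod_val`), `u i + v i` is the cast of `(u i).val + (v i).val`, `H46TS.TD_Z_nat`, `pow_add`, `Finset.prod_mul_distrib`.
`EV_nat`: `H46TS.TD_Z_mul (hz i) c (u i) : z ^ ((c : ZMod f) * u).val = (z ^ u.val) ^ c`, `Finset.prod_pow`.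
`EV_neg`: from `EV_add` with `u + (-u) = 0`, `EV z 0 = 1` (`ZMod.val_zero`).  `EV_ne`: each `z i ≠ 0` (`z i ^ n i = 1`, `n i ≠ 0`), `Finset.prod_ne_zero_iff`.
`EV_inj`: fix `i`, `c = ∏ j ∈ univ.erase i, n j`; `(EV z u)^c = 1`; `EV z u = z i ^ (u i).val * ∏ j ∈ univ.erase i, z j ^ (u j).val` (`Finset.mul_prod_erase`), the second factor has `c`-th power `1` (each `n j ∣ c`, `Finset.dvd_prod_of_mem`);
so `z i ^ ((u i).val * c) = 1`, `n i ∣ (u i).val * c` (`IsPrimitiveRoot.pow_eq_one_iff_dvd`), `(n i).Coprime c` (`Nat.Coprime.prod_right`, from `hc`), so `n i ∣ (u i).val`, and `(u i).val < n i` (`ZMod.val_lt`) gives `(u i).val = 0`,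
`u i = 0` (`ZMod.val_eq_zero`).
`EV_unit`: `(EV z u)^c = EV z (c * u) = 1` by `EV_nat`, so `c * u i = 0` for all `i` by `EV_inj`, and `u i` is a unit, so `(c : ZMod (n i)) = 0` (`Units.mul_left_eq_zero`), `n i ∣ c` (`ZMod.natCast_eq_zero_iff`).
-/

/-!
Row Ea: the additive character `EV`.
-/

set_option autoImplicit false

namespace H2ZS

open Finset H5SW H46TS

variable {I : Type} [Fintype I] {n : I → ℕ} [∀ i, NeZero (n i)] {Ω : Type*} [Field Ω] {z : I → Ω}

theorem EV_cast (hz : ∀ i, z i ^ n i = 1) (a : I → ℕ) :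
    EV z (fun i => ((a i : ℕ) : ZMod (n i))) = ∏ i, z i ^ a i :=
  Finset.prod_congr rfl fun i _ => TD_Z_nat (hz i) (a i)

theorem EV_add (hz : ∀ i, z i ^ n i = 1) (u v : ∀ i, ZMod (n i)) :
    EV z (u + v) = EV z u * EV z v := by
  have h : ∀ i, z i ^ ((u + v) i).val = z i ^ (u i).val * z i ^ (v i).val := by
    intro i
    have h1 : (u + v) i = (((u i).val + (v i).val : ℕ) : ZMod (n i)) := by
      push_cast
      rw [ZMod.natCast_zmod_val, ZMod.natCast_zmod_val]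
      rfl
    rw [h1, TD_Z_nat (hz i), pow_add]
  unfold EV
  rw [← Finset.prod_mul_distrib]
  exact Finset.prod_congr rfl fun i _ => h i

theorem EV_nat (hz : ∀ i, z i ^ n i = 1) (c : ℕ) (u : ∀ i, ZMod (n i)) :
    EV z (fun i => (c : ZMod (n i)) * u i) = EV z u ^ c := by
  unfold EV
  rw [← Finset.prod_pow]
  exact Finset.prod_congr rfl fun i _ => TD_Z_mul (hz i) c (u i)

omit [∀ i, NeZero (n i)] in
theorem Ea_zero : EV (n := n) z 0 = 1 := by
  unfold EV
  refine Finset.prod_eq_one fun i _ => ?_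
  have h1 : ((0 : ∀ i, ZMod (n i)) i).val = 0 := ZMod.val_zero
  rw [h1, pow_zero]

theorem EV_neg (hz : ∀ i, z i ^ n i = 1) (u : ∀ i, ZMod (n i)) : EV z (-u) = (EV z u)⁻¹ := by
  have h1 := EV_add hz (-u) u
  rw [neg_add_cancel, Ea_zero] at h1
  exact eq_inv_of_mul_eq_one_left h1.symm

theorem EV_ne (hz : ∀ i, z i ^ n i = 1) (u : ∀ i, ZMod (n i)) : EV z u ≠ 0 := by
  have h1 := EV_add hz (-u) u
  rw [neg_add_cancel, Ea_zero] at h1
  intro h0
  rw [h0, mul_zero] at h1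
  exact one_ne_zero h1

theorem EV_inj (hz : ∀ i, IsPrimitiveRoot (z i) (n i))
    (hc : ∀ i j, i ≠ j → Nat.Coprime (n i) (n j)) (u : ∀ i, ZMod (n i)) (h : EV z u = 1) :
    u = 0 := by
  classical
  funext i
  set c := ∏ j ∈ univ.erase i, n j with hcdef
  have h1 : z i ^ (u i).val * ∏ j ∈ univ.erase i, z j ^ (u j).val = 1 := by
    rw [Finset.mul_prod_erase univ (fun j => z j ^ (u j).val) (Finset.mem_univ i)]
    exact h
  have h2 : (∏ j ∈ univ.erase i, z j ^ (u j).val) ^ c = 1 := by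
    rw [← Finset.prod_pow]
    refine Finset.prod_eq_one fun j hj => ?_
    obtain ⟨m, hm⟩ : n j ∣ c := Finset.dvd_prod_of_mem n hj
    rw [hm, ← pow_mul, mul_left_comm, pow_mul, (hz j).pow_eq_one, one_pow]
  have h3 : z i ^ ((u i).val * c) = 1 := by
    have h4 := congrArg (fun w => w ^ c) h1
    simp only [mul_pow, one_pow] at h4
    rw [h2, mul_one, ← pow_mul] at h4
    exact h4
  have h4 : n i ∣ (u i).val * c := (hz i).pow_eq_one_iff_dvd _ |>.mp h3
  have h5 : (n i).Coprime c :=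
    Nat.Coprime.prod_right fun j hj => hc i j (Finset.ne_of_mem_erase hj).symm
  have h6 : n i ∣ (u i).val := h5.dvd_of_dvd_mul_right h4
  have h7 : (u i).val = 0 := Nat.eq_zero_of_dvd_of_lt h6 (ZMod.val_lt _)
  exact (ZMod.val_eq_zero _).mp h7

theorem EV_unit (hz : ∀ i, IsPrimitiveRoot (z i) (n i))
    (hc : ∀ i j, i ≠ j → Nat.Coprime (n i) (n j)) (u : ∀ i, (ZMod (n i))ˣ) (c : ℕ)
    (h : EV z (fun i => (u i : ZMod (n i))) ^ c = 1) (i : I) : n i ∣ c := by
  rw [← EV_nat (fun i => (hz i).pow_eq_one)] at h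
  have h1 := congrFun (EV_inj hz hc _ h) i
  have h2 : (c : ZMod (n i)) * (u i : ZMod (n i)) = 0 := h1
  rw [Units.mul_left_eq_zero] at h2
  exact (ZMod.natCast_eq_zero_iff _ _).mp h2

end H2ZS
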