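import Pool.Agent.H2.ZS.Dfb
import Pool.Agent.H46.TS.TG

/-!
ROW Fl (change of the modulus).
-/

set_option autoImplicit false

namespace H2ZS

open Finset H5SW H46TS H78M

theorem Fl_cop {M M' : ℕ} (hd : M' ∣ M) (hr : ∀ r : ℕ, r.Prime → r ∣ M → r ∣ M') (a : ℕ) :
    a.Coprime M ↔ a.Coprime M' := by
  constructor
  · exact fun h => Nat.Coprime.coprime_dvd_right hd h
  · intro h
    by_contra hc
    obtain ⟨r, hrp, h1, h2⟩ := Nat.Prime.not_coprime_iff_dvd.1 hc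
    exact Nat.not_coprime_of_dvd_of_dvd hrp.one_lt h1 (hr r hrp h2) h

theorem Fl_zpow_ne {p n M : ℕ} [Fact p.Prime] (hpM : p.Coprime M) {Ω : Type*} [Field Ω] {z : Ω}
    (hz : IsPrimitiveRoot z (p ^ (n + 1))) (u : (ZMod (p ^ (n + 1)))ˣ) :
    (z ^ (u : ZMod (p ^ (n + 1))).val) ^ M ≠ 1 := by
  intro h
  rw [← pow_mul, hz.pow_eq_one_iff_dvd] at h
  have h1 : Nat.Coprime (p ^ (n + 1)) ((u : ZMod (p ^ (n + 1))).val * M) :=
    Nat.Coprime.mul_right (ZMod.val_coe_unit_coprime u).symm (Nat.Coprime.pow_left _ hpM)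
  have h2 := h1.eq_one_of_dvd h
  exact (Nat.one_lt_pow (Nat.succ_ne_zero n) (Fact.out : p.Prime).one_lt).ne' h2

theorem cf_level {M M' : ℕ} [NeZero M] [NeZero M'] (hd : M' ∣ M)
    (hr : ∀ r : ℕ, r.Prime → r ∣ M → r ∣ M') {Ω : Type*} [Field Ω] (ψ' : (ZMod M')ˣ →* Ωˣ)
    (a : ℕ) : cf (ψ'.comp (ZMod.unitsMap hd)) ((a : ℕ) : ZMod M) = cf ψ' ((a : ℕ) : ZMod M') := by
  by_cases h : a.Coprime M
  · have h' := (Fl_cop hd hr a).1 h
    have e1 : ((a : ℕ) : ZMod M) = ((ZMod.unitOfCoprime a h : (ZMod M)ˣ) : ZMod M) :=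
      (ZMod.coe_unitOfCoprime a h).symm
    have e2 : ((a : ℕ) : ZMod M') = ((ZMod.unitOfCoprime a h' : (ZMod M')ˣ) : ZMod M') :=
      (ZMod.coe_unitOfCoprime a h').symm
    rw [e1, e2, cf_unit, cf_unit]
    have e3 : ZMod.unitsMap hd (ZMod.unitOfCoprime a h) = ZMod.unitOfCoprime a h' := by
      ext
      rw [ZMod.unitsMap_val, ZMod.coe_unitOfCoprime, ZMod.coe_unitOfCoprime,
        ZMod.cast_natCast hd]
    rw [MonoidHom.comp_apply, e3]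
  · rw [cf_nonunit _ (fun hu => h ((ZMod.isUnit_iff_coprime a M).1 hu)),
      cf_nonunit _ (fun hu => h ((Fl_cop hd hr a).2 ((ZMod.isUnit_iff_coprime a M').1 hu)))]

theorem Tc_level {p k M M' : ℕ} [Fact p.Prime] [NeZero M] [NeZero M'] (hd : M' ∣ M)
    (hr : ∀ r : ℕ, r.Prime → r ∣ M → r ∣ M') (hpM : p.Coprime M) {Ω : Type*} [Field Ω] {z : Ω}
    (hz : IsPrimitiveRoot z (p ^ (k + 1))) (χ : (ZMod (p ^ (k + 1)))ˣ →* Ωˣ)
    (ψ' : (ZMod M')ˣ →* Ωˣ) :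
    Tc (cf (ψ'.comp (ZMod.unitsMap hd))) χ z = Tc (cf ψ') χ z := by
  unfold H46TS.Tc
  refine sum_congr rfl fun u _ => ?_
  congr 1
  have hx := Fl_zpow_ne hpM hz u
  obtain ⟨P, hP⟩ := id hd
  have hP' : P * M' = M := by rw [hP, mul_comm]
  rw [← hP'] at hx
  rw [Fc_big (cf ψ') hx, hP']
  unfold Fc
  congr 1
  refine sum_congr rfl fun n _ => ?_
  rw [cf_level hd hr]

end H2ZS
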