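import Pool.Agent.H2.ZS.Ea

/-!
ROW Gp (grouping by averaging over `1 + P0 b`, several primes; about 150 lines).  ADAPT `grouping` in `Pool/Agent/H46/TS/TI.lean` (private lemmas `TI_sep`, `TI_bound`, `TI_geom` copied).  PROOF.
`P0 = ∏ i, p i ^ e i`. For every `i` the bound `K i` of `TI_bound` for the family `fun j => γ j i`; `k0 = ∑ i, (K i + e i)` (or the sup). Let `n i = p i ^ (k i + 1)`, `T = ∏ i, p i ^ (k i + 1 - e i)`, so `P0 * T = ∏ n i`. Fix `j0`.
Put `δ j = rdM k (γ j) - rdM k (γ j0)`. From the hypothesis for `b`, multiply by `EV z (fun i => (1 + P0 b) * (- rdM k (γ j0) i))` (`EV_add`): `∑_j Q j * EV z (fun i => (1 + P0 b) * δ j i) = 0`, and `EV z (fun i => (1 + P0 b) * δ j i) = EV z (δ j) * (EV z (δ j) ^ P0) ^ b` (`EV_nat`).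
Sum over `b < T`: `∑_j Q j * EV z (δ j) * ∑_{b<T} (EV z (δ j) ^ P0)^b = 0`. If `γ j = γ j0` then `δ j = 0`, `EV z 0 = 1` and the term is `Q j * T`. Otherwise `y = EV z (δ j) ^ P0 = EV z (P0 * δ j)` satisfies `y ^ T = EV z (P0 * T * δ j) = EV z 0 = 1` (`P0 * T` is `0` in each `ZMod (n i)`),
and `y ≠ 1`: otherwise `P0 * δ j i = 0` for all `i` (`EV_inj`), `P0 = p i ^ e i * (prime to p i)`, so `p i ^ e i * δ j i = 0` in `ZMod (p i ^ (k i + 1))`, so `δ j i` is `0` modulo `p i ^ (k i + 1 - e i)` (compare `.val`), that is `toZModPow (k i + 1 - e i) (γ j i) = toZModPow (k i + 1 - e i) (γ j0 i)`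
(`PadicInt.cast_toZModPow`), so `γ j i = γ j0 i` by the bound (`K i ≤ k i + 1 - e i`), for all `i`: contradiction. So the geometric sum vanishes. Finally `(T : Ω) ≠ 0` (`H46TS.cast_ne (hlp i)`).
-/

set_option autoImplicit false

namespace H2ZS

open Finset H5SW H46TS

private theorem Gp_sep {p : ℕ} [Fact p.Prime] (x y : ℤ_[p]) (h : x ≠ y) :
    ∃ n : ℕ, ∀ m ≥ n, PadicInt.toZModPow m x ≠ PadicInt.toZModPow m y := by
  have h1 : ¬ ∀ n, PadicInt.toZModPow n x = PadicInt.toZModPow n y := by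
    rw [PadicInt.ext_of_toZModPow]
    exact h
  push Not at h1
  obtain ⟨n, hn⟩ := h1
  refine ⟨n, fun m hm he => hn ?_⟩
  rw [← PadicInt.cast_toZModPow n m hm x, ← PadicInt.cast_toZModPow n m hm y, he]

private theorem Gp_bound {p : ℕ} [Fact p.Prime] {ι : Type} [Fintype ι] (γ : ι → ℤ_[p]) :
    ∃ K : ℕ, ∀ m ≥ K, ∀ i j, PadicInt.toZModPow m (γ i) = PadicInt.toZModPow m (γ j) →
      γ i = γ j := by
  classical
  have h : ∀ q : ι × ι, ∃ n : ℕ, ∀ m ≥ n, PadicInt.toZModPow m (γ q.1) =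
      PadicInt.toZModPow m (γ q.2) → γ q.1 = γ q.2 := by
    intro q
    by_cases hq : γ q.1 = γ q.2
    · exact ⟨0, fun _ _ _ => hq⟩
    · obtain ⟨n, hn⟩ := Gp_sep _ _ hq
      exact ⟨n, fun m hm he => absurd he (hn m hm)⟩
  choose N hN using h
  refine ⟨Finset.univ.sup N, fun m hm i j he => hN (i, j) m ?_ he⟩
  exact (Finset.le_sup (f := N) (Finset.mem_univ (i, j))).trans hm

private theorem Gp_geom {Ω : Type} [Field Ω] (y : Ω) (n : ℕ) (hy : y ^ n = 1) (h1 : y ≠ 1) :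
    ∑ b ∈ Finset.range n, y ^ b = 0 := by
  have h := geom_sum_mul y n
  rw [hy, sub_self] at h
  rcases mul_eq_zero.mp h with h | h
  · exact h
  · exact absurd (sub_eq_zero.mp h) h1

private theorem Gp_EV_zero {I : Type} [Fintype I] {n : I → ℕ} {Ω : Type*} [Field Ω] (z : I → Ω) :
    EV z (0 : ∀ i, ZMod (n i)) = 1 := by
  unfold EV
  apply Finset.prod_eq_one
  intro i _
  rw [Pi.zero_apply, ZMod.val_zero, pow_zero]

/-- one prime: if `P0 * δ = 0` modulo `p ^ (k + 1)`, `P0 = p ^ e * R`, `R` prime to `p`, then the reductions agree modulo `p ^ (k + 1 - e)` -/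
private theorem Gp_local {p : ℕ} [Fact p.Prime] (k e R : ℕ) (hek : e ≤ k) (hR : Nat.Coprime (p ^ (k + 1 - e)) R)
    (x y : ℤ_[p])
    (h : ((p ^ e * R : ℕ) : ZMod (p ^ (k + 1))) * (PadicInt.toZModPow (k + 1) x - PadicInt.toZModPow (k + 1) y) = 0) :
    PadicInt.toZModPow (k + 1 - e) x = PadicInt.toZModPow (k + 1 - e) y := by
  have hppos : 0 < p := (Fact.out : p.Prime).pos
  have : NeZero (p ^ (k + 1)) := ⟨(pow_pos hppos _).ne'⟩
  set d := PadicInt.toZModPow (k + 1) x - PadicInt.toZModPow (k + 1) y with hd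
  have hdv : ((d.val : ℕ) : ZMod (p ^ (k + 1))) = d := ZMod.natCast_zmod_val d
  rw [← hdv, ← Nat.cast_mul, ZMod.natCast_eq_zero_iff] at h
  have hf : p ^ (k + 1) = p ^ e * p ^ (k + 1 - e) := by
    rw [← pow_add]
    congr 1
    omega
  have h' : p ^ e * p ^ (k + 1 - e) ∣ p ^ e * (R * d.val) := by
    rw [← hf, ← mul_assoc]
    exact h
  have h2 : p ^ (k + 1 - e) ∣ R * d.val := Nat.dvd_of_mul_dvd_mul_left (pow_pos hppos e) h'
  have h3 : p ^ (k + 1 - e) ∣ d.val := hR.dvd_of_dvd_mul_left h2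
  have h4 : ((d.val : ℕ) : ZMod (p ^ (k + 1 - e))) = 0 := (ZMod.natCast_eq_zero_iff _ _).mpr h3
  have hle : k + 1 - e ≤ k + 1 := by omega
  rw [ZMod.natCast_val, hd, ZMod.cast_sub (pow_dvd_pow p hle), PadicInt.cast_toZModPow _ _ hle,
    PadicInt.cast_toZModPow _ _ hle, sub_eq_zero] at h4
  exact h4

open Classical in
theorem groupingM {l : ℕ} [Fact l.Prime] {I : Type} [Fintype I] [DecidableEq I] {p : I → ℕ}
    [∀ i, Fact (p i).Prime] (hlp : ∀ i, l ≠ p i) (hinj : Function.Injective p) (e : I → ℕ)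
    {ι : Type} [Fintype ι] (γ : ι → ∀ i, ℤ_[p i]) :
    ∃ k0 : ℕ, ∀ k : I → ℕ, (∀ i, k0 ≤ k i) → ∀ (Ω : Type) [Field Ω] [CharP Ω l] (z : I → Ω),
      (∀ i, IsPrimitiveRoot (z i) (p i ^ (k i + 1))) → ∀ Q : ι → Ω,
      (∀ b : ℕ, ∑ j, Q j * EV z (fun i => ((1 + (∏ j, p j ^ e j) * b : ℕ) :
        ZMod (p i ^ (k i + 1))) * rdM k (γ j) i) = 0) →
      ∀ j0 : ι, ∑ j ∈ univ.filter (fun j => γ j = γ j0), Q j = 0 := by
  have hK0 : ∀ i, ∃ K : ℕ, ∀ m ≥ K, ∀ j j' : ι, PadicInt.toZModPow m (γ j i) = PadicInt.toZModPow m (γ j' i) →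
      γ j i = γ j' i := fun i => Gp_bound (fun j => γ j i)
  choose K hK using hK0
  refine ⟨∑ i, (K i + e i), fun k hk Ω _ _ z hz Q hQ j0 => ?_⟩
  have hki : ∀ i, K i + e i ≤ k i := fun i =>
    (Finset.single_le_sum (f := fun i => K i + e i) (fun _ _ => Nat.zero_le _) (Finset.mem_univ i)).trans (hk i)
  have hpp : ∀ i, 0 < p i := fun i => (Fact.out : (p i).Prime).pos
  have hNZ : ∀ i, NeZero (p i ^ (k i + 1)) := fun i => ⟨(pow_pos (hpp i) _).ne'⟩
  have hz1 : ∀ i, z i ^ (p i ^ (k i + 1)) = 1 := fun i => (hz i).pow_eq_one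
  have hcop : ∀ i j, i ≠ j → Nat.Coprime (p i) (p j) := fun i j hij =>
    (Nat.coprime_primes (Fact.out : (p i).Prime) (Fact.out : (p j).Prime)).2 (fun h => hij (hinj h))
  have hc : ∀ i j, i ≠ j → Nat.Coprime (p i ^ (k i + 1)) (p j ^ (k j + 1)) := fun i j hij =>
    Nat.Coprime.pow _ _ (hcop i j hij)
  set P0 : ℕ := ∏ j, p j ^ e j with hP0
  set T : ℕ := ∏ i, p i ^ (k i + 1 - e i) with hT
  have hPT : P0 * T = ∏ i, p i ^ (k i + 1) := by
    rw [hP0, hT, ← Finset.prod_mul_distrib]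
    apply Finset.prod_congr rfl
    intro i _
    rw [← pow_add]
    congr 1
    have := hki i
    omega
  have hdvd : ∀ i, p i ^ (k i + 1) ∣ P0 * T := fun i => by
    rw [hPT]
    exact Finset.dvd_prod_of_mem (fun i => p i ^ (k i + 1)) (Finset.mem_univ i)
  set δ : ι → ∀ i, ZMod (p i ^ (k i + 1)) := fun j => rdM k (γ j) - rdM k (γ j0) with hδ
  have hrel : ∀ b : ℕ, ∑ j, Q j * EV z (δ j) * (EV z (δ j) ^ P0) ^ b = 0 := by
    intro b
    have h1 : ∑ j, Q j * EV z (δ j) * (EV z (δ j) ^ P0) ^ b =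
        (∑ j, Q j * EV z (fun i => ((1 + P0 * b : ℕ) : ZMod (p i ^ (k i + 1))) * rdM k (γ j) i)) *
          EV z (fun i => ((1 + P0 * b : ℕ) : ZMod (p i ^ (k i + 1))) * (- rdM k (γ j0)) i) := by
      rw [Finset.sum_mul]
      refine Finset.sum_congr rfl (fun j _ => ?_)
      rw [mul_assoc, mul_assoc, ← EV_add hz1]
      congr 1
      have h2 : (fun i => ((1 + P0 * b : ℕ) : ZMod (p i ^ (k i + 1))) * rdM k (γ j) i) +
          (fun i => ((1 + P0 * b : ℕ) : ZMod (p i ^ (k i + 1))) * (- rdM k (γ j0)) i) =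
          (fun i => ((1 + P0 * b : ℕ) : ZMod (p i ^ (k i + 1))) * δ j i) := by
        funext i
        rw [Pi.add_apply, ← mul_add, hδ]
        simp only [Pi.sub_apply, Pi.neg_apply, sub_eq_add_neg]
      rw [h2, EV_nat hz1, pow_add, pow_one, pow_mul]
    rw [h1, hQ b, zero_mul]
  have hsum : ∑ j, Q j * EV z (δ j) * ∑ b ∈ Finset.range T, (EV z (δ j) ^ P0) ^ b = 0 := by
    simp_rw [Finset.mul_sum]
    rw [Finset.sum_comm]
    exact Finset.sum_eq_zero (fun b _ => hrel b)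
  have hterm : ∀ j, Q j * EV z (δ j) * ∑ b ∈ Finset.range T, (EV z (δ j) ^ P0) ^ b =
      if γ j = γ j0 then Q j * (T : Ω) else 0 := by
    intro j
    by_cases hj : γ j = γ j0
    · rw [if_pos hj]
      have h0 : δ j = 0 := by
        rw [hδ]
        show rdM k (γ j) - rdM k (γ j0) = 0
        rw [hj, sub_self]
      rw [h0, Gp_EV_zero]
      simp
    · rw [if_neg hj]
      have hy : EV z (δ j) ^ P0 ≠ 1 := by
        intro hy
        rw [← EV_nat hz1] at hy
        have h2 := EV_inj hz hc _ hy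
        apply hj
        funext i
        have h3 := congrFun h2 i
        simp only [Pi.zero_apply] at h3
        have hPe : P0 = p i ^ e i * ∏ j ∈ univ.erase i, p j ^ e j := by
          rw [hP0]
          exact (Finset.mul_prod_erase univ (fun j => p j ^ e j) (Finset.mem_univ i)).symm
        have hR : Nat.Coprime (p i ^ (k i + 1 - e i)) (∏ j ∈ univ.erase i, p j ^ e j) := by
          apply Nat.Coprime.prod_right
          intro j' hj'
          exact Nat.Coprime.pow _ _ (hcop i j' (Finset.ne_of_mem_erase hj').symm)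
        rw [hPe] at h3
        have hki' := hki i
        exact hK i _ (by omega) j j0 (Gp_local (k i) (e i) _ (by omega) hR (γ j i) (γ j0 i) h3)
      have hyT : (EV z (δ j) ^ P0) ^ T = 1 := by
        rw [← pow_mul, ← EV_nat hz1]
        have h4 : (fun i => ((P0 * T : ℕ) : ZMod (p i ^ (k i + 1))) * δ j i) = 0 := by
          funext i
          rw [(ZMod.natCast_eq_zero_iff _ _).mpr (hdvd i), zero_mul, Pi.zero_apply]
        rw [h4, Gp_EV_zero]
      rw [Gp_geom _ _ hyT hy, mul_zero]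
  rw [Finset.sum_congr rfl (fun i _ => hterm i), ← Finset.sum_filter, ← Finset.sum_mul] at hsum
  rcases mul_eq_zero.mp hsum with h | h
  · exact h
  · exfalso
    rw [hT, Nat.cast_prod] at h
    exact Finset.prod_ne_zero_iff.2 (fun i _ => cast_ne (hlp i) _ Ω) h

end H2ZS
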