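import Pool.Agent.H2.ZS.Gp

/-!
ROW Gr (from the relations at roots of unity to a relation in the group algebra of `∏ ℤ_{p_i}`; about 110 lines).  ADAPT `grp` (with `TJ_exp`, `TJ_gam`, `TJ_single`) in `Pool/Agent/H46/TS/TJ.lean`; `expand`, `qq`, `mm`, `qq_map` of `TJa.lean` are used as they are.  PROOF.
`γ i = fun a => ∑ w, (mm Q i w : ℤ_[p a]) * y w a` (an element of `∀ a, ℤ_[p a]`), `k0` from `groupingM` (row Gp) for `γ`. With `Y w = EV z (fun a => (1 + P0 b) * rdM k (y w) a)` one has `∏_w Y w ^ mm Q i w = EV z (fun a => (1 + P0 b) * rdM k (γ i) a)`: `EV_nat` backwards, and `EV` of a sum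
(induction over the finset with `EV_add`), and `rdM k (γ i) a = ∑_w (mm Q i w) * rdM k (y w) a` (`map_sum`, `map_mul`, `map_natCast`). The rest as in `grp` with `ℤ_[p]` replaced by `∀ a, ℤ_[p a]` (use `nsmul` instead of the product by a natural number in `TJ_single`:
`∏ w ∈ S, single (y w) 1 ^ m w = single (∑ w ∈ S, m w • y w) 1`).
-/

set_option autoImplicit false

namespace H2ZS

open Finset H5SW H46TS

theorem Gr_exp {I : Type} [Fintype I] {p : I → ℕ} [∀ i, Fact (p i).Prime] (k : I → ℕ) {ι : Type}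
    {Ω : Type} [Field Ω] {z : I → Ω} (hz : ∀ i, z i ^ (p i ^ (k i + 1)) = 1)
    (y : ι → ∀ i, ℤ_[p i]) (m : ι → ℕ) (c : ℕ) (S : Finset ι) :
    ∏ w ∈ S, (EV z fun a => ((c : ℕ) : ZMod (p a ^ (k a + 1))) * rdM k (y w) a) ^ m w =
      EV z fun a => ((c : ℕ) : ZMod (p a ^ (k a + 1))) * rdM k (∑ w ∈ S, m w • y w) a := by
  classical
  have hne : ∀ i, NeZero (p i ^ (k i + 1)) :=
    fun i => ⟨pow_ne_zero _ (Fact.out (p := (p i).Prime)).ne_zero⟩
  induction S using Finset.induction_on with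
  | empty =>
    rw [prod_empty]
    unfold EV
    refine (Finset.prod_eq_one fun i _ => ?_).symm
    have h1 : rdM k (∑ w ∈ (∅ : Finset ι), m w • y w) i = 0 := by
      unfold rdM
      rw [sum_empty]
      exact map_zero _
    beta_reduce
    rw [h1, mul_zero, ZMod.val_zero, pow_zero]
  | insert b S hb ih =>
    rw [prod_insert hb, ih, ← EV_nat hz (m b) (fun a => ((c : ℕ) : ZMod (p a ^ (k a + 1))) * rdM k (y b) a),
      ← EV_add hz]
    congr 1
    funext a
    rw [sum_insert hb, Pi.add_apply]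
    unfold rdM
    rw [Pi.add_apply, map_add, Pi.smul_apply, map_nsmul, nsmul_eq_mul]
    ring

/-- the exponent attached to `i` -/
noncomputable def Gr_gam {I : Type} {p : I → ℕ} [∀ i, Fact (p i).Prime] {ι : Type} [Fintype ι]
    [DecidableEq ι] (y : ι → ∀ i, ℤ_[p i]) (Q : ℕ) (i : ι × Fin Q × (ι → Fin 2)) : ∀ a, ℤ_[p a] :=
  ∑ w, mm Q i w • y w

theorem Gr_single {G : Type} [AddCommMonoid G] {ι : Type} {Ω : Type} [Field Ω] (y : ι → G)
    (m : ι → ℕ) (S : Finset ι) :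
    ∏ w ∈ S, (AddMonoidAlgebra.single (y w) 1 : AddMonoidAlgebra Ω G) ^ m w =
      AddMonoidAlgebra.single (∑ w ∈ S, m w • y w) 1 := by
  classical
  induction S using Finset.induction_on with
  | empty => simp [AddMonoidAlgebra.one_def]
  | insert a S ha ih =>
    rw [prod_insert ha, sum_insert ha, ih, AddMonoidAlgebra.single_pow,
      AddMonoidAlgebra.single_mul_single, one_pow, one_mul]

theorem grpM {l : ℕ} [Fact l.Prime] {I : Type} [Fintype I] [DecidableEq I] {p : I → ℕ}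
    [∀ i, Fact (p i).Prime] (hlp : ∀ i, l ≠ p i) (hinj : Function.Injective p) (e : I → ℕ)
    {ι : Type} [Fintype ι] [DecidableEq ι] (y : ι → ∀ i, ℤ_[p i]) (Q : ℕ) :
    ∃ k0 : ℕ, ∀ k : I → ℕ, (∀ i, k0 ≤ k i) → ∀ (Ω : Type) [Field Ω] [CharP Ω l] (z : I → Ω),
      (∀ i, IsPrimitiveRoot (z i) (p i ^ (k i + 1))) → ∀ N : ι → Fin Q → Ω,
        (∀ b : ℕ, ∑ i, (∑ m : Fin Q, N i m *
            (EV z fun a => ((1 + (∏ j, p j ^ e j) * b : ℕ) : ZMod (p a ^ (k a + 1))) *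
              rdM k (y i) a) ^ (m : ℕ)) *
          ∏ j ∈ univ.erase i, (1 - (EV z fun a => ((1 + (∏ j, p j ^ e j) * b : ℕ) :
            ZMod (p a ^ (k a + 1))) * rdM k (y j) a) ^ Q) = 0) →
        ∑ i, (∑ m : Fin Q, AddMonoidAlgebra.single 0 (N i m) *
            AddMonoidAlgebra.single (y i) 1 ^ (m : ℕ)) *
          ∏ j ∈ univ.erase i, (1 - AddMonoidAlgebra.single (y j) 1 ^ Q) =
            (0 : AddMonoidAlgebra Ω (∀ i, ℤ_[p i])) := by
  obtain ⟨k0, hk0⟩ := groupingM (l := l) hlp hinj e (Gr_gam y Q)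
  refine ⟨k0, fun k hk Ω _ _ z hz N H => ?_⟩
  have hrel : ∀ b : ℕ, ∑ i : ι × Fin Q × (ι → Fin 2), qq Q N i *
      EV z (fun a => ((1 + (∏ j, p j ^ e j) * b : ℕ) : ZMod (p a ^ (k a + 1))) *
        rdM k (Gr_gam y Q i) a) = 0 := by
    intro b
    have h1 : ∀ i : ι × Fin Q × (ι → Fin 2), EV z (fun a => ((1 + (∏ j, p j ^ e j) * b : ℕ) :
        ZMod (p a ^ (k a + 1))) * rdM k (Gr_gam y Q i) a) =
        ∏ w, (EV z fun a => ((1 + (∏ j, p j ^ e j) * b : ℕ) : ZMod (p a ^ (k a + 1))) *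
          rdM k (y w) a) ^ mm Q i w :=
      fun i => (Gr_exp k (fun a => (hz a).pow_eq_one) y (mm Q i) _ univ).symm
    rw [sum_congr rfl (fun i _ => by rw [h1 i]), expand]
    exact H b
  have hgr := hk0 k hk Ω z hz (qq Q N) hrel
  have hsum : ∑ i : ι × Fin Q × (ι → Fin 2),
      (AddMonoidAlgebra.single (Gr_gam y Q i) (qq Q N i) : AddMonoidAlgebra Ω (∀ i, ℤ_[p i])) = 0 := by
    classical
    rw [← Finset.sum_fiberwise_of_maps_to (s := univ) (t := univ.image (Gr_gam y Q)) (g := Gr_gam y Q)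
      (fun i _ => mem_image_of_mem _ (mem_univ i))]
    refine sum_eq_zero (fun g hg => ?_)
    obtain ⟨i0, _, rfl⟩ := mem_image.1 hg
    have h2 : ∀ i ∈ univ.filter (fun i => Gr_gam y Q i = Gr_gam y Q i0),
        (AddMonoidAlgebra.single (Gr_gam y Q i) (qq Q N i) : AddMonoidAlgebra Ω (∀ i, ℤ_[p i])) =
          AddMonoidAlgebra.singleAddHom (Gr_gam y Q i0) (qq Q N i) := by
      intro i hi
      rw [mem_filter] at hi
      rw [hi.2]
      rfl
    rw [sum_congr rfl h2, ← map_sum]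
    have h4 : ∑ i ∈ univ.filter (fun i => Gr_gam y Q i = Gr_gam y Q i0), qq Q N i = 0 := by
      rw [← hgr i0]
    rw [h4, map_zero]
  have h5 : ∀ i : ι × Fin Q × (ι → Fin 2),
      (AddMonoidAlgebra.single (Gr_gam y Q i) (qq Q N i) : AddMonoidAlgebra Ω (∀ i, ℤ_[p i])) =
      qq Q (fun x m => (AddMonoidAlgebra.single 0 (N x m) : AddMonoidAlgebra Ω (∀ i, ℤ_[p i]))) i *
        ∏ w, (AddMonoidAlgebra.single (y w) 1 : AddMonoidAlgebra Ω (∀ i, ℤ_[p i])) ^ mm Q i w := by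
    intro i
    have h6 := qq_map (AddMonoidAlgebra.singleZeroRingHom : Ω →+* AddMonoidAlgebra Ω (∀ i, ℤ_[p i]))
      Q N i
    have h7 : ∀ a : Ω, (AddMonoidAlgebra.singleZeroRingHom : Ω →+* AddMonoidAlgebra Ω (∀ i, ℤ_[p i])) a =
        AddMonoidAlgebra.single 0 a := fun a => rfl
    simp only [h7] at h6
    rw [← h6, Gr_single y (mm Q i) univ, AddMonoidAlgebra.single_mul_single, zero_add, mul_one]
    rfl
  rw [sum_congr rfl (fun i _ => h5 i), expand] at hsum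
  exact hsum

end H2ZS
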