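import Pool.Agent.H2.ZS.Dfb
import Pool.Agent.H2.ZS.Ea

/-!
ROW Gs (Gauss sums; about 140 lines).  PROOF.  `n j = q j ^ (kk j + 1)`.
`gs_zero`: let `j` be such that `a` is not a unit modulo `n j`, so `q j ∣ a` (`ZMod.isUnit_iff_coprime`, `Nat.Coprime.pow_right`). `hθ j` gives `u : (ZMod (n j))ˣ`, `u = 1 + q j ^ kk j * t`, `cmp θ j u ≠ 1`. Replace `v` by `v * Pi.mulSingle j u` (`Fintype.sum_equiv (Equiv.mulRight _)`): `θ` is multiplied by
`cmp θ j u`, and `(EV zz v)^a = EV zz (a * v)` (`EV_nat`) does not change, since `a * (v j * u) = a * v j + (a * q j ^ kk j) * (..)` and `q j ^ (kk j + 1) ∣ a * q j ^ kk j`. So `S = cmp θ j u * S`, `S = 0`.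
`gs_unit`: `(EV zz v)^a = EV zz (w * v)` (`EV_nat`); substitute `v ↦ w⁻¹ * v`.
`gs_ne`: suppose the Gauss sum is zero. Then by `gs_zero`, `gs_unit` `∑_v θ(v) (EV zz v)^a = 0` for every natural number `a` (either all `a : ZMod (n j)` are units: choose `w j = ZMod.unitOfCoprime`/`IsUnit.unit`, or some is not). Put `R = ∏ j, n j`, `y_v = EV zz v * (EV zz 1)⁻¹ = EV zz (v - 1)` (`EV_add`, `EV_neg`); multiply
the equation for `a` by `(EV zz 1)^(-a)` (as `((EV zz 1)⁻¹)^a`) and sum over `a < R`: `∑_v θ(v) ∑_{a<R} y_v^a = 0`. `y_v^R = 1`; if `v ≠ 1` then `y_v ≠ 1` (`EV_inj` with `hc`: `v - 1 ≠ 0`) and the geometric sum is `0` (`H46TS.TG_geom`); if `v = 1` it is `R`. So `R * θ(1) = R = 0` in `Ω`; but `(R : Ω) ≠ 0`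
(`H46TS.cast_ne (hlq j)`), contradiction.
-/

set_option autoImplicit false

namespace H2ZS

open Finset H5SW H46TS

variable {J : Type} [Fintype J] [DecidableEq J] {q kk : J → ℕ} [∀ j, Fact (q j).Prime]
  {Ω : Type*} [Field Ω] {zz : J → Ω}

theorem gs_zero (hzz : ∀ j, (zz j) ^ (q j ^ (kk j + 1)) = 1)
    (θ : (∀ j, (ZMod (q j ^ (kk j + 1)))ˣ) →* Ωˣ) (hθ : ∀ j, Prim (cmp θ j)) (a : ℕ)
    (ha : ∃ j, ¬ IsUnit ((a : ℕ) : ZMod (q j ^ (kk j + 1)))) :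
    ∑ v : ∀ j, (ZMod (q j ^ (kk j + 1)))ˣ,
      (θ v : Ω) * (EV zz fun j => (v j : ZMod (q j ^ (kk j + 1)))) ^ a = 0 := by
  obtain ⟨j, hj⟩ := ha
  have hqa : q j ∣ a := by
    by_contra hn
    apply hj
    rw [ZMod.isUnit_iff_coprime]
    exact Nat.Coprime.pow_right _ (((Nat.Prime.coprime_iff_not_dvd Fact.out).mpr hn).symm)
  obtain ⟨u, ⟨t, hu⟩, hne⟩ := hθ j
  obtain ⟨g, hg⟩ : ∃ g : ∀ j, (ZMod (q j ^ (kk j + 1)))ˣ, g = Pi.mulSingle j u := ⟨_, rfl⟩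
  have hθg : θ g = cmp θ j u := by rw [hg]; rfl
  have hau : ((a : ℕ) : ZMod (q j ^ (kk j + 1))) * (u : ZMod (q j ^ (kk j + 1))) = (a : ℕ) := by
    obtain ⟨b, hb⟩ := hqa
    have h0 : ((q j ^ (kk j + 1) : ℕ) : ZMod (q j ^ (kk j + 1))) = 0 := ZMod.natCast_self _
    push_cast at h0
    rw [hu, hb]
    push_cast
    have h1 : (q j : ZMod (q j ^ (kk j + 1))) * b * (1 + (q j : ZMod (q j ^ (kk j + 1))) ^ kk j * t) =
        (q j : ZMod (q j ^ (kk j + 1))) * b + (q j : ZMod (q j ^ (kk j + 1))) ^ (kk j + 1) * (b * t) := by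
      ring
    rw [h1, h0, zero_mul, add_zero]
  have hEV : ∀ v : ∀ j, (ZMod (q j ^ (kk j + 1)))ˣ,
      (EV zz fun j => ((v * g) j : ZMod (q j ^ (kk j + 1)))) ^ a =
      (EV zz fun j => (v j : ZMod (q j ^ (kk j + 1)))) ^ a := by
    intro v
    rw [← EV_nat hzz, ← EV_nat hzz]
    congr 1
    funext i
    rw [Pi.mul_apply, Units.val_mul]
    by_cases hi : i = j
    · subst hi
      rw [hg, Pi.mulSingle_eq_same, mul_left_comm, hau, mul_comm]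
    · rw [hg, Pi.mulSingle_eq_of_ne hi, Units.val_one, mul_one]
  have h1 : ∑ v : ∀ j, (ZMod (q j ^ (kk j + 1)))ˣ,
      (θ v : Ω) * (EV zz fun j => (v j : ZMod (q j ^ (kk j + 1)))) ^ a =
      (θ g : Ω) * ∑ v : ∀ j, (ZMod (q j ^ (kk j + 1)))ˣ,
      (θ v : Ω) * (EV zz fun j => (v j : ZMod (q j ^ (kk j + 1)))) ^ a := by
    rw [Finset.mul_sum]
    symm
    refine Fintype.sum_equiv (Equiv.mulRight g) _ _ ?_
    intro v
    rw [Equiv.coe_mulRight, hEV v, map_mul, Units.val_mul]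
    ring
  have h2 : (θ g : Ω) ≠ 1 := by
    rw [hθg]
    intro h
    exact hne (Units.ext h)
  have h3 : ((θ g : Ω) - 1) * ∑ v : ∀ j, (ZMod (q j ^ (kk j + 1)))ˣ,
      (θ v : Ω) * (EV zz fun j => (v j : ZMod (q j ^ (kk j + 1)))) ^ a = 0 := by
    rw [sub_mul, one_mul, ← h1, sub_self]
  rcases mul_eq_zero.mp h3 with h4 | h4
  · exact absurd (sub_eq_zero.mp h4) h2
  · exact h4

theorem gs_unit (hzz : ∀ j, (zz j) ^ (q j ^ (kk j + 1)) = 1)
    (θ : (∀ j, (ZMod (q j ^ (kk j + 1)))ˣ) →* Ωˣ) (a : ℕ)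
    (w : ∀ j, (ZMod (q j ^ (kk j + 1)))ˣ)
    (hw : ∀ j, (w j : ZMod (q j ^ (kk j + 1))) = ((a : ℕ) : ZMod (q j ^ (kk j + 1)))) :
    ∑ v : ∀ j, (ZMod (q j ^ (kk j + 1)))ˣ,
      (θ v : Ω) * (EV zz fun j => (v j : ZMod (q j ^ (kk j + 1)))) ^ a =
      (((θ w)⁻¹ : Ωˣ) : Ω) * ∑ v : ∀ j, (ZMod (q j ^ (kk j + 1)))ˣ,
        (θ v : Ω) * (EV zz fun j => (v j : ZMod (q j ^ (kk j + 1)))) := by
  rw [Finset.mul_sum]
  refine Fintype.sum_equiv (Equiv.mulLeft w) _ _ ?_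
  intro v
  rw [Equiv.coe_mulLeft, map_mul, Units.val_mul, ← EV_nat hzz]
  have h1 : (fun i => ((a : ℕ) : ZMod (q i ^ (kk i + 1))) * (v i : ZMod (q i ^ (kk i + 1)))) =
      fun j => ((w * v) j : ZMod (q j ^ (kk j + 1))) := by
    funext i
    rw [Pi.mul_apply, Units.val_mul, hw]
  rw [h1]
  have h2 : (((θ w)⁻¹ : Ωˣ) : Ω) * (θ w : Ω) = 1 := Units.inv_mul _
  rw [← mul_assoc, ← mul_assoc, h2, one_mul]

theorem gs_ne {l : ℕ} [Fact l.Prime] [CharP Ω l] (hlq : ∀ j, l ≠ q j)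
    (hinj : Function.Injective q) (hzz : ∀ j, IsPrimitiveRoot (zz j) (q j ^ (kk j + 1)))
    (θ : (∀ j, (ZMod (q j ^ (kk j + 1)))ˣ) →* Ωˣ) (hθ : ∀ j, Prim (cmp θ j)) :
    ∑ v : ∀ j, (ZMod (q j ^ (kk j + 1)))ˣ,
      (θ v : Ω) * (EV zz fun j => (v j : ZMod (q j ^ (kk j + 1)))) ≠ 0 := by
  classical
  intro hS
  have hzz' : ∀ j, (zz j) ^ (q j ^ (kk j + 1)) = 1 := fun j => (hzz j).pow_eq_one
  have h0 : ∀ a : ℕ, ∑ v : ∀ j, (ZMod (q j ^ (kk j + 1)))ˣ,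
      (θ v : Ω) * (EV zz fun j => (v j : ZMod (q j ^ (kk j + 1)))) ^ a = 0 := by
    intro a
    by_cases ha : ∃ j, ¬ IsUnit ((a : ℕ) : ZMod (q j ^ (kk j + 1)))
    · exact gs_zero hzz' θ hθ a ha
    · push Not at ha
      rw [gs_unit hzz' θ a (fun j => (ha j).unit) (fun j => (ha j).unit_spec), hS, mul_zero]
  obtain ⟨R, hR⟩ : ∃ R : ℕ, R = ∏ j, q j ^ (kk j + 1) := ⟨_, rfl⟩
  have hc : ∀ i j, i ≠ j → Nat.Coprime (q i ^ (kk i + 1)) (q j ^ (kk j + 1)) := fun i j hij =>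
    Nat.Coprime.pow _ _ ((Nat.coprime_primes Fact.out Fact.out).mpr (hinj.ne hij))
  obtain ⟨E1, hE1⟩ : ∃ E1 : Ω, E1 = EV zz (1 : ∀ j, ZMod (q j ^ (kk j + 1))) := ⟨_, rfl⟩
  have hy : ∀ v : ∀ j, (ZMod (q j ^ (kk j + 1)))ˣ,
      (EV zz fun j => (v j : ZMod (q j ^ (kk j + 1)))) * E1⁻¹ =
      EV zz ((fun j => (v j : ZMod (q j ^ (kk j + 1)))) + -1) := by
    intro v
    rw [EV_add hzz', EV_neg hzz', hE1]
  have hgeom : ∀ v : ∀ j, (ZMod (q j ^ (kk j + 1)))ˣ,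
      ∑ a ∈ Finset.range R, ((EV zz fun j => (v j : ZMod (q j ^ (kk j + 1)))) * E1⁻¹) ^ a =
      if v = 1 then (R : Ω) else 0 := by
    intro v
    have h1 : ((EV zz fun j => (v j : ZMod (q j ^ (kk j + 1)))) * E1⁻¹) ^ R = 1 := by
      rw [hy, ← EV_nat hzz']
      have h2 : (fun i => ((R : ℕ) : ZMod (q i ^ (kk i + 1))) *
          ((fun j => (v j : ZMod (q j ^ (kk j + 1)))) + -1) i) = 0 := by
        funext i
        have h3 : ((R : ℕ) : ZMod (q i ^ (kk i + 1))) = 0 := by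
          rw [ZMod.natCast_eq_zero_iff, hR]
          exact Finset.dvd_prod_of_mem (fun j => q j ^ (kk j + 1)) (Finset.mem_univ i)
        rw [h3, zero_mul]
        rfl
      rw [h2, Ea_zero]
    split_ifs with hv
    · subst hv
      have h2 : (EV zz fun j => ((1 : ∀ j, (ZMod (q j ^ (kk j + 1)))ˣ) j : ZMod (q j ^ (kk j + 1)))) = E1 := by
        rw [hE1]
        congr 1
      have h3 : E1 ≠ 0 := by rw [hE1]; exact EV_ne hzz' _
      rw [h2, mul_inv_cancel₀ h3]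
      simp
    · have h2 : (EV zz fun j => (v j : ZMod (q j ^ (kk j + 1)))) * E1⁻¹ ≠ 1 := by
        intro h3
        rw [hy] at h3
        have h4 := EV_inj hzz hc _ h3
        apply hv
        funext i
        apply Units.ext
        have h5 := congrFun h4 i
        have h6 : (v i : ZMod (q i ^ (kk i + 1))) + -1 = 0 := h5
        rw [Pi.one_apply, Units.val_one]
        rw [← sub_eq_add_neg] at h6
        exact sub_eq_zero.mp h6
      rw [geom_sum_eq h2, h1, sub_self, zero_div]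
  have h1 : ∑ v : ∀ j, (ZMod (q j ^ (kk j + 1)))ˣ, (θ v : Ω) *
      ∑ a ∈ Finset.range R, ((EV zz fun j => (v j : ZMod (q j ^ (kk j + 1)))) * E1⁻¹) ^ a = 0 := by
    simp only [Finset.mul_sum]
    rw [Finset.sum_comm]
    refine Finset.sum_eq_zero fun a _ => ?_
    have h2 : ∀ v : ∀ j, (ZMod (q j ^ (kk j + 1)))ˣ,
        (θ v : Ω) * ((EV zz fun j => (v j : ZMod (q j ^ (kk j + 1)))) * E1⁻¹) ^ a =
        ((θ v : Ω) * (EV zz fun j => (v j : ZMod (q j ^ (kk j + 1)))) ^ a) * (E1⁻¹) ^ a := by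
      intro v
      rw [mul_pow, mul_assoc]
    rw [Finset.sum_congr rfl fun v _ => h2 v, ← Finset.sum_mul, h0, zero_mul]
  simp only [hgeom, mul_ite, mul_zero] at h1
  rw [Finset.sum_ite_eq' Finset.univ (1 : ∀ j, (ZMod (q j ^ (kk j + 1)))ˣ), if_pos (Finset.mem_univ _),
    map_one, Units.val_one, one_mul, hR, Nat.cast_prod] at h1
  exact Finset.prod_ne_zero_iff.mpr (fun j _ => cast_ne (hlq j) (kk j + 1) Ω) h1

end H2ZS
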