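import Pool.Agent.H2.ZS.Df
import Pool.Agent.H5.SW.E0

/-!
ROW Ha (half systems in the product; irrationality; about 140 lines).  PROOF.
`exists_V`: `exists_EH hp2` gives `E`; `V = E ∪ E.image (fun x => -x)`: if `x^(p-1) = 1` then `hE.cov`; conversely `hE.root` and `(-x)^(p-1) = x^(p-1)` (`p - 1` even, see `hneg` in `cosets`, `Pool/Agent/H46/TS/TE.lean`).
`sum_halfM`: split `VV = Fintype.piFinset V` into `x i0 ∈ E` and `x i0 ∉ E` (`Finset.sum_filter_add_sum_filter_not`); `x ↦ -x` is a bijection between the two parts (`V i` is stable under `-`, `(p i - 1)` even; for `x i0 ∈ V i0`: exactly one of `x i0`, `-x i0` is in `E`, by `hE.cov`, `hE.neg`),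
`G (-x) = G x`: `Finset.sum_nbij'`.
`irrM`: suppose `n ≠ 0`. For every `i`: `n * x i = m` in `ℤ_[p i]`; so `m ≠ 0` (`x i` is a unit, `ℤ_[p]` is a domain of characteristic zero) and raising to the power `p i - 1`: `n^(p i - 1) = m^(p i - 1)` in `ℤ_[p i]`, so in `ℤ` (`Int.cast_injective`); `p i - 1` is even and `≥ 2`, so
`|n| = |m|` (`pow_left_injective`, `abs_pow`..; or `Int.natAbs`), that is `m = n` or `m = - n`. If `m = n` then `x i = 1` for all `i` (cancel `n`), so `x = 1`, excluded. If `m = -n` then `x i = -1` for all `i`, in particular `x i0 = -1 ∈ E`, but `1 ∈ E` and `hE.neg 1` says `-1 ∉ E`.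
-/

set_option autoImplicit false

namespace H2ZS

open Finset H5SW

theorem Ha_neg {p : ℕ} [Fact p.Prime] (hp2 : p ≠ 2) {x : ℤ_[p]ˣ} (hx : x ^ (p - 1) = 1) :
    (-x) ^ (p - 1) = 1 := by
  have hp : p.Prime := Fact.out
  have hev : Even (p - 1) := by
    obtain ⟨m, hm⟩ := hp.odd_of_ne_two hp2
    exact ⟨m, by omega⟩
  rw [hev.neg_pow, hx]

theorem exists_V {p : ℕ} [Fact p.Prime] (hp2 : p ≠ 2) :
    ∃ V : Finset ℤ_[p]ˣ, ∀ x, x ∈ V ↔ x ^ (p - 1) = 1 := by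
  classical
  obtain ⟨E, hE⟩ := exists_EH hp2
  refine ⟨E ∪ E.image (fun x => -x), fun x => ?_⟩
  rw [Finset.mem_union, Finset.mem_image]
  constructor
  · rintro (h | ⟨y, hy, rfl⟩)
    · exact hE.root x h
    · exact Ha_neg hp2 (hE.root y hy)
  · intro h
    rcases hE.cov x h with h1 | h1
    · exact Or.inl h1
    · exact Or.inr ⟨-x, h1, neg_neg x⟩

open Classical in
theorem sum_halfM {I : Type} [Fintype I] [DecidableEq I] {p : I → ℕ} [∀ i, Fact (p i).Prime]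
    (hp2 : ∀ i, p i ≠ 2) {V : ∀ i, Finset ℤ_[p i]ˣ} (hV : ∀ i x, x ∈ V i ↔ x ^ (p i - 1) = 1)
    (i0 : I) {E : Finset ℤ_[p i0]ˣ} (hE : EH (p i0) E) {Ω : Type*} [Field Ω]
    (G : (∀ i, ℤ_[p i]ˣ) → Ω) (hG : ∀ x, G (-x) = G x) :
    ∑ x ∈ Fintype.piFinset V, G x = 2 * ∑ x ∈ (Fintype.piFinset V).filter (fun x => x i0 ∈ E),
      G x := by
  have hst : ∀ x : (∀ i, ℤ_[p i]ˣ), x ∈ Fintype.piFinset V → -x ∈ Fintype.piFinset V := by
    intro x hx
    rw [Fintype.mem_piFinset] at hx ⊢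
    intro i
    rw [hV]
    exact Ha_neg (hp2 i) ((hV i _).1 (hx i))
  rw [← Finset.sum_filter_add_sum_filter_not (Fintype.piFinset V) (fun x => x i0 ∈ E) G, two_mul]
  congr 1
  refine Finset.sum_nbij' (fun x => -x) (fun x => -x) ?_ ?_ ?_ ?_ ?_
  · intro x hx
    rw [Finset.mem_filter] at hx ⊢
    refine ⟨hst x hx.1, ?_⟩
    have h1 := (hV i0 _).1 (Fintype.mem_piFinset.1 hx.1 i0)
    exact (hE.cov (x i0) h1).resolve_left hx.2
  · intro x hx
    rw [Finset.mem_filter] at hx ⊢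
    exact ⟨hst x hx.1, hE.neg (x i0) hx.2⟩
  · intro x _
    exact neg_neg x
  · intro x _
    exact neg_neg x
  · intro x _
    exact (hG x).symm

theorem irrM {I : Type} [Fintype I] {p : I → ℕ} [∀ i, Fact (p i).Prime]
    (hp2 : ∀ i, p i ≠ 2) (i0 : I) {E : Finset ℤ_[p i0]ˣ} (hE : EH (p i0) E)
    {x : ∀ i, ℤ_[p i]ˣ} (hx : ∀ i, x i ^ (p i - 1) = 1) (hxE : x i0 ∈ E) (hx1 : x ≠ 1) (n m : ℤ)
    (h : ∀ i, (n : ℤ_[p i]) * (x i : ℤ_[p i]) = m) : n = 0 := by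
  by_contra hn
  have hp0 : (p i0).Prime := Fact.out
  have hev : Even (p i0 - 1) := by
    obtain ⟨m, hm⟩ := hp0.odd_of_ne_two (hp2 i0)
    exact ⟨m, by omega⟩
  have hk0 : p i0 - 1 ≠ 0 := by
    have := hp0.two_le
    omega
  have h1 : (n : ℤ_[p i0]) ^ (p i0 - 1) = (m : ℤ_[p i0]) ^ (p i0 - 1) := by
    have h2 : ((x i0 : ℤ_[p i0]ˣ) : ℤ_[p i0]) ^ (p i0 - 1) = 1 := by
      rw [← Units.val_pow_eq_pow_val, hx i0, Units.val_one]
    rw [← h i0, mul_pow, h2, mul_one]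
  have h3 : n ^ (p i0 - 1) = m ^ (p i0 - 1) := by exact_mod_cast h1
  have h4 : |n| = |m| := by
    rw [← hev.pow_abs n, ← hev.pow_abs m] at h3
    exact (pow_left_inj₀ (abs_nonneg n) (abs_nonneg m) hk0).1 h3
  have hn0 : ∀ i, (n : ℤ_[p i]) ≠ 0 := by
    intro i
    exact_mod_cast hn
  rcases abs_eq_abs.1 h4 with h5 | h5
  · apply hx1
    funext i
    have h6 := h i
    rw [← h5] at h6
    have h7 : ((x i : ℤ_[p i]ˣ) : ℤ_[p i]) = 1 := by
      apply mul_left_cancel₀ (hn0 i)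
      rw [h6, mul_one]
    exact Units.ext h7
  · have h6 := h i0
    have h8 : m = -n := by omega
    rw [h8, Int.cast_neg] at h6
    have h7 : ((x i0 : ℤ_[p i0]ˣ) : ℤ_[p i0]) = -1 := by
      apply mul_left_cancel₀ (hn0 i0)
      rw [h6, mul_neg, mul_one]
    have h9 : x i0 = -1 := by
      apply Units.ext
      rw [h7, Units.val_neg, Units.val_one]
    rw [h9] at hxE
    exact hE.neg 1 hE.one hxE

end H2ZS
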