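import Pool.Agent.H2.ZS.Gr
import Pool.Agent.H46.TS.TH

/-!
ROW Nr (no relation; about 70 lines).  ADAPT `no_relation` in `Pool/Agent/H46/TS/TZ.lean`: `grp` is replaced by `grpM` (row Gr) with the index type `EE` (a finset) and `y x = fun i => (x i : ℤ_[p i])`; `final` of `Pool/Agent/H46/TS/TH.lean` is used with `Γ = ∀ i, ℤ_[p i]`, `i0 = ⟨1, h1⟩`.
`h1` of `final`: `n • (fun i => ((1 : ℤ_[p i]ˣ) : ℤ_[p i])) = 0` gives `(n : ℤ_[p i]) = 0` at any `i` (`I` is nonempty), so `n = 0`.  `hy`: `n • y x = m • y 1` gives `(n : ℤ_[p i]) * x i = m` for all `i`: `hirr`.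
-/

set_option autoImplicit false

namespace H2ZS

open Finset H5SW H46TS

open Classical in
theorem no_relationM {l : ℕ} [Fact l.Prime] {I : Type} [Fintype I] [DecidableEq I] [Nonempty I]
    {p : I → ℕ} [∀ i, Fact (p i).Prime] (hlp : ∀ i, l ≠ p i) (hinj : Function.Injective p)
    (e : I → ℕ) {EE : Finset (∀ i, ℤ_[p i]ˣ)} (h1 : (1 : ∀ i, ℤ_[p i]ˣ) ∈ EE)
    (hirr : ∀ x ∈ EE, x ≠ 1 → ∀ n m : ℤ, (∀ i, (n : ℤ_[p i]) * (x i : ℤ_[p i]) = m) → n = 0)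
    (Q : ℕ) :
    ∃ k0 : ℕ, ∀ k : I → ℕ, (∀ i, k0 ≤ k i) → ∀ (Ω : Type) [Field Ω] [CharP Ω l] (z : I → Ω),
      (∀ i, IsPrimitiveRoot (z i) (p i ^ (k i + 1))) → ∀ N : (∀ i, ℤ_[p i]ˣ) → ℕ → Ω,
      (∃ m < Q, N 1 m ≠ 0) →
        ¬ ∀ b : ℕ, ∑ x ∈ EE, (∑ m ∈ range Q, N x m *
            (EV z fun a => ((1 + (∏ j, p j ^ e j) * b : ℕ) : ZMod (p a ^ (k a + 1))) *
              rdM k (fun i => (x i : ℤ_[p i])) a) ^ m) *
          ∏ y ∈ EE.erase x, (1 - (EV z fun a => ((1 + (∏ j, p j ^ e j) * b : ℕ) :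
            ZMod (p a ^ (k a + 1))) * rdM k (fun i => (y i : ℤ_[p i])) a) ^ Q) = 0 := by
  obtain ⟨k0, hk0⟩ := grpM (l := l) hlp hinj e
    (fun x : EE => fun i => (((x : ∀ i, ℤ_[p i]ˣ) i : ℤ_[p i]ˣ) : ℤ_[p i])) Q
  refine ⟨k0, fun k hk Ω _ _ z hz N hN H => ?_⟩
  have h1' := hk0 k hk Ω z hz (fun x m => N (x : ∀ i, ℤ_[p i]ˣ) (m : ℕ)) (by
    intro b
    rw [← H b, ← Finset.sum_coe_sort EE]
    refine sum_congr rfl fun x _ => ?_
    rw [← Finset.sum_range (f := fun m => N (x : ∀ i, ℤ_[p i]ˣ) m *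
      (EV z fun a => ((1 + (∏ j, p j ^ e j) * b : ℕ) : ZMod (p a ^ (k a + 1))) *
        rdM k (fun i => (((x : ∀ i, ℤ_[p i]ˣ) i : ℤ_[p i]ˣ) : ℤ_[p i])) a) ^ m)]
    congr 1
    rw [← Finset.prod_coe_sort (EE.erase x)]
    refine Finset.prod_bij' (fun y hy => ⟨(y : ∀ i, ℤ_[p i]ˣ), Finset.mem_erase.2
      ⟨fun h => (Finset.mem_erase.1 hy).1 (Subtype.ext h), y.2⟩⟩)
      (fun y _ => ⟨(y : ∀ i, ℤ_[p i]ˣ), (Finset.mem_erase.1 y.2).2⟩) ?_ ?_ ?_ ?_ ?_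
    · intro y hy
      exact mem_univ _
    · intro y hy
      rw [Finset.mem_erase]
      exact ⟨fun h => (Finset.mem_erase.1 y.2).1 (congrArg Subtype.val h), mem_univ _⟩
    · intro y hy
      rfl
    · intro y hy
      rfl
    · intro y hy
      rfl)
  obtain ⟨m, hm, hm2⟩ := hN
  have h2 := final (fun x : EE => fun i => (((x : ∀ i, ℤ_[p i]ˣ) i : ℤ_[p i]ˣ) : ℤ_[p i]))
    (⟨1, h1⟩ : EE) (by
      intro n hn
      obtain ⟨i⟩ := ‹Nonempty I›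
      have h3 := congrFun hn i
      simp only [Pi.smul_apply, Pi.one_apply, Units.val_one, zsmul_eq_mul, mul_one,
        Pi.zero_apply] at h3
      exact_mod_cast h3) (by
      intro x hx n m' hnm
      refine hirr x.1 x.2 (fun h => hx (Subtype.ext h)) n m' (fun i => ?_)
      have h3 := congrFun hnm i
      simp only [Pi.smul_apply, Pi.one_apply, Units.val_one, zsmul_eq_mul, mul_one] at h3
      exact h3) _ h1' ⟨m, hm⟩
  exact hm2 h2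

end H2ZS
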