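import Pool.Agent.H2.ZS.Df

/-!
ROW Po (sums of `Fc` over the translates by roots of unity, several primes; about 110 lines).  ADAPT `TG_sum` and `poly` in `Pool/Agent/H46/TS/TG.lean` (with `Fc_big`, `TG_geom` used from there).  PROOF.
`PP = ∏ i, P i`. `N m = if ∀ i, ρ i * ω i ^ m = 1 then (PP : Ω) * c m else 0`. For `X^(PP * M) ≠ 1`: `(∏ i, ω i ^ t i)^(PP * M) = 1` (each `P i ∣ PP`), so `Fc_big c` (with `P = PP`) for `x = (∏ i, ω i ^ t i) * X` gives
`∑_t (∏ ρ i ^ t i) * Fc c ((∏ ω i ^ t i) * X) = (∑_{n<PP*M} c n X^n * ∑_t ∏ i, (ρ i * ω i ^ n) ^ t i) / (1 - X^(PP*M))`, and `∑_{t ∈ piFinset (range (P i))} ∏ i, (ρ i ω i ^ n)^(t i) = ∏ i, ∑_{j < P i} (ρ i ω i ^ n)^j` (`Finset.prod_univ_sum`), which is `∏ i, (if ρ i ω i^n = 1 then P i else 0)`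
(`TG_geom`), that is `PP` if all conditions hold and `0` otherwise.
Non vanishing: `c a ≠ 0`; `ρ i⁻¹ = ω i ^ r i` (`IsPrimitiveRoot.eq_pow_of_pow_eq_one`); by the Chinese remainder theorem there is `m < PP * M` with `m ≡ r i mod P i` for all `i` and `m ≡ a.val mod M`: first `m0` with `m0 ≡ r i mod P i` (`Nat.chineseRemainderOfFinset` with `Finset.univ`, pairwise coprime moduli, or
by the ring isomorphism `ZMod.prodEquivPi`), then `Nat.chineseRemainder` for `PP` and `M` (`Nat.Coprime.prod_left`). Then `ω i ^ m = ω i ^ r i` as in `poly`, `N m = PP * c a ≠ 0`.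
-/

set_option autoImplicit false

namespace H2ZS

open Finset H46TS

theorem polyM {I : Type} [Fintype I] [DecidableEq I] {Ω : Type*} [Field Ω] {P : I → ℕ} {M : ℕ}
    [NeZero M] (hP : ∀ i, 0 < P i) (hcop : ∀ i j, i ≠ j → Nat.Coprime (P i) (P j))
    (hPM : ∀ i, (P i).Coprime M) (hPΩ : ∀ i, ((P i : ℕ) : Ω) ≠ 0) {ω ρ : I → Ω}
    (hω : ∀ i, IsPrimitiveRoot (ω i) (P i)) (hρ : ∀ i, ρ i ^ P i = 1) {c : ZMod M → Ω}
    (hc : ∃ a, c a ≠ 0) :
    ∃ N : ℕ → Ω, (∃ m < (∏ i, P i) * M, N m ≠ 0) ∧ ∀ X : Ω, X ^ ((∏ i, P i) * M) ≠ 1 →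
      ∑ t ∈ Fintype.piFinset (fun i => range (P i)), (∏ i, ρ i ^ t i) *
          Fc c ((∏ i, ω i ^ t i) * X) =
        (∑ m ∈ range ((∏ i, P i) * M), N m * X ^ m) / (1 - X ^ ((∏ i, P i) * M)) := by
  classical
  set PP : ℕ := ∏ i, P i with hPP
  refine ⟨fun m => if ∀ i, ρ i * ω i ^ m = 1 then (PP : Ω) * c (m : ZMod M) else 0, ?_, ?_⟩
  · obtain ⟨a, ha⟩ := hc
    have hρ0 : ∀ i, ρ i ≠ 0 := by
      intro i h
      have h1 := hρ i
      rw [h, zero_pow (hP i).ne'] at h1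
      exact zero_ne_one h1
    have hr : ∀ i, ∃ r, r < P i ∧ ω i ^ r = (ρ i)⁻¹ := by
      intro i
      have : NeZero (P i) := ⟨(hP i).ne'⟩
      obtain ⟨r, h1, h2⟩ := (hω i).eq_pow_of_pow_eq_one
        (show ((ρ i)⁻¹) ^ P i = 1 by rw [inv_pow, hρ i, inv_one])
      exact ⟨r, h1, h2⟩
    choose r _ hr using hr
    have hPP0 : PP ≠ 0 := by
      rw [hPP]
      exact Finset.prod_ne_zero_iff.2 fun i _ => (hP i).ne'
    have hcPM : PP.Coprime M := Nat.Coprime.prod_left fun i _ => hPM i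
    obtain ⟨m0, hm0⟩ := Nat.chineseRemainderOfFinset r P (Finset.univ : Finset I)
      (fun i _ => (hP i).ne') (fun i _ j _ hij => hcop i j hij)
    obtain ⟨m, hm1, hm2⟩ : ∃ m < PP * M, m ≡ m0 [MOD PP] ∧ m ≡ a.val [MOD M] :=
      ⟨(Nat.chineseRemainder hcPM m0 a.val : ℕ),
        Nat.chineseRemainder_lt_mul hcPM m0 a.val hPP0 (NeZero.ne M),
        (Nat.chineseRemainder hcPM m0 a.val).2⟩
    refine ⟨m, hm1, ?_⟩
    have h1 : ∀ i, ρ i * ω i ^ m = 1 := by
      intro i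
      have hd : P i ∣ PP := Finset.dvd_prod_of_mem P (Finset.mem_univ i)
      have h4 : m % P i = r i % P i := (hm2.1.of_dvd hd).trans (hm0 i (Finset.mem_univ i))
      have h5 : ω i ^ m = ω i ^ r i := by
        rw [← pow_mod_orderOf (ω i) m, ← pow_mod_orderOf (ω i) (r i), ← (hω i).eq_orderOf, h4]
      rw [h5, hr i, mul_inv_cancel₀ (hρ0 i)]
    have h2 : (m : ZMod M) = a := by
      have h3 := (ZMod.natCast_eq_natCast_iff m a.val M).2 hm2.2
      rw [h3, ZMod.natCast_zmod_val]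
    have h3 : (fun m : ℕ => if ∀ i, ρ i * ω i ^ m = 1 then (PP : Ω) * c (m : ZMod M) else 0) m =
        (PP : Ω) * c a := by
      simp only [h2]
      exact if_pos h1
    rw [h3]
    refine mul_ne_zero ?_ ha
    rw [hPP, Nat.cast_prod]
    exact Finset.prod_ne_zero_iff.2 fun i _ => hPΩ i
  · intro X hX
    have h1 : ∀ t : I → ℕ, ((∏ i, ω i ^ t i) * X) ^ (PP * M) = X ^ (PP * M) := by
      intro t
      have h2 : (∏ i, ω i ^ t i) ^ (PP * M) = 1 := by
        rw [← Finset.prod_pow]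
        refine Finset.prod_eq_one fun i _ => ?_
        have hd : P i ∣ PP := Finset.dvd_prod_of_mem P (Finset.mem_univ i)
        obtain ⟨k, hk⟩ := hd
        have h3 : t i * (PP * M) = P i * (k * M * t i) := by rw [hk]; ring
        rw [← pow_mul, h3, pow_mul, (hω i).pow_eq_one, one_pow]
      rw [mul_pow, h2, one_mul]
    have h2 : ∀ t ∈ Fintype.piFinset (fun i => range (P i)), (∏ i, ρ i ^ t i) *
          Fc c ((∏ i, ω i ^ t i) * X) =
        (∑ n ∈ range (PP * M), c (n : ZMod M) * X ^ n * ∏ i, (ρ i * ω i ^ n) ^ t i) /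
          (1 - X ^ (PP * M)) := by
      intro t _
      rw [Fc_big c (P := PP) (by rw [h1]; exact hX), h1, mul_div_assoc', mul_sum]
      congr 1
      refine sum_congr rfl fun n _ => ?_
      have h3 : ∏ i, (ρ i * ω i ^ n) ^ t i = (∏ i, ρ i ^ t i) * (∏ i, ω i ^ t i) ^ n := by
        rw [← Finset.prod_pow, ← Finset.prod_mul_distrib]
        refine Finset.prod_congr rfl fun i _ => ?_
        rw [mul_pow, ← pow_mul, ← pow_mul, mul_comm n (t i)]
      rw [h3, mul_pow]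
      ring
    rw [sum_congr rfl h2, ← sum_div, sum_comm]
    congr 1
    refine sum_congr rfl fun n _ => ?_
    rw [← mul_sum]
    have h4 : ∑ t ∈ Fintype.piFinset (fun i => range (P i)), ∏ i, (ρ i * ω i ^ n) ^ t i =
        ∏ i, (if ρ i * ω i ^ n = 1 then (P i : Ω) else 0) := by
      rw [← Finset.prod_univ_sum (fun i => range (P i)) (fun i j => (ρ i * ω i ^ n) ^ j)]
      refine Finset.prod_congr rfl fun i _ => ?_
      have h3 : (ρ i * ω i ^ n) ^ P i = 1 := by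
        rw [mul_pow, hρ i, ← pow_mul, mul_comm n (P i), pow_mul, (hω i).pow_eq_one, one_pow,
          one_mul]
      exact TG_geom h3
    rw [h4]
    beta_reduce
    by_cases h5 : ∀ i, ρ i * ω i ^ n = 1
    · rw [if_pos h5]
      have h6 : ∏ i, (if ρ i * ω i ^ n = 1 then (P i : Ω) else 0) = (PP : Ω) := by
        rw [hPP, Nat.cast_prod]
        exact Finset.prod_congr rfl fun i _ => if_pos (h5 i)
      rw [h6]
      ring
    · rw [if_neg h5]
      push Not at h5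
      obtain ⟨i, hi⟩ := h5
      have h6 : ∏ i, (if ρ i * ω i ^ n = 1 then (P i : Ω) else 0) = 0 :=
        Finset.prod_eq_zero (Finset.mem_univ i) (if_neg hi)
      rw [h6]
      ring

end H2ZS
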