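import Pool.Agent.H2.ZS.Rs
import Pool.Agent.H2.ZS.Co

/-!
ROW Re (the relation; about 130 lines).  ADAPT `rel` in `Pool/Agent/H46/TS/TF.lean`.  PROOF.
`P0 = ∏ j, p j ^ e j`. `u1 i` the unit with value `1 + p i ^ (k i + 1 - e i)` (`TF_unit`), `ρ i = cmp χ i (u1 i)` (as an element of `Ω`); `ρ i ^ (p i ^ e i) = 1` as `u1 i ^ (p i ^ e i) = 1` (`S3_u1ord`). For `b`: `a i` the unit with value `1 + P0 * b` modulo `p i ^ (k i + 1)`
(`TF_unit` with `m = P0 * b`, `p i ∣ P0` by `Finset.dvd_prod_of_mem` and `(hQ i).e1`).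
`restr` (row Rs) with `n i = p i ^ (k i + 1)`, `J = ∏ i, p i ^ (k i + 1 - e i)`: `hy` is `pow_all` (row St, `e i ≤ k i + 1` from `hek`), `hJq`: a prime `r ∣ J` is some `p i` (`Prime.exists_mem_finset_dvd`, `Nat.prime_dvd_prime_iff_eq`), `p i ∣ l^s - 1` by `(hQ i).dvd`, `(J : Ω) ≠ 0`: `Nat.cast_prod`,
`Finset.prod_ne_zero_iff`, `H46TS.cast_ne (hlp i)`. `l` is prime to `p i ^ (k i + 1)`.
Then `cosetsM` (row Co) with `h u = χ (u * a⁻¹) * F (EV z u)`. `χ (a * red x * u1^t * a⁻¹) = χ (redM k x) * ∏ i, ρ i ^ t i` (`chi_prod` for `fun i => u1 i ^ t i`, or `map_mul` and `map_pow`; `cmp` is `rfl`), and the value of `EV`: the argument `a i * red x i * u1 i ^ t i` has the value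
`(1 + P0 b) * (1 + p i ^ (k i + 1 - e i) * t i) * toZModPow (k i + 1) (x i)` in `ZMod (p i ^ (k i + 1))` by `TF_pow (hek i) (u1 i) (hu1 i) (t i)`; `congrArg (EV z)` and `funext`.
-/

set_option autoImplicit false

namespace H2ZS

open Finset H5SW H46TS

theorem relM {I : Type} [Fintype I] [DecidableEq I] {p k e : I → ℕ} [∀ i, Fact (p i).Prime]
    {Ω : Type} [Field Ω] {l s : ℕ} [Fact l.Prime] [CharP Ω l] (hp2 : ∀ i, p i ≠ 2)
    (hlp : ∀ i, l ≠ p i)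
    (hinj : Function.Injective p) (hQ : ∀ i, QD l (p i) (e i) s) (hs : 1 ≤ s)
    (hek : ∀ i, 2 * e i ≤ k i + 1)
    {V : ∀ i, Finset ℤ_[p i]ˣ} (hV : ∀ i x, x ∈ V i ↔ x ^ (p i - 1) = 1)
    {z : I → Ω} (hz : ∀ i, z i ^ (p i ^ (k i + 1)) = 1) {F : Ω → Ω}
    (hF : ∀ (i : ℕ) (x : Ω), F x ^ ((l ^ s) ^ i) = F (x ^ ((l ^ s) ^ i)))
    (χ : (∀ i, (ZMod (p i ^ (k i + 1)))ˣ) →* Ωˣ) (hχ : ∀ i, Prim (cmp χ i))
    (h0 : ∑ u : ∀ i, (ZMod (p i ^ (k i + 1)))ˣ,
      (χ u : Ω) * F (EV z fun i => (u i : ZMod (p i ^ (k i + 1)))) = 0) :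
    ∃ ρ : I → Ω, (∀ i, ρ i ^ (p i ^ e i) = 1) ∧ ∀ b : ℕ,
      ∑ x ∈ Fintype.piFinset V, (χ (redM k x) : Ω) *
        ∑ t ∈ Fintype.piFinset (fun i => range (p i ^ e i)), (∏ i, ρ i ^ t i) *
          F (EV z fun i => (((1 + (∏ j, p j ^ e j) * b) * (1 + p i ^ (k i + 1 - e i) * t i) : ℕ) :
            ZMod (p i ^ (k i + 1))) * rdM k (fun i => (x i : ℤ_[p i])) i) = 0 := by
  classical
  have he1 : ∀ i, 1 ≤ e i := fun i => (hQ i).e1
  have hke : ∀ i, k i + 1 - e i ≠ 0 := fun i => by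
    have h1 := hek i
    have h2 := he1 i
    omega
  choose u1 hu1 using fun i => TF_unit (p := p i) (k := k i) (m := p i ^ (k i + 1 - e i))
    (dvd_pow_self (p i) (hke i))
  have hu1' : ∀ i, (u1 i : ZMod (p i ^ (k i + 1))) =
      1 + (p i : ZMod (p i ^ (k i + 1))) ^ (k i + 1 - e i) := by
    intro i
    rw [hu1 i]
    push_cast
    ring
  refine ⟨fun i => ((cmp χ i (u1 i) : Ωˣ) : Ω), ?_, fun b => ?_⟩
  · intro i
    show ((cmp χ i (u1 i) : Ωˣ) : Ω) ^ (p i ^ e i) = 1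
    rw [← Units.val_pow_eq_pow_val, ← map_pow, S3_u1ord (hek i) (u1 i) (hu1' i), map_one,
      Units.val_one]
  · choose a ha using fun i => TF_unit (p := p i) (k := k i) (m := (∏ j, p j ^ e j) * b)
      (((dvd_pow_self (p i) (Nat.one_le_iff_ne_zero.1 (he1 i))).trans
        (Finset.dvd_prod_of_mem (fun j => p j ^ e j) (Finset.mem_univ i))).trans
        (dvd_mul_right _ _))
    have hln : ∀ i, Nat.Coprime l (p i ^ (k i + 1)) := fun i =>
      Nat.Coprime.pow_right _ ((Nat.coprime_primes Fact.out Fact.out).2 (hlp i))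
    have hJ0 : ((∏ i, p i ^ (k i + 1 - e i) : ℕ) : Ω) ≠ 0 := by
      rw [Nat.cast_prod]
      exact Finset.prod_ne_zero_iff.2 fun i _ => cast_ne (hlp i) _ Ω
    have hJq : ∀ r : ℕ, r.Prime → r ∣ ∏ i, p i ^ (k i + 1 - e i) → r ∣ l ^ s - 1 ∧ r ≠ 2 := by
      intro r hr hrd
      obtain ⟨i, _, hi⟩ := hr.prime.exists_mem_finset_dvd hrd
      have h1 : r ∣ p i := hr.dvd_of_dvd_pow hi
      have h2 : r = p i := (Nat.prime_dvd_prime_iff_eq hr Fact.out).1 h1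
      rw [h2]
      exact ⟨(dvd_pow_self (p i) (Nat.one_le_iff_ne_zero.1 (he1 i))).trans (hQ i).dvd, hp2 i⟩
    have h1 := restr (n := fun i => p i ^ (k i + 1)) hs hln hz hF χ hJ0 hJq
      (fun v => pow_all hQ (fun i => by have := hek i; omega) χ v) h0 a
    have h2 := cosetsM hp2 hinj hQ hek hV χ hχ a u1 hu1'
      (fun u => (χ (u * a⁻¹) : Ω) * F (EV z fun i => (u i : ZMod (p i ^ (k i + 1)))))
    rw [h1] at h2
    refine Eq.trans ?_ h2.symm
    refine Finset.sum_congr rfl fun x _ => ?_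
    rw [Finset.mul_sum]
    refine Finset.sum_congr rfl fun t _ => ?_
    have e0 : (fun i => a i * red (k i + 1) (x i) * u1 i ^ t i) * a⁻¹ =
        redM k x * (fun i => u1 i ^ t i) := by
      funext i
      show a i * red (k i + 1) (x i) * u1 i ^ t i * (a i)⁻¹ = red (k i + 1) (x i) * u1 i ^ t i
      rw [mul_assoc (a i), mul_inv_cancel_comm]
    have e3 : (χ ((fun i => a i * red (k i + 1) (x i) * u1 i ^ t i) * a⁻¹) : Ω) =
        (χ (redM k x) : Ω) * ∏ i, ((cmp χ i (u1 i) : Ωˣ) : Ω) ^ t i := by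
      rw [e0, map_mul, Units.val_mul, chi_prod χ (fun i => u1 i ^ t i), Units.coe_prod]
      congr 1
      refine Finset.prod_congr rfl fun i _ => ?_
      rw [map_pow, Units.val_pow_eq_pow_val]
    have e4 : (fun i => (((1 + (∏ j, p j ^ e j) * b) * (1 + p i ^ (k i + 1 - e i) * t i) : ℕ) :
            ZMod (p i ^ (k i + 1))) * rdM k (fun i => (x i : ℤ_[p i])) i) =
        fun i => ((a i * red (k i + 1) (x i) * u1 i ^ t i : (ZMod (p i ^ (k i + 1)))ˣ) :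
          ZMod (p i ^ (k i + 1))) := by
      funext i
      rw [Units.val_mul, Units.val_mul, TF_pow (hek i) (u1 i) (hu1' i) (t i), ha i]
      show _ = _ * PadicInt.toZModPow (k i + 1) (x i : ℤ_[p i]) * _
      show _ * PadicInt.toZModPow (k i + 1) (x i : ℤ_[p i]) = _
      push_cast
      ring
    show (χ (redM k x) : Ω) * ((∏ i, ((cmp χ i (u1 i) : Ωˣ) : Ω) ^ t i) * _) =
      (χ ((fun i => a i * red (k i + 1) (x i) * u1 i ^ t i) * a⁻¹) : Ω) *
        F (EV z fun i => ((a i * red (k i + 1) (x i) * u1 i ^ t i : (ZMod (p i ^ (k i + 1)))ˣ) :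
          ZMod (p i ^ (k i + 1))))
    rw [e3, e4, mul_assoc]

end H2ZS
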