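import Pool.Agent.H2.ZS.Dfb
import Pool.Agent.H2.ZS.Re
import Pool.Agent.H2.ZS.Po
import Pool.Agent.H2.ZS.Ha
import Pool.Agent.H2.ZS.Nr

/-!
ROW Jt (the joint non vanishing theorem; about 190 lines).  ADAPT `sinnotte` in `Pool/Agent/H78/MH/Sn.lean`.  PROOF.
`exists_QDM`: `s = s0 * totient (∏ i, p i * r i)`, `r i` the prime to `l` part of `p i - 1` (as `exists_QD` in `Pool/Agent/H46/TS/TA.lean`); `e i = padicValNat (p i) (l^s - 1)`. (Or: take `s = ∏` of the `s_i` of `exists_QD` for the single primes with `s0`; `QD` for a multiple `s` of `s_i` with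
a new `e i = padicValNat (p i) (l^s - 1)`, using `l^(s_i) - 1 ∣ l^s - 1` (`Nat.pow_sub_one_dvd_pow_sub_one`-type lemma or `sub_one_dvd`).)
`joint`: `i0 : I` arbitrary, `V i` from `exists_V`, `E` from `exists_EH (hp2 i0)`, `EE = (Fintype.piFinset V).filter (fun x => x i0 ∈ E)`, `1 ∈ EE`, `hirr` is `irrM`. `P0 = ∏ i, p i ^ e i`, `Q = P0 * M`, `k0 = max (2 * ∑ e i) (k0 of no_relationM)`, so `2 e i ≤ k i + 1`.
Suppose the sum is zero. `relM` (row Re) with `F = Fc c` (`Fc_frob` gives `hF`; `c a ^ (l^s) = c a` as in `sinnotte`) gives `ρ` and the relations over `x ∈ piFinset V`. The summand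
`G x = χ (redM k x) * ∑_t (∏ ρ i ^ t i) * Fc c (EV z (fun i => ((1 + P0 b)(1 + p i^(k i+1-e i) t i)) * x i))` satisfies `G (-x) = G x`: `χ (redM k (-x)) = χ (-1) * χ (redM k x) = ε χ (redM k x)`, the argument of `Fc` becomes the inverse (`EV_neg`), `Fc_inve` gives the factor `ε` (`EV_ne`), `ε * ε = 1`.
So by `sum_halfM` `2 * ∑_{x ∈ EE} G x = 0`, `2 ≠ 0` as `l ≠ 2`.
`EV z (fun i => (1 + P0 b)(1 + p i^(k i+1-e i) t i) x i) = (∏ i, ω i ^ t i) * X`, `X = EV z (fun i => (1 + P0 b) x i)`, `ω i = z i ^ (p i ^ (k i + 1 - e i) * (rdM k x i).val)`, primitive of order `p i ^ e i` (`IsPrimitiveRoot.pow`, `pow_of_coprime`, `SB_cop`): the `i`-th factor: exponents modulo `p i ^ (k i + 1)`: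
`(1 + P0 b)(1 + p^(k+1-e) t) x = (1 + P0 b) x + p^(k+1-e) t x + p^(k+1-e) P0 b t x` and `p^(k+1) ∣ p^(k+1-e) * P0`. By `polyM` (row Po, `P i = p i ^ e i`) the inner sum is `(∑_{m<Q} N x m X^m) / (1 - X^Q)`, `N 1 m ≠ 0` for some `m < Q`; `X^Q ≠ 1`: by `EV_unit` (the unit `(1 + P0 b) x i`),
`X^Q = 1` would give `p i ^ (k i + 1) ∣ Q = P0 * M`, so `p i ^ (k i + 1) ∣ p i ^ e i` (the other factors are prime to `p i`), contradiction with `2 e i ≤ k i + 1`, `1 ≤ e i`. Multiply by `∏_{y ∈ EE} (1 - X_y^Q)` as at the end of `sinnotte`, with `N' x m = χ (redM k x) * N x m`: contradiction with `no_relationM`.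
-/

set_option autoImplicit false

namespace H2ZS

open Finset H5SW H46TS H78H

theorem exists_QDM {l : ℕ} [Fact l.Prime] {I : Type} [Fintype I] {p : I → ℕ}
    [∀ i, Fact (p i).Prime] (hlp : ∀ i, l ≠ p i) (s0 : ℕ) (hs0 : 1 ≤ s0) :
    ∃ (e : I → ℕ) (s : ℕ), (∀ i, QD l (p i) (e i) s) ∧ 1 ≤ s ∧ s0 ∣ s := by
  have hl : l.Prime := Fact.out
  choose e0 s1 hQ hd using fun i => exists_QD (hlp i) s0 hs0
  obtain ⟨s, hs⟩ : ∃ s, s = s0 * ∏ i, s1 i := ⟨_, rfl⟩
  have hs1 : 1 ≤ s := by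
    rw [hs]
    exact Nat.mul_pos hs0 (Finset.prod_pos fun i _ => (hQ i).s1)
  have h2s : 1 < l ^ s := Nat.one_lt_pow (by omega) hl.one_lt
  have hne : l ^ s - 1 ≠ 0 := by omega
  have hdd : ∀ i, l ^ s1 i - 1 ∣ l ^ s - 1 := by
    intro i
    have h1 : s1 i ∣ s := by
      rw [hs]
      exact (Finset.dvd_prod_of_mem s1 (Finset.mem_univ i)).trans (dvd_mul_left _ _)
    obtain ⟨c, hc⟩ := h1
    rw [hc, pow_mul]
    have h2 := Nat.sub_dvd_pow_sub_pow (l ^ s1 i) 1 c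
    rwa [one_pow] at h2
  refine ⟨fun i => padicValNat (p i) (l ^ s - 1), s, fun i => ⟨?_, hs1, pow_padicValNat_dvd,
    pow_succ_padicValNat_not_dvd hne, ?_⟩, hs1, ?_⟩
  · refine one_le_padicValNat_of_dvd hne ?_
    exact ((dvd_pow_self (p i) (Nat.one_le_iff_ne_zero.1 (hQ i).e1)).trans (hQ i).dvd).trans (hdd i)
  · intro r hr hrd
    exact ((hQ i).cop r hr hrd).trans (hdd i)
  · rw [hs]
    exact dvd_mul_right _ _

private theorem Jt_alg {X : Type} [DecidableEq X] {Ω : Type} [Field Ω] (EE : Finset X)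
    (A D : X → Ω) (hD : ∀ x, D x ≠ 0) (h : ∑ x ∈ EE, A x / D x = 0) :
    ∑ x ∈ EE, A x * ∏ y ∈ EE.erase x, D y = 0 := by
  have h8 : (∏ y ∈ EE, D y) * ∑ x ∈ EE, A x / D x = 0 := by rw [h, mul_zero]
  rw [← h8, mul_sum]
  refine sum_congr rfl fun x hx => ?_
  rw [← Finset.mul_prod_erase EE _ hx]
  have h9 := hD x
  generalize ∏ y ∈ EE.erase x, D y = V
  field_simp

private theorem Jt_redneg {I : Type} {p : I → ℕ} [∀ i, Fact (p i).Prime] (k : I → ℕ)
    (x : ∀ i, ℤ_[p i]ˣ) : redM k (-x) = - redM k x := by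
  funext i
  rw [← Units.val_inj]
  show PadicInt.toZModPow (k i + 1) ((-(x i) : ℤ_[p i]ˣ) : ℤ_[p i]) =
    - PadicInt.toZModPow (k i + 1) ((x i : ℤ_[p i]ˣ) : ℤ_[p i])
  rw [Units.val_neg, map_neg]

private theorem Jt_rdneg {I : Type} {p : I → ℕ} [∀ i, Fact (p i).Prime] (k : I → ℕ)
    (x : ∀ i, ℤ_[p i]ˣ) (i : I) : rdM k (fun i => ((-x) i : ℤ_[p i])) i =
      - rdM k (fun i => (x i : ℤ_[p i])) i := by
  show PadicInt.toZModPow (k i + 1) ((-(x i) : ℤ_[p i]ˣ) : ℤ_[p i]) =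
    - PadicInt.toZModPow (k i + 1) ((x i : ℤ_[p i]ˣ) : ℤ_[p i])
  rw [Units.val_neg, map_neg]

private theorem Jt_step {Ω : Type} [Field Ω] {p k e v b t P0 : ℕ} [Fact p.Prime] {z : Ω}
    (hz : z ^ (p ^ (k + 1)) = 1) (hek : e ≤ k + 1) (hP : p ^ e ∣ P0) (r : ZMod (p ^ (k + 1)))
    (hv : r.val = v) :
    z ^ ((((1 + P0 * b) * (1 + p ^ (k + 1 - e) * t) : ℕ) : ZMod (p ^ (k + 1))) * r).val =
      (z ^ (p ^ (k + 1 - e) * v)) ^ t * z ^ (((1 + P0 * b : ℕ) : ZMod (p ^ (k + 1))) * r).val := by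
  have hp : p.Prime := Fact.out
  have hne : NeZero (p ^ (k + 1)) := ⟨pow_ne_zero _ hp.ne_zero⟩
  rw [← pow_mul, ← pow_add]
  refine SB_pow hz ?_
  rw [← hv]
  push_cast
  rw [ZMod.natCast_zmod_val, ZMod.natCast_zmod_val, ZMod.natCast_zmod_val]
  have h6 : ((p : ZMod (p ^ (k + 1))) ^ (k + 1 - e) * (P0 : ZMod (p ^ (k + 1)))) = 0 := by
    obtain ⟨c, rfl⟩ := hP
    have h7 : (((p ^ (k + 1) : ℕ)) : ZMod (p ^ (k + 1))) = 0 := ZMod.natCast_self _
    have h8 : (p : ZMod (p ^ (k + 1))) ^ (k + 1 - e) * (p : ZMod (p ^ (k + 1))) ^ e = 0 := by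
      rw [← pow_add, Nat.sub_add_cancel hek]
      rw [Nat.cast_pow] at h7
      exact h7
    rw [Nat.cast_mul, Nat.cast_pow, ← mul_assoc, h8, zero_mul]
  linear_combination (b * t * r : ZMod (p ^ (k + 1))) * h6

theorem joint {l M s0 : ℕ} [Fact l.Prime] [NeZero M] {I : Type} [Fintype I] [DecidableEq I]
    [Nonempty I] {p : I → ℕ} [∀ i, Fact (p i).Prime] (hl2 : l ≠ 2) (hp2 : ∀ i, p i ≠ 2)
    (hlp : ∀ i, l ≠ p i) (hinj : Function.Injective p) (hpM : ∀ i, (p i).Coprime M)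
    (hs0 : 1 ≤ s0) : ∃ K : ℕ, JTP l M s0 K p := by
  classical
  have hl : l.Prime := Fact.out
  have hp : ∀ i, (p i).Prime := fun i => Fact.out
  obtain ⟨e, s, hQ, hs, hs0s⟩ := exists_QDM hlp s0 hs0
  obtain ⟨i0⟩ := ‹Nonempty I›
  have hI : Nonempty I := ⟨i0⟩
  choose V hV using fun i => exists_V (hp2 i)
  obtain ⟨E, hE⟩ := exists_EH (hp2 i0)
  have h1EE : (1 : ∀ i, ℤ_[p i]ˣ) ∈ (Fintype.piFinset V).filter (fun x => x i0 ∈ E) := by
    rw [mem_filter, Fintype.mem_piFinset]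
    refine ⟨fun i => (hV i _).2 ?_, hE.one⟩
    rw [Pi.one_apply, one_pow]
  obtain ⟨k0, hk0⟩ := no_relationM (l := l) hlp hinj e h1EE
    (fun x hx hx1 n m h => by
      rw [mem_filter, Fintype.mem_piFinset] at hx
      exact irrM hp2 i0 hE (fun i => (hV i _).1 (hx.1 i)) hx.2 hx1 n m h)
    ((∏ i, p i ^ e i) * M)
  refine ⟨max (2 * ∑ i, e i) k0, ?_⟩
  intro k hk Ω _ _ z hz ε hε c hc χ hev hprim h0
  have hk1 : ∀ i, 2 * e i ≤ k i := by
    intro i
    have h1 : e i ≤ ∑ i, e i := Finset.single_le_sum (fun i _ => Nat.zero_le (e i)) (Finset.mem_univ i)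
    have h2 := (le_max_left _ _).trans (hk i)
    omega
  have hk2 : ∀ i, k0 ≤ k i := fun i => (le_max_right _ _).trans (hk i)
  have hek : ∀ i, 2 * e i ≤ k i + 1 := fun i => (hk1 i).trans (Nat.le_succ _)
  have hnz : ∀ i, NeZero (p i ^ (k i + 1)) := fun i => ⟨pow_ne_zero _ (hp i).ne_zero⟩
  have hcs0 : ∀ (j : ℕ) (a : ZMod M), c a ^ (l ^ (s0 * j)) = c a := by
    intro j a
    induction j with
    | zero => simp
    | succ j ih =>
      rw [Nat.mul_succ, pow_add, pow_mul, ih, hc.fro]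
  have hcs : ∀ a, c a ^ (l ^ s) = c a := by
    intro a
    obtain ⟨j, hj⟩ := hs0s
    rw [hj]
    exact hcs0 j a
  have hz1 : ∀ i, z i ^ (p i ^ (k i + 1)) = 1 := fun i => (hz i).pow_eq_one
  obtain ⟨ρ, hρ, hrel⟩ := relM (l := l) hp2 hlp hinj hQ hs hek hV hz1 (F := Fc c)
    (fun i x => Fc_frob hcs i x) χ hprim h0
  set P0 : ℕ := ∏ j, p j ^ e j with hP0
  have hPd : ∀ i, p i ^ e i ∣ P0 := fun i =>
    Finset.dvd_prod_of_mem (fun j => p j ^ e j) (Finset.mem_univ i)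
  have h2Ω : (2 : Ω) ≠ 0 := by
    intro h
    have h1 : ((2 : ℕ) : Ω) = 0 := by exact_mod_cast h
    rw [CharP.cast_eq_zero_iff Ω l 2] at h1
    exact hl2 ((Nat.prime_dvd_prime_iff_eq hl Nat.prime_two).1 h1)
  -- the half sum
  have hhalf : ∀ b : ℕ, ∑ x ∈ (Fintype.piFinset V).filter (fun x => x i0 ∈ E),
      (χ (redM k x) : Ω) *
        ∑ t ∈ Fintype.piFinset (fun i => range (p i ^ e i)), (∏ i, ρ i ^ t i) *
          Fc c (EV z fun i => (((1 + P0 * b) * (1 + p i ^ (k i + 1 - e i) * t i) : ℕ) :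
            ZMod (p i ^ (k i + 1))) * rdM k (fun i => (x i : ℤ_[p i])) i) = 0 := by
    intro b
    have h1 := sum_halfM hp2 hV i0 hE (fun x => (χ (redM k x) : Ω) *
        ∑ t ∈ Fintype.piFinset (fun i => range (p i ^ e i)), (∏ i, ρ i ^ t i) *
          Fc c (EV z fun i => (((1 + P0 * b) * (1 + p i ^ (k i + 1 - e i) * t i) : ℕ) :
            ZMod (p i ^ (k i + 1))) * rdM k (fun i => (x i : ℤ_[p i])) i)) (by
      intro x
      rw [Jt_redneg]
      have h2 : (χ (- redM k x) : Ω) = (ε : Ω) * (χ (redM k x) : Ω) := by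
        rw [← neg_one_mul, map_mul, hev, Units.val_mul]
      have h3 : ∀ t ∈ Fintype.piFinset (fun i => range (p i ^ e i)), (∏ i, ρ i ^ t i) *
          Fc c (EV z fun i => (((1 + P0 * b) * (1 + p i ^ (k i + 1 - e i) * t i) : ℕ) :
            ZMod (p i ^ (k i + 1))) * rdM k (fun i => ((-x) i : ℤ_[p i])) i) =
          (ε : Ω) * ((∏ i, ρ i ^ t i) *
          Fc c (EV z fun i => (((1 + P0 * b) * (1 + p i ^ (k i + 1 - e i) * t i) : ℕ) :
            ZMod (p i ^ (k i + 1))) * rdM k (fun i => (x i : ℤ_[p i])) i)) := by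
        intro t _
        have h4 : (fun i => (((1 + P0 * b) * (1 + p i ^ (k i + 1 - e i) * t i) : ℕ) :
            ZMod (p i ^ (k i + 1))) * rdM k (fun i => ((-x) i : ℤ_[p i])) i) =
            -(fun i => (((1 + P0 * b) * (1 + p i ^ (k i + 1 - e i) * t i) : ℕ) :
            ZMod (p i ^ (k i + 1))) * rdM k (fun i => (x i : ℤ_[p i])) i) := by
          funext i
          rw [Jt_rdneg, mul_neg]
          rfl
        rw [h4, EV_neg hz1, Fc_inve hc.par hc.zero (EV_ne hz1 _)]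
        ring
      rw [h2, Finset.sum_congr rfl h3, ← Finset.mul_sum]
      linear_combination ((χ (redM k x) : Ω) *
        ∑ t ∈ Fintype.piFinset (fun i => range (p i ^ e i)), (∏ i, ρ i ^ t i) *
          Fc c (EV z fun i => (((1 + P0 * b) * (1 + p i ^ (k i + 1 - e i) * t i) : ℕ) :
            ZMod (p i ^ (k i + 1))) * rdM k (fun i => (x i : ℤ_[p i])) i)) * hε.sq)
    rw [hrel b] at h1
    exact (mul_eq_zero.1 h1.symm).resolve_left h2Ω
  -- the roots of unity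
  have hpe : ∀ i, 0 < p i ^ e i := fun i => pow_pos (hp i).pos (e i)
  have hsplit : ∀ i, p i ^ (k i + 1) = p i ^ (k i + 1 - e i) * p i ^ e i := by
    intro i
    have h1 := hek i
    rw [← pow_add]; congr 1; omega
  have hω : ∀ (x : ∀ i, ℤ_[p i]ˣ) (i : I), IsPrimitiveRoot (z i ^ (p i ^ (k i + 1 - e i) *
      (rdM k (fun i => (x i : ℤ_[p i])) i).val)) (p i ^ e i) := by
    intro x i
    rw [pow_mul]
    exact ((hz i).pow (pow_pos (hp i).pos _) (hsplit i)).pow_of_coprime _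
      (Nat.Coprime.pow_right (e i) (SB_cop (k i) (x i)))
  have hcopP : ∀ (a : I → ℕ) (i j : I), i ≠ j → Nat.Coprime (p i ^ a i) (p j ^ a j) := by
    intro a i j hij
    exact Nat.Coprime.pow _ _ ((Nat.coprime_primes (hp i) (hp j)).2 fun h => hij (hinj h))
  choose N hN1 hN2 using fun x : (∀ i, ℤ_[p i]ˣ) => polyM (M := M) (P := fun i => p i ^ e i) hpe
    (hcopP e) (fun i => Nat.Coprime.pow_left (e i) (hpM i)) (fun i => cast_ne (hlp i) (e i) Ω)
    (hω x) hρ hc.ne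
  obtain ⟨m, hm, hm2⟩ := hN1 1
  have hne : ∀ (b : ℕ) (x : ∀ i, ℤ_[p i]ˣ), (EV z fun i => ((1 + P0 * b : ℕ) :
      ZMod (p i ^ (k i + 1))) * rdM k (fun i => (x i : ℤ_[p i])) i) ^ (P0 * M) ≠ 1 := by
    intro b x h1
    choose a ha using fun i => TF_unit (p := p i) (k := k i) (m := P0 * b)
      (((dvd_pow_self (p i) (Nat.one_le_iff_ne_zero.1 (hQ i).e1)).trans (hPd i)).trans
        (dvd_mul_right _ _))
    have h2 : (fun i => ((1 + P0 * b : ℕ) : ZMod (p i ^ (k i + 1))) *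
        rdM k (fun i => (x i : ℤ_[p i])) i) =
        fun i => ((a i * red (k i + 1) (x i) : (ZMod (p i ^ (k i + 1)))ˣ) :
          ZMod (p i ^ (k i + 1))) := by
      funext i
      rw [Units.val_mul, ha i]
      rfl
    rw [h2] at h1
    have h3 := EV_unit hz (hcopP fun i => k i + 1) _ _ h1 i0
    have h4 : Nat.Coprime (p i0 ^ (k i0 + 1)) M := Nat.Coprime.pow_left _ (hpM i0)
    have h5 := h4.dvd_of_dvd_mul_right h3
    rw [hP0, ← Finset.mul_prod_erase univ (fun j => p j ^ e j) (Finset.mem_univ i0)] at h5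
    have h6 : Nat.Coprime (p i0 ^ (k i0 + 1)) (∏ j ∈ univ.erase i0, p j ^ e j) :=
      Nat.Coprime.prod_right fun j hj => Nat.Coprime.pow _ _
        ((Nat.coprime_primes (hp i0) (hp j)).2 fun h => (Finset.ne_of_mem_erase hj) (hinj h).symm)
    have h7 := h6.dvd_of_dvd_mul_right h5
    have h8 := (Nat.pow_dvd_pow_iff_le_right (hp i0).one_lt).1 h7
    have h9 := hk1 i0
    have h10 := (hQ i0).e1
    omega
  have hY : ∀ (b : ℕ) (x : ∀ i, ℤ_[p i]ˣ),
      ∑ t ∈ Fintype.piFinset (fun i => range (p i ^ e i)), (∏ i, ρ i ^ t i) *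
          Fc c (EV z fun i => (((1 + P0 * b) * (1 + p i ^ (k i + 1 - e i) * t i) : ℕ) :
            ZMod (p i ^ (k i + 1))) * rdM k (fun i => (x i : ℤ_[p i])) i) =
      (∑ m ∈ range (P0 * M), N x m * (EV z fun i => ((1 + P0 * b : ℕ) :
        ZMod (p i ^ (k i + 1))) * rdM k (fun i => (x i : ℤ_[p i])) i) ^ m) /
        (1 - (EV z fun i => ((1 + P0 * b : ℕ) :
          ZMod (p i ^ (k i + 1))) * rdM k (fun i => (x i : ℤ_[p i])) i) ^ (P0 * M)) := by
    intro b x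
    rw [← hN2 x _ (hne b x)]
    refine sum_congr rfl fun t _ => ?_
    congr 2
    unfold EV
    rw [← Finset.prod_mul_distrib]
    refine Finset.prod_congr rfl fun i _ => ?_
    exact Jt_step (hz1 i) (by have := hek i; omega) (hPd i) _ rfl
  refine hk0 k hk2 Ω z hz (fun x m => (χ (redM k x) : Ω) * N x m)
    ⟨m, hm, mul_ne_zero (Units.ne_zero _) hm2⟩ (fun b => ?_)
  refine Jt_alg _ (fun x => ∑ m ∈ range (P0 * M), (χ (redM k x) : Ω) * N x m *
    (EV z fun a => ((1 + P0 * b : ℕ) : ZMod (p a ^ (k a + 1))) *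
      rdM k (fun i => (x i : ℤ_[p i])) a) ^ m) _ (fun x h => hne b x (sub_eq_zero.1 h).symm) ?_
  rw [← hhalf b]
  refine sum_congr rfl fun x _ => ?_
  rw [hY b x, ← mul_div_assoc, mul_sum]
  congr 1
  exact sum_congr rfl fun m _ => mul_assoc _ _ _

end H2ZS
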