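import Pool.Agent.H78.ZC.Df
import Pool.Agent.H68.QS.Dec

/-!
MP_78d38b, block ZS: a member of the tower over `k` is `k L'` with `L'` in the tower over `ℚ`
(helper2; no row).
-/

set_option autoImplicit false
open scoped Classical

open NumberField

namespace H2ZS

theorem lay_gen_mainA {A : ℕ} (hA : A ≠ 0) {k L C : Type} [Field k] [NumberField k] [Field L]
    [NumberField L] [Algebra k L] [Field C] [NumberField C] [Algebra k C]
    [IsCyclotomicExtension {A} k C] (φ : L →ₐ[k] C) (hreal : IsTotallyReal L) :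
    ∃ (L' : Type) (_ : Field L') (_ : NumberField L') (h : L' →+* L), IsTotallyReal L' ∧
      Nonempty (L' →+* CyclotomicField A ℚ) ∧
      IntermediateField.adjoin k (Set.range h) = ⊤ := by
  have hne : NeZero A := ⟨hA⟩
  have hneQ : NeZero ((A : ℕ) : ℚ) := ⟨Nat.cast_ne_zero.2 hA⟩
  have hζ := IsCyclotomicExtension.zeta_spec A k C
  set ζ := IsCyclotomicExtension.zeta A k C with hζdef
  set Z : IntermediateField ℚ C := IntermediateField.adjoin ℚ {ζ} with hZ
  have hZcyc : IsCyclotomicExtension {A} ℚ Z :=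
    hζ.intermediateField_adjoin_isCyclotomicExtension ℚ
  have hZgal : @IsGalois ℚ _ Z _ (IntermediateField.algebra' Z) :=
    @IsCyclotomicExtension.isGalois {A} ℚ Z _ _ (IntermediateField.algebra' Z) hZcyc
  have hζZ : ζ ∈ Z := IntermediateField.mem_adjoin_simple_self ℚ ζ
  let ψL : L →ₐ[ℚ] C := φ.restrictScalars ℚ
  have cL : ∀ x : k, ψL (algebraMap k L x) = algebraMap k C x := fun x => φ.commutes x
  set SL : Set L := Set.range (algebraMap k L) with hSL
  have hL : Z ⊔ (IntermediateField.adjoin ℚ SL).map ψL = ⊤ := by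
    refine H68QS.Dec_top (k := k) hζ _ ((le_sup_left : Z ≤ _) hζZ) fun x => ?_
    refine (le_sup_right : (IntermediateField.adjoin ℚ SL).map ψL ≤ _) ?_
    exact ⟨_, IntermediateField.subset_adjoin ℚ _ ⟨x, rfl⟩, cL x⟩
  have gL := H68QS.Dec_gen ψL Z SL hL
  refine ⟨Z.comap ψL, inferInstance, inferInstance, (Z.comap ψL).val.toRingHom, ?_, ?_, ?_⟩
  · exact IsTotallyReal.of_algebra (Z.comap ψL) L
  · have hcyc : IsCyclotomicExtension {A} ℚ (CyclotomicField A ℚ) :=
      CyclotomicField.isCyclotomicExtension _ _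
    have e := IsCyclotomicExtension.algEquiv {A} ℚ Z (CyclotomicField A ℚ)
    let j : (Z.comap ψL) →+* Z :=
      { toFun := fun x => ⟨ψL x.1, x.2⟩
        map_one' := by ext; simp
        map_zero' := by ext; simp
        map_mul' := by intro x y; ext; simp
        map_add' := by intro x y; ext; simp }
    exact ⟨e.toRingEquiv.toRingHom.comp j⟩
  · have e : Set.range ((Z.comap ψL).val.toRingHom) = (Z.comap ψL : Set L) := Subtype.range_coe
    rw [e, eq_top_iff]
    have hle : IntermediateField.adjoin ℚ (SL ∪ (Z.comap ψL : Set L)) ≤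
        (IntermediateField.adjoin k (Z.comap ψL : Set L)).restrictScalars ℚ := by
      rw [IntermediateField.adjoin_le_iff]
      rintro x (⟨y, rfl⟩ | hx)
      · exact (IntermediateField.adjoin k (Z.comap ψL : Set L)).algebraMap_mem y
      · exact IntermediateField.subset_adjoin k _ hx
    intro x _
    exact hle (gL ▸ IntermediateField.mem_top)

theorem lay_genS {A : ℕ} (hA : A ≠ 0) {k L : Type} [Field k] [NumberField k] [Field L]
    [NumberField L] [Algebra k L] (hreal : IsTotallyReal L)
    (hφ : Nonempty (L →ₐ[k] CyclotomicField A k)) :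
    ∃ (L' : Type) (_ : Field L') (_ : NumberField L') (h : L' →+* L), IsTotallyReal L' ∧
      Nonempty (L' →+* CyclotomicField A ℚ) ∧
      IntermediateField.adjoin k (Set.range h) = ⊤ := by
  obtain ⟨φ⟩ := hφ
  have hne : NeZero A := ⟨hA⟩
  have hnek : NeZero ((A : ℕ) : k) := ⟨Nat.cast_ne_zero.2 hA⟩
  have hcyc : IsCyclotomicExtension {A} k (CyclotomicField A k) :=
    CyclotomicField.isCyclotomicExtension _ _
  have hCn : NumberField (CyclotomicField A k) := IsCyclotomicExtension.numberField {A} k _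
  exact lay_gen_mainA hA φ hreal

/-- `L` is a totally real field between `k` and `k(ζ_n)` for some `n` whose prime factors are in
`S`. -/
def LayerS (S : Finset ℕ) (k L : Type) [Field k] [NumberField k] [Field L] [NumberField L]
    [Algebra k L] : Prop :=
  IsTotallyReal L ∧ ∃ n : ℕ, n ≠ 0 ∧ (∀ q : ℕ, q.Prime → q ∣ n → q ∈ S) ∧
    Nonempty (L →ₐ[k] CyclotomicField n k)

/-- `K` contains the elements of `L` whose conjugates are in `ℚ(ζ_m)`. -/
def ContainsDepth (m : ℕ) (K L : Type) [Field K] [Field L] [NumberField L] [Algebra K L] : Prop :=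
  ∀ x : L, (∃ y : CyclotomicField m ℚ, minpoly ℚ y = minpoly ℚ x) →
    ∃ z : K, algebraMap K L z = x

theorem lay_S {S : Finset ℕ} {k L : Type} [Field k] [NumberField k] [Field L]
    [NumberField L] [Algebra k L] (hL : LayerS S k L) :
    ∃ (L' : Type) (_ : Field L') (_ : NumberField L') (h : L' →+* L), H78Z.IsRS S L' ∧
      IntermediateField.adjoin k (Set.range h) = ⊤ := by
  obtain ⟨hreal, n, hn, hnS, hφ⟩ := hL
  obtain ⟨L', _, _, h, h1, h2, h3⟩ := lay_genS hn hreal hφ
  exact ⟨L', inferInstance, inferInstance, h, ⟨h1, n, ⟨hn, hnS⟩, h2⟩, h3⟩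

end H2ZS
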