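import Pool.Agent.H2.ZS.Dfb
import Pool.Agent.H78.MH.Mg

/-!
The arithmetic consequences of the uniform non vanishing (copy of `Pool/Agent/H78/MH/Mg.lean` with the hypothesis `NVU`; helper2, no row).
-/

set_option autoImplicit false
open scoped Classical Pointwise

open IsDedekindDomain NumberField Finset H55T3 H78M H78H

namespace H2ZS

theorem exists_St_ne {l p M k0 m n : ℕ} [Fact l.Prime] [Fact p.Prime] [NeZero M] (hl2 : l ≠ 2) (hp2 : p ≠ 2)
    (hlp : l ≠ p) (hpM : p.Coprime M) (hM1 : 1 < M)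
    (hS : NVU l p M k0) (hm : k0 ≤ m + 1) (hmn : m ≤ n)
    {Ω : Type} [Field Ω] [CharP Ω l] [IsAlgClosed Ω] (φ : (ZMod (M * p ^ (n + 1)))ˣ →* Ωˣ)
    (h1 : φ (-1) = -1)
    (h3 : ∃ h, ZMod.unitsMap (Nat.mul_dvd_mul_left M (pow_dvd_pow p (Nat.succ_le_succ hmn))) h = 1 ∧ φ h ≠ 1) :
    ∃ c, 1 < c ∧ c < M * p ^ (n + 1) ∧ c.Coprime (M * p ^ (n + 1)) ∧ St (M * p ^ (n + 1)) c φ ≠ 0 := by
  have hl : l.Prime := Fact.out
  have hpp : p.Prime := Fact.out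
  obtain ⟨e, f, hf, hM⟩ := Nat.exists_eq_pow_mul_and_not_dvd (NeZero.ne M) l hl.ne_one
  have ha0 : 0 < l ^ e := pow_pos hl.pos e
  have haM : l ^ e ∣ M := ⟨f, hM⟩
  have haN : l ^ e ∣ M * p ^ (n + 1) := Dvd.dvd.mul_right haM _
  have hMa : M / l ^ e = f := by
    rw [hM]
    exact Nat.mul_div_cancel_left f ha0
  have hNa : M * p ^ (n + 1) / l ^ e = f * p ^ (n + 1) := by
    rw [hM, mul_assoc]
    exact Nat.mul_div_cancel_left _ ha0
  have hf0 : ((f * p ^ (n + 1) : ℕ) : Ω) ≠ 0 := by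
    rw [Nat.cast_mul]
    refine mul_ne_zero ?_ (H46TS.cast_ne hlp (n + 1) Ω)
    intro h
    rw [CharP.cast_eq_zero_iff Ω l] at h
    exact hf h
  have h2ne : (2 : Ω) ≠ 0 := by
    intro h
    have h2 : ((2 : ℕ) : Ω) = 0 := by exact_mod_cast h
    rw [CharP.cast_eq_zero_iff Ω l] at h2
    exact hl2 ((Nat.prime_dvd_prime_iff_eq hl Nat.prime_two).1 h2)
  obtain ⟨k, hmk, hkn, ε, χ, ψ, hε, hev, hprim, hψ, hφ⟩ := exists_dec hp2 hpM hmn φ h1 h3
  obtain ⟨s0, -, hs0⟩ := exists_s0 l M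
  have hg := good hM1 hε hψ (hs0 Ω ψ)
  have : NeZero ((p ^ (k + 1) : ℕ) : Ω) := ⟨H46TS.cast_ne hlp (k + 1) Ω⟩
  obtain ⟨z, hz⟩ := HasEnoughRootsOfUnity.exists_primitiveRoot Ω (p ^ (k + 1))
  have hT := hS k (by omega) Ω z hz ε hε ψ hψ χ hev hprim
  have hF := fourier hp2 hpM haM hkn hz φ χ ψ hε hev hprim hg.par hg.zero hφ
  rw [hMa] at hF
  have hB : Bm (M * p ^ (n + 1)) (l ^ e) φ ≠ 0 := by
    intro h0
    rw [h0, mul_zero] at hF
    have h5 := neg_eq_zero.1 hF.symm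
    exact mul_ne_zero (mul_ne_zero h2ne hf0) hT h5
  obtain ⟨h, hmod, hne, hc⟩ := MgSf_h hmn hM hl2 hf0 φ h1 h3
  have hcop := ZMod.val_coe_unit_coprime h
  have hN1 : 1 < M * p ^ (n + 1) := by
    have h4 : 1 < p ^ (n + 1) := Nat.one_lt_pow (Nat.succ_ne_zero n) hpp.one_lt
    have h5 : 0 < M := Nat.pos_of_ne_zero (NeZero.ne M)
    exact lt_of_lt_of_le h4 (Nat.le_mul_of_pos_left _ h5)
  refine ⟨(h : ZMod (M * p ^ (n + 1))).val, ?_, ZMod.val_lt _, hcop, ?_⟩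
  · have h0 : (h : ZMod (M * p ^ (n + 1))).val ≠ 0 := by
      intro h0
      rw [h0, Nat.coprime_zero_left] at hcop
      omega
    have h1' : (h : ZMod (M * p ^ (n + 1))).val ≠ 1 := by
      intro h1'
      apply hne
      have : h = 1 := by
        apply Units.ext
        rw [Units.val_one, ← ZMod.natCast_zmod_val (h : ZMod (M * p ^ (n + 1))), h1', Nat.cast_one]
      rw [this, map_one]
    omega
  · intro h0
    have hst := stick_formula haN φ h hmod hne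
    rw [h0, mul_zero] at hst
    exact mul_ne_zero hc hB hst.symm

variable {l p M m n : ℕ} [Fact l.Prime] [Fact p.Prime] [NeZero M] {C : Type} [Field C] [NumberField C]
  [IsCyclotomicExtension {M * p ^ (n + 1)} ℚ C]

theorem mem_T {k0 : ℕ} (hl2 : l ≠ 2) (hp2 : p ≠ 2) (hlp : l ≠ p) (hpM : p.Coprime M) (hM1 : 1 < M)
    (hS : NVU l p M k0) (hm : k0 ≤ m + 1) (hmn : m ≤ n)
    (hSt : Stick (M * p ^ (n + 1)) C) {T : Subgroup (ClassGroup (𝓞 C))} (hT : Stab T) {I : Ideal (𝓞 C)}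
    (hI0 : I ≠ ⊥) (hIl : icl I ^ l ∈ T)
    (hH : ∏ g ∈ univ.filter (fun g : C ≃ₐ[ℚ] C => InH p M m n hmn g), icl (g • I) ∈ T)
    (hJ : ∀ g : C ≃ₐ[ℚ] C, kp (M * p ^ (n + 1)) g = -1 → icl I * icl (g • I) ∈ T) :
    icl I ∈ T := by
  by_contra hnp
  have hl : l.Prime := Fact.out
  obtain ⟨Ω, iF, iC, iA, φ, R⟩ := exists_phi (l := l) (M * p ^ (n + 1)) hT hI0 hIl hnp
  have hlΩ : (l : Ω) = 0 := CharP.cast_eq_zero Ω l
  have hk1 : kp (M * p ^ (n + 1)) (1 : C ≃ₐ[ℚ] C) = 1 := map_one _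
  have h1 : φ (-1) = -1 := by
    obtain ⟨J, hJJ⟩ : ∃ J, kp (M * p ^ (n + 1)) (C := C) J = -1 :=
      (IsCyclotomicExtension.Rat.galEquivZMod (M * p ^ (n + 1)) C).surjective (-1)
    have h := R (Pi.single J 1 + Pi.single 1 1) (by
      rw [MgEa_prod2 (fun g : C ≃ₐ[ℚ] C => icl (g • I)), pow_one, pow_one, one_smul, mul_comm]
      exact hJ J hJJ)
    rw [MgEa_sum2 (fun g => (φ (kp (M * p ^ (n + 1)) (C := C) g) : Ω)), hJJ, hk1, map_one,
      Nat.cast_one, one_mul, one_mul, Units.val_one] at h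
    apply Units.ext
    rw [Units.val_neg, Units.val_one]
    exact eq_neg_of_add_eq_zero_left h
  have h3 : ∃ h, ZMod.unitsMap (Nat.mul_dvd_mul_left M (pow_dvd_pow p (Nat.succ_le_succ hmn))) h = 1 ∧
      φ h ≠ 1 := by
    by_contra hcon
    push Not at hcon
    have h := R (fun g => if InH p M m n hmn g then 1 else 0) (by
      have h4 : ∏ g : C ≃ₐ[ℚ] C, icl (g • I) ^ (if InH p M m n hmn g then 1 else 0) =
          ∏ g ∈ univ.filter (fun g : C ≃ₐ[ℚ] C => InH p M m n hmn g), icl (g • I) := by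
        rw [Finset.prod_filter]
        apply Finset.prod_congr rfl
        intro g _
        split_ifs
        · rw [pow_one]
        · rw [pow_zero]
      rw [h4]
      exact hH)
    have h' : ((univ.filter (fun g : C ≃ₐ[ℚ] C => InH p M m n hmn g)).card : Ω) = 0 := by
      rw [← h, Finset.card_filter, Nat.cast_sum]
      apply Finset.sum_congr rfl
      intro g _
      by_cases hg : InH p M m n hmn g
      · rw [if_pos hg, Nat.cast_one, one_mul, hcon _ hg, Units.val_one]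
      · rw [if_neg hg, Nat.cast_zero, zero_mul]
    rw [card_InH hpM hmn] at h'
    exact H46TS.cast_ne hlp (n - m) Ω h'
  obtain ⟨c, hc1, hcN, hcop, hne⟩ := exists_St_ne hl2 hp2 hlp hpM hM1 hS hm hmn φ h1 h3
  apply hne
  have hpr := hSt c hc1 hcN hcop I hI0
  have hpr2 : (∏ g : C ≃ₐ[ℚ] C,
      (g • I) ^ (c * tt (M * p ^ (n + 1)) C g⁻¹ / (M * p ^ (n + 1)))).IsPrincipal := by
    rw [← Fintype.prod_equiv (Equiv.inv (C ≃ₐ[ℚ] C))
      (fun g => (g⁻¹ • I) ^ (c * tt (M * p ^ (n + 1)) C g / (M * p ^ (n + 1))))]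
    · exact hpr
    · intro g
      rw [Equiv.inv_apply, inv_inv]
  rw [isPrincipal_iff_icl _ _ (fun g _ => smul_ne_bot g hI0)] at hpr2
  have h := R (fun g => c * tt (M * p ^ (n + 1)) C g⁻¹ / (M * p ^ (n + 1))) (by
    rw [hpr2]
    exact T.one_mem)
  rw [← h]
  unfold H78M.St
  symm
  apply Fintype.sum_equiv ((Equiv.inv (C ≃ₐ[ℚ] C)).trans
    (IsCyclotomicExtension.Rat.galEquivZMod (M * p ^ (n + 1)) C).toEquiv)
  intro g
  simp only [Equiv.trans_apply, Equiv.inv_apply, MulEquiv.toEquiv_eq_coe, EquivLike.coe_coe]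
  rw [map_inv, map_inv, inv_inv, mul_comm]
  rfl

theorem noNewT {k0 : ℕ} (hl2 : l ≠ 2) (hp2 : p ≠ 2) (hlp : l ≠ p) (hpM : p.Coprime M) (hM1 : 1 < M)
    (hS : NVU l p M k0) (hm : k0 ≤ m + 1) (hmn : m ≤ n)
    (hSt : Stick (M * p ^ (n + 1)) C) : H78H.NoNewT l p M m n hmn C := by
  intro T hT h1 h2 h3
  rw [eq_top_iff]
  rintro c -
  obtain ⟨⟨I, hI⟩, rfl⟩ := ClassGroup.mk0_surjective c
  have hI0 : I ≠ ⊥ := nonZeroDivisors.ne_zero hI
  have h5 : icl I ∈ T := mem_T hl2 hp2 hlp hpM hM1 hS hm hmn hSt hT hI0 (h1 I hI0) (h2 I hI0)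
    (fun g hg => h3 g hg I hI0)
  rw [Mc_icl hI0] at h5
  exact h5

theorem noNewE {k0 : ℕ} (hl2 : l ≠ 2) (hp2 : p ≠ 2) (hlp : l ≠ p) (hpM : p.Coprime M) (hM1 : 1 < M)
    (hS : NVU l p M k0) (hm : k0 ≤ m + 1) (hmn : m ≤ n)
    (hSt : Stick (M * p ^ (n + 1)) C) : H78H.NoNewE l p M m n hmn C := by
  have : IsGalois ℚ C := IsCyclotomicExtension.isGalois {M * p ^ (n + 1)} ℚ C
  have hl0 : l ≠ 0 := (Fact.out : l.Prime).ne_zero
  intro e he hv hH hJ
  obtain ⟨y, b, I, hy, hb, hI0, hI, rfl⟩ := exists_pow_ideal (l := l) he hv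
  have hyC : (y : C) ≠ 0 := RingOfIntegers.coe_ne_zero_iff.mpr hy
  have hg0 : ∀ (g : C ≃ₐ[ℚ] C) (x : C), x ≠ 0 → g x ≠ 0 := by
    intro g x hx h0
    exact hx ((map_eq_zero g).1 h0)
  have hH' : ∃ s : C, ∏ g ∈ univ.filter (fun g : C ≃ₐ[ℚ] C => InH p M m n hmn g), g (y : C) = s ^ l := by
    obtain ⟨s, hs⟩ := hH
    have hb' : ∏ g ∈ univ.filter (fun g : C ≃ₐ[ℚ] C => InH p M m n hmn g), g b ≠ 0 :=
      Finset.prod_ne_zero_iff.2 (fun g _ => hg0 g b hb)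
    refine ⟨s / ∏ g ∈ univ.filter (fun g : C ≃ₐ[ℚ] C => InH p M m n hmn g), g b, ?_⟩
    rw [div_pow, ← hs, eq_div_iff (pow_ne_zero _ hb')]
    simp only [map_mul, map_pow, Finset.prod_mul_distrib, Finset.prod_pow]
  have hJ' : ∀ g : C ≃ₐ[ℚ] C, kp (M * p ^ (n + 1)) g = -1 → ∃ s : C, (y : C) * g (y : C) = s ^ l := by
    intro g h1
    obtain ⟨s, hs⟩ := hJ g h1
    have hgb := hg0 g b hb
    refine ⟨s / (b * g b), ?_⟩
    rw [map_mul, map_pow] at hs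
    rw [div_pow, ← hs, eq_div_iff (pow_ne_zero _ (mul_ne_zero hb hgb)), mul_pow]
    ring
  have hIl : icl I ^ l = 1 := by
    rw [← Mc_pow hI0, Eb_icl (pow_ne_zero l hI0), hI]
    exact ⟨⟨y, rfl⟩⟩
  have hprin : I.IsPrincipal := by
    rw [← Eb_icl hI0, ← Subgroup.mem_bot]
    refine mem_T hl2 hp2 hlp hpM hM1 hS hm hmn hSt Eb_stab hI0 ?_ ?_ ?_
    · rw [Subgroup.mem_bot]
      exact hIl
    · rw [Subgroup.mem_bot]
      obtain ⟨s, hs⟩ := hH'
      have h1 := Eb_rel hl0 hI0 hI (fun g => if InH p M m n hmn g then 1 else 0) (s := s) (by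
        rw [← hs, Finset.prod_filter]
        apply Finset.prod_congr rfl
        intro g _
        split_ifs
        · rw [pow_one]
        · rw [pow_zero])
      rw [← h1, Finset.prod_filter]
      apply Finset.prod_congr rfl
      intro g _
      split_ifs
      · rw [pow_one]
      · rw [pow_zero]
    · intro g hg
      rw [Subgroup.mem_bot]
      obtain ⟨s, hs⟩ := hJ' g hg
      have h1 := Eb_two hl0 hI0 hI g 1 (s := s) (by rw [pow_one, mul_comm, hs])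
      rw [pow_one] at h1
      rw [mul_comm, h1]
  obtain ⟨β, hβ⟩ := hprin.principal
  have hβ' : I = Ideal.span {β} := hβ
  have hβ0 : β ≠ 0 := by
    rintro rfl
    apply hI0
    rw [hβ']
    exact Ideal.span_singleton_eq_bot.2 rfl
  have hβC : (β : C) ≠ 0 := RingOfIntegers.coe_ne_zero_iff.mpr hβ0
  rw [hβ', Ideal.span_singleton_pow, Ideal.span_singleton_eq_span_singleton] at hI
  obtain ⟨u, hu⟩ := hI
  have huC : (y : C) = (β : C) ^ l * ((u : 𝓞 C) : C) := by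
    have := congrArg (algebraMap (𝓞 C) C) hu
    rw [map_mul, map_pow] at this
    exact this.symm
  obtain ⟨s, hs⟩ := unit_pow hl2 hlp hpM hmn (u := u) (C := C) (by
    intro g h1
    obtain ⟨s, hs⟩ := hJ' g h1
    have hgb := hg0 g _ hβC
    refine ⟨s / (β * g β), ?_⟩
    rw [huC, map_mul, map_pow] at hs
    rw [div_pow, ← hs, eq_div_iff (pow_ne_zero _ (mul_ne_zero hβC hgb)), mul_pow]
    ring) (by
    obtain ⟨s, hs⟩ := hH'
    have hb' : ∏ g ∈ univ.filter (fun g : C ≃ₐ[ℚ] C => InH p M m n hmn g), g (β : C) ≠ 0 :=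
      Finset.prod_ne_zero_iff.2 (fun g _ => hg0 g _ hβC)
    refine ⟨s / ∏ g ∈ univ.filter (fun g : C ≃ₐ[ℚ] C => InH p M m n hmn g), g (β : C), ?_⟩
    rw [div_pow, ← hs, eq_div_iff (pow_ne_zero _ hb'), huC]
    simp only [map_mul, map_pow, Finset.prod_mul_distrib, Finset.prod_pow]
    ring)
  refine ⟨s * β * b, ?_⟩
  rw [huC, hs, mul_pow, mul_pow]
  ring

theorem level_of_NVU {l p M k0 : ℕ} [Fact l.Prime] [Fact p.Prime] [NeZero M] (hl2 : l ≠ 2) (hp2 : p ≠ 2)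
    (hlp : l ≠ p) (hpM : p.Coprime M) (hM1 : 1 < M) (hS : NVU l p M k0) (m n : ℕ) (hmn : m ≤ n)
    (hm : k0 ≤ m + 1) (C : Type) [Field C] [NumberField C]
    [IsCyclotomicExtension {M * p ^ (n + 1)} ℚ C] :
    H78H.NoNewE l p M m n hmn C ∧ H78H.NoNewT l p M m n hmn C :=
  ⟨noNewE hl2 hp2 hlp hpM hM1 hS hm hmn (stick _ C), noNewT hl2 hp2 hlp hpM hM1 hS hm hmn (stick _ C)⟩

end H2ZS
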