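import Pool.Agent.H2.ZS.Dfb

/-!
ROW Mi (the minimal modulus; about 110 lines).  PROOF.
Write `N j = M0 * ∏ q ∈ T, q ^ j q`. Strong induction on `∑ q ∈ T, j q`. If `PrA ψ q` holds for all `q ∈ T` with `2 ≤ j q`, take `j' = j`, `ψ' = ψ` (`ZMod.unitsMap_self`). Otherwise there is `q ∈ T`, `2 ≤ j q`, with `ψ u = 1` for all units `u = 1 + (N j / q) * t`. Put `j1 = Function.update j q (j q - 1)`; `N j1 = N j / q`
(`Finset.prod_update_of_mem`), `N j1 ∣ N j`. The kernel of `ZMod.unitsMap : (ZMod (N j))ˣ → (ZMod (N j1))ˣ` consists of the `u` with `u.val ≡ 1 mod N j1`, that is `u = 1 + (N j / q) * t` (`t = u.val / N j1`, see the end of `factor_levele` in `Pool/Agent/H78/MH/Sn.lean`), so `ψ` is trivial on it and factors: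
`ψ = ψ1.comp (ZMod.unitsMap _)` (`MonoidHom.liftOfRightInverse` and `ZMod.unitsMap_surjective`, as in `factor_levele`). Apply the induction hypothesis to `j1`, `ψ1` and compose (`ZMod.unitsMap_comp`). `j1 q = j q - 1 ≠ 0`, so the condition `j q ≠ 0 → j' q ≠ 0` is preserved.
-/

set_option autoImplicit false

namespace H2ZS

open Finset H5SW

/-- one step -/
theorem Mi_step {Ω : Type*} [Field Ω] {N N1 q : ℕ} (hN : N ≠ 0) (hq : q.Prime) (hdv : N1 ∣ N)
    (h : N / q = N1) (hqN : q ∣ N) (ψ : (ZMod N)ˣ →* Ωˣ) (hψ : ¬ PrA ψ q) :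
    ∃ ψ1 : (ZMod N1)ˣ →* Ωˣ, ψ = ψ1.comp (ZMod.unitsMap hdv) := by
  classical
  haveI : NeZero N := ⟨hN⟩
  have hN1 : 1 < N := lt_of_lt_of_le hq.one_lt (Nat.le_of_dvd (Nat.pos_of_ne_zero hN) hqN)
  haveI : Fact (1 < N) := ⟨hN1⟩
  have hsurj := ZMod.unitsMap_surjective hdv
  have hle : (ZMod.unitsMap hdv).ker ≤ ψ.ker := by
    intro u hu
    rw [MonoidHom.mem_ker] at hu ⊢
    by_contra hne
    apply hψ
    refine ⟨u, ?_, hne⟩
    have h1 : ((ZMod.unitsMap hdv u : (ZMod N1)ˣ) : ZMod N1) = 1 := by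
      rw [hu]
      rfl
    rw [ZMod.unitsMap_val] at h1
    have h2 : ((u : ZMod N).val : ZMod N1) = ((1 : ℕ) : ZMod N1) := by
      rw [Nat.cast_one, ← h1, ZMod.natCast_val]
    have h3 : (u : ZMod N).val ≡ 1 [MOD N1] := (ZMod.natCast_eq_natCast_iff _ _ _).1 h2
    have h4 : 1 ≤ (u : ZMod N).val := by
      rw [Nat.one_le_iff_ne_zero]
      intro h0
      rw [ZMod.val_eq_zero] at h0
      exact u.ne_zero h0
    have h5 : N1 ∣ (u : ZMod N).val - 1 := (Nat.modEq_iff_dvd' h4).1 h3.symm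
    obtain ⟨t, ht⟩ := h5
    refine ⟨t, ?_⟩
    have h6 : (u : ZMod N).val = 1 + N1 * t := by omega
    rw [h]
    have h7 : (((u : ZMod N).val : ℕ) : ZMod N) = (u : ZMod N) := ZMod.natCast_zmod_val _
    rw [← h7, h6]
    push_cast
    ring
  refine ⟨(ZMod.unitsMap hdv).liftOfRightInverse _ (Function.rightInverse_surjInv hsurj) ⟨ψ, hle⟩, ?_⟩
  ext u
  simp only [MonoidHom.comp_apply]
  exact congrArg _ ((ZMod.unitsMap hdv).liftOfRightInverse_comp_apply _
    (Function.rightInverse_surjInv hsurj) ⟨ψ, hle⟩ u).symm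

theorem Mi_prod {T : Finset ℕ} {j : ℕ → ℕ} {q : ℕ} (hqT : q ∈ T) (hj : j q ≠ 0) :
    ∏ r ∈ T, r ^ j r = (∏ r ∈ T, r ^ Function.update j q (j q - 1) r) * q := by
  classical
  rw [← Finset.mul_prod_erase T _ hqT, ← Finset.mul_prod_erase T (fun r => r ^ Function.update j q (j q - 1) r) hqT]
  have e : ∏ r ∈ T.erase q, r ^ Function.update j q (j q - 1) r = ∏ r ∈ T.erase q, r ^ j r := by
    apply Finset.prod_congr rfl
    intro r hr
    rw [Function.update_of_ne (Finset.ne_of_mem_erase hr)]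
  rw [e, Function.update_self]
  have e2 : q ^ j q = q ^ (j q - 1) * q := by
    rw [← pow_succ]
    congr 1
    omega
  rw [e2]
  ring

theorem Mi_sum {T : Finset ℕ} {j : ℕ → ℕ} {q : ℕ} (hqT : q ∈ T) (hj : j q ≠ 0) :
    ∑ r ∈ T, Function.update j q (j q - 1) r < ∑ r ∈ T, j r := by
  classical
  rw [← Finset.add_sum_erase T _ hqT, ← Finset.add_sum_erase T j hqT]
  have e : ∑ r ∈ T.erase q, Function.update j q (j q - 1) r = ∑ r ∈ T.erase q, j r := by
    apply Finset.sum_congr rfl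
    intro r hr
    rw [Function.update_of_ne (Finset.ne_of_mem_erase hr)]
  rw [e, Function.update_self]
  omega

theorem exists_min {T : Finset ℕ} (hT : ∀ q ∈ T, q.Prime) {M0 : ℕ} (hM0 : M0 ≠ 0) {Ω : Type*}
    [Field Ω] (j : ℕ → ℕ) (ψ : (ZMod (M0 * ∏ q ∈ T, q ^ j q))ˣ →* Ωˣ) :
    ∃ j' : ℕ → ℕ, (∀ q, j' q ≤ j q) ∧ (∀ q ∈ T, j q ≠ 0 → j' q ≠ 0) ∧
      ∃ (hd : M0 * ∏ q ∈ T, q ^ j' q ∣ M0 * ∏ q ∈ T, q ^ j q)
        (ψ' : (ZMod (M0 * ∏ q ∈ T, q ^ j' q))ˣ →* Ωˣ), ψ = ψ'.comp (ZMod.unitsMap hd) ∧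
        ∀ q ∈ T, 2 ≤ j' q → PrA ψ' q := by
  classical
  induction hn : ∑ q ∈ T, j q using Nat.strong_induction_on generalizing j with
  | _ n ih =>
    by_cases hall : ∀ q ∈ T, 2 ≤ j q → PrA ψ q
    · refine ⟨j, fun q => le_refl _, fun q _ h => h, dvd_refl _, ψ, ?_, hall⟩
      rw [ZMod.unitsMap_self, MonoidHom.comp_id]
    · push Not at hall
      obtain ⟨q, hqT, hj2, hψ⟩ := hall
      have hj0 : j q ≠ 0 := by omega
      have hq := hT q hqT
      set j1 := Function.update j q (j q - 1) with hj1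
      have hprod : ∏ r ∈ T, r ^ j r = (∏ r ∈ T, r ^ j1 r) * q := Mi_prod hqT hj0
      have hNN : M0 * ∏ r ∈ T, r ^ j r = (M0 * ∏ r ∈ T, r ^ j1 r) * q := by
        rw [hprod]; ring
      have hdv : M0 * ∏ r ∈ T, r ^ j1 r ∣ M0 * ∏ r ∈ T, r ^ j r := by
        rw [hNN]; exact dvd_mul_right _ _
      have hN0 : M0 * ∏ r ∈ T, r ^ j r ≠ 0 := by
        apply mul_ne_zero hM0
        rw [Finset.prod_ne_zero_iff]
        intro r hr
        exact pow_ne_zero _ (hT r hr).ne_zero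
      have hdiv : (M0 * ∏ r ∈ T, r ^ j r) / q = M0 * ∏ r ∈ T, r ^ j1 r := by
        rw [hNN]; exact Nat.mul_div_cancel _ hq.pos
      have hqN : q ∣ M0 * ∏ r ∈ T, r ^ j r := by
        rw [hNN]; exact dvd_mul_left _ _
      obtain ⟨ψ1, hψ1⟩ := Mi_step hN0 hq hdv hdiv hqN ψ hψ
      have hsum : ∑ r ∈ T, j1 r < n := by
        rw [← hn]
        exact Mi_sum hqT hj0
      obtain ⟨j', h1, h2, hd, ψ', h3, h4⟩ := ih _ hsum j1 ψ1 rfl
      have hle : ∀ r, j1 r ≤ j r := by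
        intro r
        by_cases hr : r = q
        · subst hr
          rw [hj1, Function.update_self]
          omega
        · rw [hj1, Function.update_of_ne hr]
      refine ⟨j', fun r => (h1 r).trans (hle r), ?_, hd.trans hdv, ψ', ?_, h4⟩
      · intro r hr hr0
        apply h2 r hr
        by_cases hrq : r = q
        · subst hrq
          rw [hj1, Function.update_self]
          omega
        · rw [hj1, Function.update_of_ne hrq]
          exact hr0
      · rw [hψ1, h3, MonoidHom.comp_assoc, ZMod.unitsMap_comp]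

end H2ZS
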