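import Pool.Agent.H2.ZS.Ea
import Pool.Agent.H2.ZS.Av

/-!
ROW Rs (from the vanishing of the sum to a restricted sum, several primes; about 110 lines).  ADAPT row TD (`Pool/Agent/H46/TS/TD.lean`, `TD_step`, `av2`); here the sums are over ALL units (no half systems, no parity).  PROOF.
`step`: `q^j` (with `q = l^s`) is prime to all `n i`; `Q : ∀ i, (ZMod (n i))ˣ`, `Q i = ZMod.unitOfCoprime (q^j) _`. Raise `h0` to the power `l^(s*j)` (`sum_pow_char_pow`, characteristic `l`): `∑_u χ(u)^(q^j) * F (EV z u)^(q^j) = 0`, and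
`F (EV z u)^(q^j) = F ((EV z u)^(q^j)) = F (EV z (Q * u))` (`hF`, `EV_nat`). Substitute `u ↦ Q⁻¹ * u` (`Fintype.sum_equiv (Equiv.mulLeft Q)` or `Equiv.sum_comp`): `∑_u χ(Q⁻¹ * u)^(q^j) * F (EV z u) = 0` and `χ(Q⁻¹)` is a unit: divide.
`restr`: for `a` and every `j`: `∑_u χ(u * a⁻¹)^(q^j) * F (EV z u) = 0`; sum over `j < J`, exchange the sums, `avg` (row Av) for `y = χ(u * a⁻¹)` (hypothesis `hy`): the result is `J * ∑_{u, χ(u a⁻¹)^q = χ(u a⁻¹)} χ(u a⁻¹) F (EV z u) = 0`, and `(J : Ω) ≠ 0`. The passage from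
`y ^ q = y` in `Ω` to the equation in `Ωˣ` as at the end of `av2`.
-/

set_option autoImplicit false

namespace H2ZS

open Finset H5SW H46TS

theorem step {I : Type} [Fintype I] [DecidableEq I] {n : I → ℕ} [∀ i, NeZero (n i)] {Ω : Type*}
    [Field Ω] {l s : ℕ} [Fact l.Prime] [CharP Ω l] (hln : ∀ i, Nat.Coprime l (n i)) {z : I → Ω}
    (hz : ∀ i, z i ^ n i = 1) {F : Ω → Ω}
    (hF : ∀ (i : ℕ) (x : Ω), F x ^ ((l ^ s) ^ i) = F (x ^ ((l ^ s) ^ i)))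
    (χ : (∀ i, (ZMod (n i))ˣ) →* Ωˣ)
    (h0 : ∑ u : ∀ i, (ZMod (n i))ˣ, (χ u : Ω) * F (EV z fun i => (u i : ZMod (n i))) = 0) (j : ℕ) :
    ∑ u : ∀ i, (ZMod (n i))ˣ, (χ u : Ω) ^ ((l ^ s) ^ j) * F (EV z fun i => (u i : ZMod (n i))) =
      0 := by
  have hl : l.Prime := Fact.out
  have hcop : ∀ i, Nat.Coprime ((l ^ s) ^ j) (n i) := by
    intro i
    rw [← pow_mul]
    exact Nat.Coprime.pow_left _ (hln i)
  obtain ⟨Q, hQ⟩ : ∃ Q : ∀ i, (ZMod (n i))ˣ, ∀ i,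
      (Q i : ZMod (n i)) = (((l ^ s) ^ j : ℕ) : ZMod (n i)) :=
    ⟨fun i => ZMod.unitOfCoprime _ (hcop i), fun i => rfl⟩
  have hpow : (∑ u : ∀ i, (ZMod (n i))ˣ, (χ u : Ω) * F (EV z fun i => (u i : ZMod (n i)))) ^
      (l ^ (s * j)) = 0 := by
    rw [h0]
    exact zero_pow (pow_ne_zero _ hl.ne_zero)
  rw [sum_pow_char_pow] at hpow
  have hr : ∑ u : ∀ i, (ZMod (n i))ˣ, (χ (Q⁻¹ * (Q * u)) : Ω) ^ ((l ^ s) ^ j) *
      F (EV z fun i => ((Q * u) i : ZMod (n i))) = 0 := by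
    rw [← hpow]
    refine sum_congr rfl (fun u _ => ?_)
    have h1 : (fun i => (((Q * u) i : (ZMod (n i))ˣ) : ZMod (n i))) =
        fun i => (((l ^ s) ^ j : ℕ) : ZMod (n i)) * (u i : ZMod (n i)) := by
      funext i
      rw [Pi.mul_apply, Units.val_mul, hQ]
    rw [inv_mul_cancel_left, mul_pow, pow_mul l s j, hF, h1, EV_nat hz]
  have hs := Equiv.sum_comp (Equiv.mulLeft Q) (fun v : ∀ i, (ZMod (n i))ˣ =>
    (χ (Q⁻¹ * v) : Ω) ^ ((l ^ s) ^ j) * F (EV z fun i => (v i : ZMod (n i))))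
  simp only [Equiv.coe_mulLeft] at hs
  rw [hr] at hs
  have hfac : ∑ v : ∀ i, (ZMod (n i))ˣ, (χ (Q⁻¹ * v) : Ω) ^ ((l ^ s) ^ j) *
      F (EV z fun i => (v i : ZMod (n i)))
      = (χ Q⁻¹ : Ω) ^ ((l ^ s) ^ j) *
        ∑ v : ∀ i, (ZMod (n i))ˣ, (χ v : Ω) ^ ((l ^ s) ^ j) *
          F (EV z fun i => (v i : ZMod (n i))) := by
    rw [mul_sum]
    refine sum_congr rfl (fun v _ => ?_)
    rw [map_mul, Units.val_mul, mul_pow]
    ring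
  rw [hfac] at hs
  rcases mul_eq_zero.1 hs.symm with h | h
  · exact absurd h (pow_ne_zero _ (Units.ne_zero _))
  · exact h

open Classical in
theorem restr {I : Type} [Fintype I] [DecidableEq I] {n : I → ℕ} [∀ i, NeZero (n i)] {Ω : Type*}
    [Field Ω] {l s J : ℕ} [Fact l.Prime] [CharP Ω l] (hs : 1 ≤ s)
    (hln : ∀ i, Nat.Coprime l (n i)) {z : I → Ω} (hz : ∀ i, z i ^ n i = 1) {F : Ω → Ω}
    (hF : ∀ (i : ℕ) (x : Ω), F x ^ ((l ^ s) ^ i) = F (x ^ ((l ^ s) ^ i)))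
    (χ : (∀ i, (ZMod (n i))ˣ) →* Ωˣ) (hJ0 : (J : Ω) ≠ 0)
    (hJq : ∀ r : ℕ, r.Prime → r ∣ J → r ∣ l ^ s - 1 ∧ r ≠ 2)
    (hy : ∀ v, (χ v : Ω) ^ ((l ^ s - 1) * J) = 1)
    (h0 : ∑ u : ∀ i, (ZMod (n i))ˣ, (χ u : Ω) * F (EV z fun i => (u i : ZMod (n i))) = 0)
    (a : ∀ i, (ZMod (n i))ˣ) :
    ∑ u ∈ univ.filter (fun u => χ (u * a⁻¹) ^ (l ^ s) = χ (u * a⁻¹)),
      (χ (u * a⁻¹) : Ω) * F (EV z fun i => (u i : ZMod (n i))) = 0 := by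
  have hl : l.Prime := Fact.out
  have hstep : ∀ j : ℕ, ∑ v : ∀ i, (ZMod (n i))ˣ, (χ (v * a⁻¹) : Ω) ^ ((l ^ s) ^ j) *
      F (EV z fun i => (v i : ZMod (n i))) = 0 := by
    intro j
    have h2 : ∑ v : ∀ i, (ZMod (n i))ˣ, (χ (v * a⁻¹) : Ω) ^ ((l ^ s) ^ j) *
        F (EV z fun i => (v i : ZMod (n i))) = (χ a⁻¹ : Ω) ^ ((l ^ s) ^ j) *
        ∑ v : ∀ i, (ZMod (n i))ˣ, (χ v : Ω) ^ ((l ^ s) ^ j) *
          F (EV z fun i => (v i : ZMod (n i))) := by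
      rw [mul_sum]
      refine sum_congr rfl (fun v _ => ?_)
      rw [map_mul, Units.val_mul, mul_pow]
      ring
    rw [h2, step hln hz hF χ h0 j, mul_zero]
  have hsum : ∑ j ∈ range J, ∑ v : ∀ i, (ZMod (n i))ˣ, (χ (v * a⁻¹) : Ω) ^ ((l ^ s) ^ j) *
      F (EV z fun i => (v i : ZMod (n i))) = 0 := sum_eq_zero (fun j _ => hstep j)
  rw [sum_comm] at hsum
  have hJpos : 0 < J := by
    rcases Nat.eq_zero_or_pos J with h | h
    · exact absurd (by rw [h, Nat.cast_zero]) hJ0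
    · exact h
  have hq : 1 < l ^ s := Nat.one_lt_pow (by omega) hl.one_lt
  rw [sum_filter]
  refine (mul_eq_zero.1 ?_).resolve_left hJ0
  rw [mul_sum]
  refine Eq.trans ?_ hsum
  refine sum_congr rfl (fun v _ => ?_)
  rw [← sum_mul, avg hq hJpos hJq (hy (v * a⁻¹))]
  by_cases h5 : χ (v * a⁻¹) ^ (l ^ s) = χ (v * a⁻¹)
  · have h6 : ((χ (v * a⁻¹) : Ωˣ) : Ω) ^ (l ^ s) = χ (v * a⁻¹) := by
      rw [← Units.val_pow_eq_pow_val, h5]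
    rw [if_pos h5, if_pos h6]
    ring
  · have h6 : ¬ ((χ (v * a⁻¹) : Ωˣ) : Ω) ^ (l ^ s) = χ (v * a⁻¹) := by
      intro h7
      apply h5
      apply Units.ext
      rw [Units.val_pow_eq_pow_val, h7]
    rw [if_neg h5, if_neg h6, zero_mul, mul_zero]

end H2ZS
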