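import Pool.Agent.H2.ZS.Df

/-!
ROW St (the set where `χ(v)^q = χ(v)`, several primes; about 130 lines).  PROOF.
`q = l^s`. Write `n i = p i ^ (k i + 1)`.
`chi_prod`: `v = ∏ i, Pi.mulSingle i (v i)` (`Finset.univ_prod_mulSingle`), `map_prod`; `cmp χ i x = χ (Pi.mulSingle i x)` is `rfl`.
`wild`: for `x : (ZMod (n i))ˣ` and `ψ : (ZMod (n i))ˣ →* Ωˣ`: `x^((p i - 1) * p i ^ k i) = 1` (`pow_card_eq_one`, `ZMod.card_units_eq_totient`, `Nat.totient_prime_pow`, see the end of `av2` in `Pool/Agent/H46/TS/TD.lean`); `p i - 1 = l^a * r` with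
`¬ l ∣ r` (`Nat.exists_eq_pow_mul_and_not_dvd`), so `(ψ x)^(r * p i ^ k i) = 1` (`H46TS.TE_two`, raise to `l^a`), and `r ∣ l^s - 1` (`(hQ i).cop`), so `((ψ x)^(l^s - 1))^(p i ^ k i) = 1`.
`struct1`: put `w i = (cmp χ i (v i))^(l^s - 1)`; `w i ^ (p i ^ k i) = 1` by `wild` and `∏ i, w i = (χ v)^(l^s-1) = 1` (`H46TS.TE_iff`). For fixed `i`: `w i = (∏ j ∈ univ.erase i, w j)⁻¹` has `(∏ j ∈ univ.erase i, p j ^ k j)`-th power `1` (`Finset.dvd_prod_of_mem`);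
coprime to `p i ^ k i` (`Nat.Coprime.prod_right`, `Nat.coprime_primes`, `hinj`), so `w i = 1` (`pow_gcd_eq_one`, as in `TE_struct` in `Pool/Agent/H46/TS/TE.lean`). Then `TE_iff` again.
`struct2`: apply `struct1` and `H46TS.TE_struct hp2 (hQ i) (hek i) (cmp χ i) (hχ i) (u1 i) (hu1 i) (v i) _` for every `i` and `choose`.
`chi_in`: the converse: `χ v = ∏ i, cmp χ i (v i)`, each factor `y` has `y^(l^s-1) = 1`: `H46TS.TE_chired (hQ i) (cmp χ i) (red ..)` for the root part (`(red (k+1) x)^(p-1) = 1` by `map_pow`) and `S3_u1ord` with `(hQ i).dvd` for the part `u1 i ^ t`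
(see `hχu1` in the proof of `cosets` in TE.lean).
`pow_all`: for all `v`: `(χ v)^((l^s-1) * ∏ i, p i ^ (k i + 1 - e i)) = 1`: by `chi_prod` it is enough for each factor; as in `wild`: `(cmp χ i (v i))^(r * p i ^ k i) = 1` and `r * p i ^ k i ∣ (l^s - 1) * p i ^ (k i + 1 - e i)` because `r ∣ l^s - 1`, `p i ^ e i ∣ l^s - 1`,
`r` prime to `p i` (`r ∣ p i - 1`) (see `hdv2` in the proof of `av1` in TB.lean, uses `e i ≤ k i + 1`).
-/

set_option autoImplicit false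

namespace H2ZS

open Finset H5SW H46TS

variable {I : Type} [Fintype I] [DecidableEq I] {p k e : I → ℕ} [∀ i, Fact (p i).Prime]
  {Ω : Type*} [Field Ω] {l s : ℕ} [Fact l.Prime] [CharP Ω l]

theorem chi_prod {n : I → ℕ} (χ : (∀ i, (ZMod (n i))ˣ) →* Ωˣ) (v : ∀ i, (ZMod (n i))ˣ) :
    χ v = ∏ i, cmp χ i (v i) := by
  have h : χ v = χ (∏ i, Pi.mulSingle i (v i)) := by rw [Finset.univ_prod_mulSingle]
  rw [h, map_prod]
  rfl

private theorem St_wr {q j c : ℕ} [Fact q.Prime] (hQ : QD l q c s)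
    (ψ : (ZMod (q ^ (j + 1)))ˣ →* Ωˣ) (x : (ZMod (q ^ (j + 1)))ˣ) :
    ∃ r, r ∣ l ^ s - 1 ∧ r ∣ q - 1 ∧ ψ x ^ (r * q ^ j) = 1 := by
  have hp : q.Prime := Fact.out
  have hl : l.Prime := Fact.out
  obtain ⟨a, r, hr, har⟩ := Nat.exists_eq_pow_mul_and_not_dvd (n := q - 1)
    (by have := hp.one_lt; omega) l hl.ne_one
  have hd : r ∣ q - 1 := ⟨l ^ a, by rw [har, mul_comm]⟩
  refine ⟨r, hQ.cop r hr hd, hd, ?_⟩
  apply TE_two (l := l) _ a
  have h3 : x ^ ((q - 1) * q ^ j) = 1 := by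
    have h4 : Fintype.card (ZMod (q ^ (j + 1)))ˣ = (q - 1) * q ^ j := by
      rw [ZMod.card_units_eq_totient, Nat.totient_prime_pow hp (Nat.succ_pos j), Nat.succ_sub_one]
      ring
    rw [← h4]
    exact pow_card_eq_one
  have h5 : r * q ^ j * l ^ a = (q - 1) * q ^ j := by
    rw [har]
    ring
  rw [← pow_mul, h5, ← map_pow, h3, map_one]

private theorem St_wild {q j c : ℕ} [Fact q.Prime] (hQ : QD l q c s)
    (ψ : (ZMod (q ^ (j + 1)))ˣ →* Ωˣ) (x : (ZMod (q ^ (j + 1)))ˣ) :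
    (ψ x ^ (l ^ s - 1)) ^ (q ^ j) = 1 := by
  obtain ⟨r, ⟨d, hd⟩, -, h⟩ := St_wr hQ ψ x
  have h1 : (l ^ s - 1) * q ^ j = r * q ^ j * d := by
    rw [hd]
    ring
  rw [← pow_mul, h1, pow_mul, h, one_pow]

private theorem St_struct1 (hinj : Function.Injective p) (hQ : ∀ i, QD l (p i) (e i) s)
    (χ : (∀ i, (ZMod (p i ^ (k i + 1)))ˣ) →* Ωˣ)
    (v : ∀ i, (ZMod (p i ^ (k i + 1)))ˣ) (hv : χ v ^ (l ^ s) = χ v) (i : I) :
    cmp χ i (v i) ^ (l ^ s) = cmp χ i (v i) := by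
  have hl : l.Prime := Fact.out
  rw [TE_iff hl]
  rw [TE_iff hl, chi_prod, ← Finset.prod_pow, ← Finset.mul_prod_erase _ _ (Finset.mem_univ i)] at hv
  have h1 : (cmp χ i (v i) ^ (l ^ s - 1)) ^ (p i ^ k i) = 1 := St_wild (hQ i) (cmp χ i) (v i)
  have h2 : (∏ j ∈ Finset.univ.erase i, cmp χ j (v j) ^ (l ^ s - 1)) ^
      (∏ j ∈ Finset.univ.erase i, p j ^ k j) = 1 := by
    rw [← Finset.prod_pow]
    refine Finset.prod_eq_one fun j hj => ?_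
    obtain ⟨d, hd⟩ := Finset.dvd_prod_of_mem (fun j => p j ^ k j) hj
    rw [hd, pow_mul, St_wild (hQ j) (cmp χ j) (v j), one_pow]
  have h3 : (cmp χ i (v i) ^ (l ^ s - 1)) ^ (∏ j ∈ Finset.univ.erase i, p j ^ k j) = 1 := by
    rw [eq_inv_of_mul_eq_one_left hv, inv_pow, h2, inv_one]
  have h4 := pow_gcd_eq_one.2 ⟨h1, h3⟩
  have hcop : Nat.Coprime (p i ^ k i) (∏ j ∈ Finset.univ.erase i, p j ^ k j) := by
    refine Nat.Coprime.prod_right fun j hj => Nat.Coprime.pow _ _ ?_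
    rw [Nat.coprime_primes Fact.out Fact.out]
    intro h
    exact (Finset.mem_erase.1 hj).1 (hinj h).symm
  rwa [hcop.gcd_eq_one, pow_one] at h4

theorem struct2 (hp2 : ∀ i, p i ≠ 2) (hinj : Function.Injective p) (hQ : ∀ i, QD l (p i) (e i) s)
    (hek : ∀ i, 2 * e i ≤ k i + 1) (χ : (∀ i, (ZMod (p i ^ (k i + 1)))ˣ) →* Ωˣ)
    (hχ : ∀ i, Prim (cmp χ i)) (u1 : ∀ i, (ZMod (p i ^ (k i + 1)))ˣ)
    (hu1 : ∀ i, (u1 i : ZMod (p i ^ (k i + 1))) =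
      1 + (p i : ZMod (p i ^ (k i + 1))) ^ (k i + 1 - e i))
    (v : ∀ i, (ZMod (p i ^ (k i + 1)))ˣ) (hv : χ v ^ (l ^ s) = χ v) :
    ∃ (x : ∀ i, ℤ_[p i]ˣ) (t : I → ℕ), (∀ i, x i ^ (p i - 1) = 1) ∧ (∀ i, t i < p i ^ e i) ∧
      v = fun i => red (k i + 1) (x i) * u1 i ^ t i := by
  have h1 : ∀ i, ∃ x : ℤ_[p i]ˣ, x ^ (p i - 1) = 1 ∧ ∃ t < p i ^ e i,
      v i = red (k i + 1) x * u1 i ^ t := fun i =>
    TE_struct (hp2 i) (hQ i) (hek i) (cmp χ i) (hχ i) (u1 i) (hu1 i) (v i)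
      (St_struct1 hinj hQ χ v hv i)
  choose x hx t ht hv' using h1
  exact ⟨x, t, hx, ht, funext hv'⟩

theorem chi_in (hQ : ∀ i, QD l (p i) (e i) s)
    (hek : ∀ i, 2 * e i ≤ k i + 1) (χ : (∀ i, (ZMod (p i ^ (k i + 1)))ˣ) →* Ωˣ)
    (u1 : ∀ i, (ZMod (p i ^ (k i + 1)))ˣ)
    (hu1 : ∀ i, (u1 i : ZMod (p i ^ (k i + 1))) =
      1 + (p i : ZMod (p i ^ (k i + 1))) ^ (k i + 1 - e i))
    (x : ∀ i, ℤ_[p i]ˣ) (hx : ∀ i, x i ^ (p i - 1) = 1) (t : I → ℕ) :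
    χ (fun i => red (k i + 1) (x i) * u1 i ^ t i) ^ (l ^ s) =
      χ (fun i => red (k i + 1) (x i) * u1 i ^ t i) := by
  have hl : l.Prime := Fact.out
  rw [TE_iff hl, chi_prod, ← Finset.prod_pow]
  refine Finset.prod_eq_one fun i _ => ?_
  have h1 : (red (k i + 1) (x i)) ^ (p i - 1) = 1 := by rw [← map_pow, hx i, map_one]
  obtain ⟨c, hc⟩ := (hQ i).dvd
  rw [map_mul, mul_pow, TE_chired (hQ i) (cmp χ i) _ h1, one_mul, ← map_pow, ← pow_mul,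
    mul_comm (t i), hc, mul_assoc, pow_mul, S3_u1ord (hek i) (u1 i) (hu1 i), one_pow, map_one]

theorem pow_all (hQ : ∀ i, QD l (p i) (e i) s) (hek : ∀ i, e i ≤ k i + 1)
    (χ : (∀ i, (ZMod (p i ^ (k i + 1)))ˣ) →* Ωˣ) (v : ∀ i, (ZMod (p i ^ (k i + 1)))ˣ) :
    (χ v : Ω) ^ ((l ^ s - 1) * ∏ i, p i ^ (k i + 1 - e i)) = 1 := by
  have h0 : χ v ^ ((l ^ s - 1) * ∏ i, p i ^ (k i + 1 - e i)) = 1 := by
    rw [chi_prod, ← Finset.prod_pow]
    refine Finset.prod_eq_one fun i _ => ?_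
    have hp : (p i).Prime := Fact.out
    obtain ⟨r, hrd, hrp, hr⟩ := St_wr (hQ i) (cmp χ i) (v i)
    have hr0 : 0 < r := by
      rcases Nat.eq_zero_or_pos r with h | h
      · rw [h, zero_dvd_iff] at hrp
        have := hp.one_lt
        omega
      · exact h
    have hcop : Nat.Coprime r (p i ^ e i) := by
      refine Nat.Coprime.pow_right _ ?_
      rw [Nat.coprime_comm, Nat.Prime.coprime_iff_not_dvd hp]
      intro h1
      have h2 : r ≤ p i - 1 := Nat.le_of_dvd (by have := hp.one_lt; omega) hrp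
      have h3 := Nat.le_of_dvd hr0 h1
      have := hp.one_lt
      omega
    have hdv : r * p i ^ e i ∣ l ^ s - 1 := Nat.Coprime.mul_dvd_of_dvd_of_dvd hcop hrd (hQ i).dvd
    have hdv2 : r * p i ^ k i ∣ (l ^ s - 1) * p i ^ (k i + 1 - e i) := by
      have h1 : p i ^ k i ∣ p i ^ e i * p i ^ (k i + 1 - e i) := by
        rw [← pow_add]
        exact pow_dvd_pow _ (by have := hek i; omega)
      calc r * p i ^ k i ∣ r * (p i ^ e i * p i ^ (k i + 1 - e i)) := Nat.mul_dvd_mul_left r h1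
        _ = r * p i ^ e i * p i ^ (k i + 1 - e i) := by ring
        _ ∣ (l ^ s - 1) * p i ^ (k i + 1 - e i) := Nat.mul_dvd_mul_right hdv _
    have hdv3 : r * p i ^ k i ∣ (l ^ s - 1) * ∏ i, p i ^ (k i + 1 - e i) :=
      hdv2.trans (Nat.mul_dvd_mul_left _
        (Finset.dvd_prod_of_mem (fun i => p i ^ (k i + 1 - e i)) (Finset.mem_univ i)))
    obtain ⟨d, hd⟩ := hdv3
    rw [hd, pow_mul, hr, one_pow]
  rw [← Units.val_pow_eq_pow_val, h0, Units.val_one]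

end H2ZS
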