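import Pool.Agent.H78.ZC.St
import Pool.Agent.H2.ZS.CmpN

/-!
# MP_78d38b, S-towers: stability of the Tate-Shafarevich groups for points over fields of `l`-type
(helper2; copy of `H78Z.stable_tower_S` of helper78; no row)
-/

set_option autoImplicit false
set_option linter.style.haveILetI false
open scoped Classical

open WeierstrassCurve IsDedekindDomain NumberField H5SW H68QS H68IM H68TL Pool.Agent.H10
  Pool.Agent.H11 H68TM H68SS H78D H78Z

namespace H2ZS

/-- A field which is fixed by a complex conjugation is totally real. -/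
theorem real_of_cc {k N : Type} [Field k] [NumberField k] [Field N] [NumberField N] [Algebra k N]
    {J : N ≃ₐ[k] N} (hJ : IsCC (J : N ≃+* N)) : IsTotallyReal k := by
  refine ⟨fun v => ?_⟩
  obtain ⟨ψ, hψ⟩ := H68TL.emb_ext (algebraMap k N) v.embedding
  rw [← InfinitePlace.mk_embedding v, InfinitePlace.isReal_mk_iff]
  ext x
  rw [ComplexEmbedding.conjugate_coe_eq, ← hψ]
  have h1 := hJ ψ (algebraMap k N x)
  have h2 : (J : N ≃+* N) (algebraMap k N x) = algebraMap k N x := J.commutes x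
  rw [h2] at h1
  exact h1.symm

/-- Stability of the Tate-Shafarevich groups in the tower, first form. -/
theorem stable_tower_SN' {S : Finset ℕ} (hS : OP S) {l : ℕ} [Fact l.Prime] (hl2 : l ≠ 2)
    (hlS : l ∉ S) {k N2 : Type} [Field k] [NumberField k] [Field N2] [NumberField N2]
    [Algebra k N2] (hN2 : NType l N2) {J1 : N2 ≃ₐ[k] N2} (hJ1 : IsCC (J1 : N2 ≃+* N2))
    {E : WeierstrassCurve k} (hE : E.Δ ≠ 0) {T1 : (E.map (algebraMap k N2)).toAffine.Point}
    (hT1 : T1 ≠ 0) (hTl : l • T1 = 0)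
    (hh1 : (E.map (algebraMap k N2)).map (J1 : N2 →+* N2) = E.map (algebraMap k N2))
    (H : (pm (J1 : N2 →+* N2) hh1 T1 = -T1 ∧ SsOdd l (E.map (algebraMap k N2)) T1) ∨
      (pm (J1 : N2 →+* N2) hh1 T1 = T1 ∧ SsEven l (E.map (algebraMap k N2)) T1)) :
    ∃ N0 : ℕ, ∀ N1 : ℕ, N0 ≤ N1 → ∀ (K L L' : Type) [Field K] [NumberField K] [Field L]
      [NumberField L] [Field L'] [NumberField L'] [Algebra k K] [Algebra k L] [Algebra K L]
      [IsScalarTower k K L] (h : L' →+* L), IsRS S L' →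
      IntermediateField.adjoin k (Set.range h) = ⊤ →
      (∀ x : L', (∃ y : CyclotomicField ((∏ q ∈ S, q) ^ N1) ℚ, minpoly ℚ y = minpoly ℚ x) →
        ∃ z : K, algebraMap K L z = h x) →
      StableL l K L (E.map (algebraMap k K)) := by
  have hl : l.Prime := Fact.out
  have hk : IsTotallyReal k := real_of_cc hJ1
  obtain ⟨M, N, _, _, ν, J, hlM, hM, hNG, hLT, hJ, hJν'⟩ := exists_compN hN2 hJ1 hl.ne_zero
  haveI := hNG
  letI : Algebra k N := (ν.comp (algebraMap k N2)).toAlgebra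
  have hν : (E.map (algebraMap k N2)).map ν = E.map (algebraMap k N) := by
    rw [WeierstrassCurve.map_map]
    rfl
  have hJν : ∀ x, J (ν x) = ν (J1 x) := hJν'
  have hJW : (E.map (algebraMap k N)).map (J : N →+* N) = E.map (algebraMap k N) := by
    rw [WeierstrassCurve.map_map]
    congr 1
    refine RingHom.ext fun x => ?_
    change J (ν (algebraMap k N2 x)) = ν (algebraMap k N2 x)
    rw [hJν, J1.commutes]
  have key : pm (J : N →+* N) hJW (pm ν hν T1) = pm ν hν (pm (J1 : N2 →+* N2) hh1 T1) := by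
    rw [pm_pm ν hν (J : N →+* N) hJW, pm_pm (J1 : N2 →+* N2) hh1 ν hν]
    exact pm_congr _ _ (fun x => hJν x) T1
  obtain ⟨N0, hN0⟩ := ctl_comp_S hS (T0 := pm ν hν T1) hl2 hlS hlM hM hk hLT hJ hE
    (by
      intro h0
      apply hT1
      apply pm_injective ν hν
      rw [h0, map_zero])
    (by rw [← map_nsmul, hTl, map_zero]) hJW
    (by
      rcases H with ⟨h1, h2⟩ | ⟨h1, h2⟩
      · left
        exact ⟨by rw [key, h1, map_neg], ssOdd_up ν hν h2⟩
      · right
        exact ⟨by rw [key, h1], ssEven_up ν hν h2⟩)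
  refine ⟨N0 + 1, ?_⟩
  intro N1 hN1 K L L' _ _ _ _ _ _ _ _ _ _ h hR hgen hdeep
  haveI hab : IsAbelianGalois ℚ L' := hR.ab
  haveI hgal : IsGalois ℚ L' := IsAbelianGalois.toIsGalois
  -- the extension `L / K`
  obtain ⟨K', _, _, _, ⟨C, hC, hCh⟩, hd, hK'⟩ := decomposeS (K := K) h hgal hgen
  have hdeep' : Deep ((∏ q ∈ S, q) ^ N1) K' L' := fun x hx => hK' x (hdeep x hx)
  have hGKL : IsGalois K L := (Tg_rho C hgal).1
  have hEL : ((E.map (algebraMap k K)).baseChange L).IsElliptic := by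
    refine ⟨?_⟩
    rw [WeierstrassCurve.baseChange, WeierstrassCurve.map_Δ, WeierstrassCurve.map_Δ]
    exact ((isUnit_iff_ne_zero.2 hE).map _).map _
  have hnl : ¬ l ∣ Module.finrank K L := by
    intro hdv
    rw [← hd] at hdv
    exact hlS (mem_S hS (by omega) hR hdeep' hl hdv)
  refine of_ctl hl hnl hEL ?_
  refine ctl_glue _ fun r hr hrd => ?_
  have hrS : r ∈ S := by
    rw [← hd] at hrd
    exact mem_S hS (by omega) hR hdeep' hr hrd
  obtain ⟨K1, _, _, _, _, _, _, hr1, i, hi⟩ := exists_sylow (K := K) (L := L) hr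
  letI : Algebra k K1 := ((algebraMap K K1).comp (algebraMap k K)).toAlgebra
  haveI : IsScalarTower k K1 L := IsScalarTower.of_algebraMap_eq fun x => by
    rw [IsScalarTower.algebraMap_apply k K L, IsScalarTower.algebraMap_apply K K1 L]
    rfl
  obtain ⟨K1', _, _, _, ⟨C1, hC1, hCh1⟩, hd1, hK1'⟩ := decomposeS (K := K1) h hgal hgen
  have hQ : QS S N1 K1' L' :=
    { rs := hR
      deg := ⟨r, hrS, i, by rw [hd1, hi]⟩
      deep := fun x hx => hK1' x (by
        obtain ⟨z, hz⟩ := hdeep x hx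
        exact ⟨algebraMap K K1 z, by rw [← hz, ← IsScalarTower.algebraMap_apply K K1 L]⟩) }
  obtain ⟨hG1, -, hct⟩ := hN0 N1 (by omega) K1' L' K1 L C1 hQ
  have e : (E.map C1.f).baseChange L = (E.map (algebraMap k K)).baseChange L := by
    rw [WeierstrassCurve.baseChange, WeierstrassCurve.baseChange, WeierstrassCurve.map_map,
      WeierstrassCurve.map_map]
    congr 1
    refine RingHom.ext fun x => ?_
    change algebraMap K1 L (C1.f x) = algebraMap K L (algebraMap k K x)
    rw [hC1, ← IsScalarTower.algebraMap_apply k K1 L, ← IsScalarTower.algebraMap_apply k K L]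
  refine ⟨K1, inferInstance, inferInstance, inferInstance, inferInstance, inferInstance,
    inferInstance, ?_, hr1, CTl.congr e hct⟩
  rw [← e]
  exact inv_up rfl



/-- Stability of the Tate-Shafarevich groups in the tower of the totally real subfields of the
fields `k(ζ_A)`, all prime factors of `A` in `S`. -/
theorem stable_tower_SN {S : Finset ℕ} (hS : OP S) {l : ℕ} [Fact l.Prime] (hl2 : l ≠ 2)
    (hlS : l ∉ S) {k N2 : Type} [Field k] [NumberField k] [Field N2] [NumberField N2]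
    [Algebra k N2] (hN2 : NType l N2) {J1 : N2 ≃ₐ[k] N2} (hJ1 : IsCC (J1 : N2 ≃+* N2))
    {E : WeierstrassCurve k} (hE : E.Δ ≠ 0) {T1 : (E.map (algebraMap k N2)).toAffine.Point}
    (hT1 : T1 ≠ 0) (hTl : l • T1 = 0)
    (hh1 : (E.map (algebraMap k N2)).map (J1 : N2 →+* N2) = E.map (algebraMap k N2))
    (H : (pm (J1 : N2 →+* N2) hh1 T1 = -T1 ∧ SsOdd l (E.map (algebraMap k N2)) T1) ∨
      (pm (J1 : N2 →+* N2) hh1 T1 = T1 ∧ SsEven l (E.map (algebraMap k N2)) T1)) :
    ∃ N : ℕ, ∀ (K L : Type) [Field K] [NumberField K] [Field L] [NumberField L]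
      [Algebra k K] [Algebra k L] [Algebra K L] [IsScalarTower k K L],
      IsTotallyReal L → (∃ A : ℕ, SN S A ∧ Nonempty (L →ₐ[k] CyclotomicField A k)) →
      Deep ((∏ q ∈ S, q) ^ N) K L →
      StableL l K L (E.map (algebraMap k K)) := by
  obtain ⟨N, hN⟩ := stable_tower_SN' hS hl2 hlS hN2 hJ1 hE hT1 hTl hh1 H
  refine ⟨N, ?_⟩
  intro K L _ _ _ _ _ _ _ _ hr ⟨A, hA, ⟨j⟩⟩ hD
  obtain ⟨L', _, _, h, hr', he, hgen⟩ := exists_real hA.1 hr j
  refine hN N le_rfl K L L' h ⟨hr', A, hA, he⟩ hgen fun x hx => hD (h x) ?_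
  obtain ⟨y, hy⟩ := hx
  refine ⟨y, hy.trans ?_⟩
  exact (minpoly.algHom_eq h.toRatAlgHom h.toRatAlgHom.injective x).symm

end H2ZS
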