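import Pool.Agent.H2.ZS.Jt
import Pool.Agent.H2.ZS.Dp
import Pool.Agent.H2.ZS.Fl
import Pool.Agent.H2.ZS.Mi
import Pool.Agent.H78.MG.Sg

/-!
ROW Un (uniform non vanishing; about 150 lines).  PROOF.
`unif_ind`: induction on `T.card`, for all `M0` at once. `s0` from `H78M.exists_s0 l M0`; `J = {q // q ∈ T}`, `q j = (j : ℕ)`; `K` from `joint` (row Jt) for the family `pO p (fun j : J => (j : ℕ))` (injective as `p ∉ T`; `Option J` is nonempty). For `q ∈ T` and `i : ℕ` the induction hypothesis for `T.erase q` and `M0 * q ^ i`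
(prime to `p` and to the `q' ∈ T.erase q`, divisible by `l`, not zero) gives a level `kl q i`. `k0 = K + 1 + ∑ q ∈ T, ∑ i ∈ range (K + 1), kl q i`.
Let `j`, `k ≥ k0`, `Ω`, `z`, `ε`, `ψ`, `χ` be given, `N j = M0 * ∏ q ∈ T, q ^ j q`. `exists_min` (row Mi) gives `j'`, `ψ'`; the prime divisors of `N j` divide `N j'`; `Tc_level` (row Fl) reduces to `ψ'` (`ψ' (-1) = ψ (-1)`; `p` is prime to `N j`).
Case 1: some `q ∈ T` has `j' q ≤ K`. `N j' = (M0 * q ^ (j' q)) * ∏ q' ∈ T.erase q, q' ^ j' q'` (`Finset.mul_prod_erase`), and the induction hypothesis (level `kl q (j' q) ≤ k0`) applies: to avoid casts use the statement in the form `∀ M, M = M0 * ∏ .. → NVU l p M k0` as written (`subst`/`rfl`).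
Case 2: all `j' q > K` for `q ∈ T`; so `j' q ≥ 2` if `K ≥ 1` (take `K` replaced by `max K 1`: `JTP` is monotone in `K`), `kk j = j' j - 1 ≥ K`, `N j' = M0 * ∏ j : J, (j : ℕ) ^ (kk j + 1)` (`Finset.prod_coe_sort`), `PrA ψ' q` for all `q ∈ T`: `deep` (row Dp).
`unif`: write `M0 = M1 * R0` with `M1` prime to all `q ∈ T` and `R0` a product of powers of the `q ∈ T` (`M1 = M0 / ∏ q ∈ T, q ^ (padicValNat q M0)` or `ordCompl`; induction over `T` is also possible), then `M0 * R = M1 * ∏ q ∈ T, q ^ (padicValNat q (R0 * R))` for every `R` all of whose prime divisors are in `T`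
(`Nat.factorization_prod_pow_eq_self`, support in `T`).
-/

/-!
Row Un: uniform non vanishing.
-/

set_option autoImplicit false

namespace H2ZS

open Finset H5SW H46TS H78H H78M

theorem Un_unitsMap {M M' : ℕ} (hd : M' ∣ M) : ZMod.unitsMap hd (-1) = -1 := by
  refine Units.ext ?_
  rw [ZMod.unitsMap_val, Units.val_neg, Units.val_one, ZMod.cast_neg hd, ZMod.cast_one hd]
  rfl

theorem Un_copN {p M0 : ℕ} (hp : p.Prime) (hpM : p.Coprime M0) {T : Finset ℕ}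
    (hT : ∀ q ∈ T, q.Prime ∧ q ≠ p) (j : ℕ → ℕ) : p.Coprime (M0 * ∏ q ∈ T, q ^ j q) :=
  Nat.Coprime.mul_right hpM (Nat.Coprime.prod_right fun q hq =>
    Nat.Coprime.pow_right _ ((Nat.coprime_primes hp (hT q hq).1).2 (hT q hq).2.symm))

theorem Un_dvd {M0 : ℕ} {T : Finset ℕ} (hT : ∀ q ∈ T, q.Prime) {j j' : ℕ → ℕ}
    (hne : ∀ q ∈ T, j q ≠ 0 → j' q ≠ 0) (r : ℕ) (hr : r.Prime)
    (h : r ∣ M0 * ∏ q ∈ T, q ^ j q) : r ∣ M0 * ∏ q ∈ T, q ^ j' q := by
  rcases (Nat.Prime.dvd_mul hr).1 h with h1 | h1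
  · exact h1.mul_right _
  · obtain ⟨q, hq, hrq⟩ := (hr.prime.dvd_finsetProd_iff _).1 h1
    have h2 : r ∣ q := hr.dvd_of_dvd_pow hrq
    have h3 : r = q := (Nat.prime_dvd_prime_iff_eq hr (hT q hq)).1 h2
    subst h3
    have h4 : j r ≠ 0 := by
      intro h0
      rw [h0, pow_zero] at hrq
      exact hr.one_lt.ne' (Nat.dvd_one.1 hrq)
    exact ((dvd_pow_self r (hne r hq h4)).trans
      (Finset.dvd_prod_of_mem (fun q => q ^ j' q) hq)).mul_left _

/-- the statement of `unif_ind` for one set. -/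
def Un_P (l p : ℕ) [Fact p.Prime] (T : Finset ℕ) : Prop :=
  ∀ M0 : ℕ, M0 ≠ 0 → l ∣ M0 → p.Coprime M0 → (∀ q ∈ T, q.Coprime M0) →
    ∃ k0 : ℕ, ∀ (j : ℕ → ℕ) (M : ℕ), M = M0 * ∏ q ∈ T, q ^ j q → NVU l p M k0

theorem Un_step {l p : ℕ} [hlF : Fact l.Prime] [hpF : Fact p.Prime] (hl2 : l ≠ 2) (hp2 : p ≠ 2)
    (hlp : l ≠ p) (T : Finset ℕ) (hT : ∀ q ∈ T, q.Prime ∧ q ≠ 2 ∧ q ≠ l ∧ q ≠ p)
    (ih : ∀ q ∈ T, Un_P l p (T.erase q)) : Un_P l p T := by
  intro M0 hM0 hlM hpM hqM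
  have hM0z : NeZero M0 := ⟨hM0⟩
  have hM01 : 1 < M0 :=
    lt_of_lt_of_le hlF.out.one_lt (Nat.le_of_dvd (Nat.pos_of_ne_zero hM0) hlM)
  obtain ⟨s0, hs1, hs0⟩ := exists_s0 l M0
  have hqF : ∀ j : T, Fact ((fun j : T => (j : ℕ)) j).Prime := fun j => ⟨(hT j j.2).1⟩
  have hJ : ∃ K : ℕ, JTP l M0 s0 K (pO p (fun j : T => (j : ℕ))) := by
    refine joint hl2 ?_ ?_ ?_ ?_ hs1
    · rintro (_ | j)
      · exact hp2
      · exact (hT j j.2).2.1
    · rintro (_ | j)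
      · exact hlp
      · exact (hT j j.2).2.2.1.symm
    · rintro (_ | i) (_ | j) hij
      · rfl
      · exact absurd hij.symm (hT j j.2).2.2.2
      · exact absurd hij (hT i i.2).2.2.2
      · exact congrArg some (Subtype.ext hij)
    · rintro (_ | j)
      · exact hpM
      · exact hqM j j.2
  obtain ⟨K0, hK0⟩ := hJ
  obtain ⟨K, hKdef⟩ : ∃ K, K = max K0 1 := ⟨_, rfl⟩
  have hK : JTP l M0 s0 K (pO p (fun j : T => (j : ℕ))) := fun k hk =>
    hK0 k (fun i => (le_max_left K0 1).trans (hKdef ▸ hk i))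
  have hex : ∀ q i : ℕ, ∃ k0 : ℕ, q ∈ T → ∀ (j : ℕ → ℕ) (M : ℕ),
      M = M0 * q ^ i * ∏ q' ∈ T.erase q, q' ^ j q' → NVU l p M k0 := by
    intro q i
    by_cases hq : q ∈ T
    · obtain ⟨k0, hk0⟩ := ih q hq (M0 * q ^ i)
        (mul_ne_zero hM0 (pow_ne_zero _ (hT q hq).1.ne_zero)) (hlM.mul_right _)
        (Nat.Coprime.mul_right hpM (Nat.Coprime.pow_right _
          ((Nat.coprime_primes hpF.out (hT q hq).1).2 (hT q hq).2.2.2.symm)))
        (fun q' hq' => Nat.Coprime.mul_right (hqM q' (Finset.mem_of_mem_erase hq'))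
          (Nat.Coprime.pow_right _ ((Nat.coprime_primes (hT q' (Finset.mem_of_mem_erase hq')).1
            (hT q hq).1).2 (Finset.ne_of_mem_erase hq'))))
      exact ⟨k0, fun _ => hk0⟩
    · exact ⟨0, fun h => absurd h hq⟩
  choose kl hkl using hex
  refine ⟨K + ∑ q ∈ T, ∑ i ∈ range (K + 1), kl q i, ?_⟩
  intro j M hM
  subst hM
  intro k hk Ω _ _ z hz ε hε ψ hψ χ hχ hχp
  obtain ⟨j', hle, hne, hd, ψ', rfl, hpr⟩ := exists_min (fun q hq => (hT q hq).1) hM0 j ψ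
  have hNz : ∀ j : ℕ → ℕ, NeZero (M0 * ∏ q ∈ T, q ^ j q) := fun j =>
    ⟨mul_ne_zero hM0 (Finset.prod_ne_zero_iff.2 fun q hq => pow_ne_zero _ (hT q hq).1.ne_zero)⟩
  have hz1 := hNz j
  have hz2 := hNz j'
  have hTp : ∀ q ∈ T, q.Prime ∧ q ≠ p := fun q hq => ⟨(hT q hq).1, (hT q hq).2.2.2⟩
  rw [Tc_level hd (Un_dvd (fun q hq => (hT q hq).1) hne) (Un_copN hpF.out hpM hTp j) hz χ ψ']
  have hψ' : ψ' (-1) = -ε := by
    rw [← hψ, MonoidHom.comp_apply, Un_unitsMap]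
  by_cases hcase : ∃ q ∈ T, j' q ≤ K
  · obtain ⟨q, hq, hqK⟩ := hcase
    have h1 : kl q (j' q) ≤ k := by
      have h2 : kl q (j' q) ≤ ∑ i ∈ range (K + 1), kl q i :=
        Finset.single_le_sum (f := fun i => kl q i) (fun _ _ => Nat.zero_le _)
          (Finset.mem_range.2 (by omega))
      have h3 : ∑ i ∈ range (K + 1), kl q i ≤ ∑ q ∈ T, ∑ i ∈ range (K + 1), kl q i :=
        Finset.single_le_sum (f := fun q => ∑ i ∈ range (K + 1), kl q i)
          (fun _ _ => Nat.zero_le _) hq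
      omega
    refine hkl q (j' q) hq j' _ ?_ k h1 Ω z hz ε hε ψ' hψ' χ hχ hχp
    rw [mul_assoc, Finset.mul_prod_erase T (fun q => q ^ j' q) hq]
  · push Not at hcase
    have hkk : ∀ i : T, K ≤ j' i - 1 := fun i => by
      have := hcase i i.2
      omega
    have hM' : M0 * ∏ q ∈ T, q ^ j' q = M0 * ∏ i : T, (i : ℕ) ^ (j' i - 1 + 1) := by
      congr 1
      rw [← Finset.prod_coe_sort T (fun q => q ^ j' q)]
      refine Finset.prod_congr rfl fun i _ => ?_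
      have := hcase i i.2
      rw [Nat.sub_add_cancel (by omega)]
    exact deep (q := fun j : T => (j : ℕ)) (kk := fun i : T => j' i - 1) hl2 hp2
      (fun i => (hT i i.2).2.2.1.symm) (fun a b h => Subtype.ext h) hM'
      (fun i => hqM i i.2) (Un_copN hpF.out hpM hTp j') hM01 hs0 hK (by omega) hkk hz hε ψ' hψ'
      (fun i => hpr i i.2 (by
        have := hcase i i.2
        have : 1 ≤ K := hKdef ▸ le_max_right K0 1
        omega)) χ hχ hχp

theorem unif_ind {l p : ℕ} [Fact l.Prime] [Fact p.Prime] (hl2 : l ≠ 2) (hp2 : p ≠ 2)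
    (hlp : l ≠ p) : ∀ (n : ℕ) (T : Finset ℕ), T.card = n →
    (∀ q ∈ T, q.Prime ∧ q ≠ 2 ∧ q ≠ l ∧ q ≠ p) → ∀ M0 : ℕ, M0 ≠ 0 → l ∣ M0 → p.Coprime M0 →
    (∀ q ∈ T, q.Coprime M0) → ∃ k0 : ℕ, ∀ (j : ℕ → ℕ) (M : ℕ), M = M0 * ∏ q ∈ T, q ^ j q →
      NVU l p M k0 := by
  intro n
  induction n with
  | zero =>
    intro T hc hT
    refine Un_step hl2 hp2 hlp T hT ?_
    intro q hq
    rw [Finset.card_eq_zero] at hc
    rw [hc] at hq
    exact absurd hq (Finset.notMem_empty q)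
  | succ n ih =>
    intro T hc hT
    refine Un_step hl2 hp2 hlp T hT ?_
    intro q hq
    exact ih (T.erase q) (by rw [Finset.card_erase_of_mem hq, hc]; rfl)
      (fun q' hq' => hT q' (Finset.mem_of_mem_erase hq'))

theorem Un_factor {T : Finset ℕ} {M0 R : ℕ} (hM0 : M0 ≠ 0) (hR : R ≠ 0)
    (hRT : ∀ r : ℕ, r.Prime → r ∣ R → r ∈ T) :
    M0 * R = (∏ a ∈ M0.primeFactors \ T, a ^ M0.factorization a) *
      ∏ a ∈ T, a ^ (M0 * R).factorization a := by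
  have hn : M0 * R ≠ 0 := mul_ne_zero hM0 hR
  have hsub : (M0 * R).factorization.support ⊆ (M0.primeFactors \ T) ∪ T := by
    intro a ha
    rw [Nat.support_factorization, Nat.mem_primeFactors] at ha
    obtain ⟨hap, had, -⟩ := ha
    rw [Finset.sdiff_union_self_eq_union, Finset.mem_union]
    rcases (Nat.Prime.dvd_mul hap).1 had with h1 | h1
    · left
      exact Nat.mem_primeFactors.2 ⟨hap, h1, hM0⟩
    · right
      exact hRT a hap h1
  have h1 : M0 * R = ∏ a ∈ (M0.primeFactors \ T) ∪ T, a ^ (M0 * R).factorization a := by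
    conv_lhs => rw [← Nat.prod_factorization_pow_eq_self hn]
    exact Finsupp.prod_of_support_subset _ hsub _ (fun i _ => pow_zero i)
  conv_lhs => rw [h1]
  rw [Finset.prod_union Finset.sdiff_disjoint]
  congr 1
  refine Finset.prod_congr rfl fun a ha => ?_
  obtain ⟨ha1, ha2⟩ := Finset.mem_sdiff.1 ha
  have hap := Nat.prime_of_mem_primeFactors ha1
  have h2 : R.factorization a = 0 :=
    Nat.factorization_eq_zero_of_not_dvd fun h => ha2 (hRT a hap h)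
  rw [Nat.factorization_mul hM0 hR, Finsupp.add_apply, h2, add_zero]

theorem unif {l p : ℕ} [Fact l.Prime] [Fact p.Prime] (hl2 : l ≠ 2) (hp2 : p ≠ 2) (hlp : l ≠ p)
    (T : Finset ℕ) (hT : ∀ q ∈ T, q.Prime ∧ q ≠ 2 ∧ q ≠ l ∧ q ≠ p) (M0 : ℕ) (hM0 : M0 ≠ 0)
    (hlM : l ∣ M0) (hpM : p.Coprime M0) :
    ∃ k0 : ℕ, ∀ R : ℕ, R ≠ 0 → (∀ r : ℕ, r.Prime → r ∣ R → r ∈ T) → NVU l p (M0 * R) k0 := by
  have hl : l.Prime := Fact.out
  set M1 := ∏ a ∈ M0.primeFactors \ T, a ^ M0.factorization a with hM1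
  have hdvd : M1 ∣ M0 := by
    have h1 := Un_factor (T := T) hM0 one_ne_zero (fun r hr h => absurd (Nat.dvd_one.1 h) hr.ne_one)
    rw [mul_one] at h1
    exact ⟨_, h1⟩
  have hM10 : M1 ≠ 0 := fun h => hM0 (by rw [h] at hdvd; exact zero_dvd_iff.1 hdvd)
  have hl1 : l ∈ M0.primeFactors \ T := by
    rw [Finset.mem_sdiff]
    exact ⟨Nat.mem_primeFactors.2 ⟨hl, hlM, hM0⟩, fun h => (hT l h).2.2.1 rfl⟩
  have hlM1 : l ∣ M1 := by
    have h1 : l ∣ l ^ M0.factorization l := by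
      refine dvd_pow_self l ?_
      exact (hl.factorization_pos_of_dvd hM0 hlM).ne'
    exact h1.trans (Finset.dvd_prod_of_mem (fun a => a ^ M0.factorization a) hl1)
  have hqM1 : ∀ q ∈ T, q.Coprime M1 := by
    intro q hq
    refine Nat.Coprime.prod_right fun a ha => Nat.Coprime.pow_right _ ?_
    obtain ⟨ha1, ha2⟩ := Finset.mem_sdiff.1 ha
    refine (Nat.coprime_primes (hT q hq).1 (Nat.prime_of_mem_primeFactors ha1)).2 ?_
    rintro rfl
    exact ha2 hq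
  obtain ⟨k0, hk0⟩ := unif_ind hl2 hp2 hlp T.card T rfl hT M1 hM10 hlM1
    (Nat.Coprime.coprime_dvd_right hdvd hpM) hqM1
  exact ⟨k0, fun R hR hRT => hk0 (fun a => (M0 * R).factorization a) _ (Un_factor hM0 hR hRT)⟩

end H2ZS
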